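import Mathlib
import Pool.Agent.Lib.MP_decea1_gt_Q0.Defs

/-!
# MP_decea1_gt, block A, module Bump: boxes and bump functions (A0.4, A0.5)
-/

set_option autoImplicit false

open MeasureTheory Set Filter Topology
open scoped Manifold ContDiff

namespace Pool.Agent.QM59

/-- `Box a b = Set.pi univ (fun i => Ioo (a i) (b i))`. -/
theorem Box_eq (a b : E3) : Box a b = Set.pi Set.univ (fun i => Ioo (a i) (b i)) := by
  ext x
  simp [Box]

theorem isOpen_Box (a b : E3) : IsOpen (Box a b) := by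
  rw [Box_eq]
  exact isOpen_set_pi Set.finite_univ fun i _ => isOpen_Ioo

theorem convex_Box (a b : E3) : Convex ℝ (Box a b) := by
  rw [Box_eq]
  exact convex_pi fun i _ => convex_Ioo _ _

theorem isConnected_Box (a b : E3) (h : ∀ i, a i < b i) : IsConnected (Box a b) :=
  ⟨⟨fun i => (a i + b i) / 2, fun i => ⟨by have := h i; simp only; linarith,
    by have := h i; simp only; linarith⟩⟩, (convex_Box a b).isPreconnected⟩

theorem isConnected_Cube : IsConnected Cube := isConnected_Box 0 1 fun i => by simp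

theorem isOpen_Cube : IsOpen Cube := isOpen_Box 0 1

theorem volume_Box (a b : E3) : volume (Box a b) = ∏ i, ENNReal.ofReal (b i - a i) := by
  rw [Box_eq, Real.volume_pi_Ioo]

theorem Box_subset_Icc (a b : E3) : Box a b ⊆ Icc a b := fun _ hx =>
  ⟨fun i => (hx i).1.le, fun i => (hx i).2.le⟩

theorem Icc_subset_Box (a b a' b' : E3) (h1 : ∀ i, a i < a' i) (h2 : ∀ i, b' i < b i) :
    Icc a' b' ⊆ Box a b := fun _ hx i =>
  ⟨lt_of_lt_of_le (h1 i) (hx.1 i), lt_of_le_of_lt (hx.2 i) (h2 i)⟩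

theorem closure_Box (a b : E3) (h : ∀ i, a i < b i) : closure (Box a b) = Icc a b := by
  rw [Box_eq, closure_pi_set, ← pi_univ_Icc]
  congr 1
  funext i
  exact closure_Ioo (h i).ne

private theorem Icc_eq_closedBall' (x : E3) (r : ℝ) (hr : 0 ≤ r) :
    Icc (fun i => x i - r) (fun i => x i + r) = Metric.closedBall x r := by
  ext y
  rw [Metric.mem_closedBall, dist_pi_le_iff hr]
  constructor
  · rintro ⟨h1, h2⟩ i
    have h3 := h1 i
    have h4 := h2 i
    simp only at h3 h4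
    rw [Real.dist_eq, abs_le]
    constructor <;> linarith
  · intro h
    refine ⟨fun i => ?_, fun i => ?_⟩ <;>
    · have h3 := h i
      rw [Real.dist_eq, abs_le] at h3
      simp only
      linarith [h3.1, h3.2]

/-- every neighbourhood of a point contains a box around it. -/
theorem exists_Box (U : Set E3) (hU : IsOpen U) (x : E3) (hx : x ∈ U) :
    ∃ r : ℝ, 0 < r ∧ Icc (fun i => x i - r) (fun i => x i + r) ⊆ U := by
  obtain ⟨ε, hε, hb⟩ := Metric.isOpen_iff.mp hU x hx
  refine ⟨ε / 2, by positivity, ?_⟩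
  rw [Icc_eq_closedBall' x (ε / 2) (by positivity)]
  exact (Metric.closedBall_subset_ball (by linarith)).trans hb

/-- A0.4. Mathlib: `exists_contMDiff_support_eq...`, `exists_smooth_zero_one_of_isClosed`, or
`exists_contDiff_tsupport_subset` plus compactness. -/
theorem exists_bump (U K : Set E3) (hU : IsOpen U) (hK : IsCompact K) (h : K ⊆ U) :
    ∃ χ : E3 → ℝ, ContDiff ℝ smo χ ∧ (∀ x, 0 ≤ χ x ∧ χ x ≤ 1) ∧
      (∃ W, IsOpen W ∧ K ⊆ W ∧ ∀ x ∈ W, χ x = 1) ∧
      (∃ L, IsCompact L ∧ L ⊆ U ∧ ∀ x, x ∉ L → χ x = 0) := by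
  obtain ⟨K', hK', h1, h2⟩ := exists_compact_between hK hU h
  obtain ⟨f, hf1, hf2, hf3⟩ := exists_contMDiffMap_one_nhds_of_subset_interior (𝓘(ℝ, E3))
    (n := (⊤ : ℕ∞)) hK.isClosed h1
  refine ⟨f, f.contMDiff.contDiff, fun x => hf3 x, ?_, K', hK', h2, hf2⟩
  rw [Filter.Eventually, mem_nhdsSet_iff_exists] at hf1
  obtain ⟨W, hW, hKW, hW1⟩ := hf1
  exact ⟨W, hW, hKW, fun x hx => hW1 hx⟩

/-- A0.4 with a support of small measure (outer regularity: an open set `V ⊇ K` with
`volume V < volume K + ε`, then `exists_bump` for `U ∩ V`). -/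
theorem exists_bump_small (U K : Set E3) (hU : IsOpen U) (hK : IsCompact K) (h : K ⊆ U)
    (ε : ℝ) (hε : 0 < ε) :
    ∃ χ : E3 → ℝ, ContDiff ℝ smo χ ∧ (∀ x, 0 ≤ χ x ∧ χ x ≤ 1) ∧
      (∃ W, IsOpen W ∧ K ⊆ W ∧ ∀ x ∈ W, χ x = 1) ∧
      (∃ L, IsCompact L ∧ L ⊆ U ∧ K ⊆ L ∧ volume L < volume K + ENNReal.ofReal ε ∧
        ∀ x, x ∉ L → χ x = 0) := by
  have hlt : volume K < volume K + ENNReal.ofReal ε :=
    ENNReal.lt_add_right hK.measure_lt_top.ne (ENNReal.ofReal_pos.mpr hε).ne'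
  obtain ⟨V, hKV, hV, hVm⟩ := K.exists_isOpen_lt_of_lt _ hlt
  obtain ⟨χ, h1, h2, ⟨W, hW, hKW, hW1⟩, L, hL, hLU, hL0⟩ :=
    exists_bump (U ∩ V) K (hU.inter hV) hK (subset_inter h hKV)
  refine ⟨χ, h1, h2, ⟨W, hW, hKW, hW1⟩, L, hL, hLU.trans inter_subset_left, fun x hx => ?_,
    (measure_mono (hLU.trans inter_subset_right)).trans_lt hVm, hL0⟩
  by_contra hxL
  have h3 := hW1 x (hKW hx)
  rw [hL0 x hxL] at h3
  exact zero_ne_one h3

/-- smooth step, `Real.smoothTransition`. -/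
theorem exists_step : ∃ h : ℝ → ℝ, ContDiff ℝ smo h ∧ (∀ t, 0 ≤ h t ∧ h t ≤ 1) ∧
    (∀ t, t ≤ 0 → h t = 0) ∧ (∀ t, 1 ≤ t → h t = 1) :=
  ⟨Real.smoothTransition, Real.smoothTransition.contDiff,
    fun t => ⟨Real.smoothTransition.nonneg t, Real.smoothTransition.le_one t⟩,
    fun _ ht => Real.smoothTransition.zero_of_nonpos ht,
    fun _ ht => Real.smoothTransition.one_of_one_le ht⟩

/-- one-dimensional bump with integral one. -/
theorem exists_bump1 (a b : ℝ) (h : a < b) : ∃ η : ℝ → ℝ, ContDiff ℝ smo η ∧ (∀ t, 0 ≤ η t) ∧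
    (∀ t, t ∉ Ioo a b → η t = 0) ∧ ∫ t, η t = 1 := by
  let f : ContDiffBump ((a + b) / 2 : ℝ) := ⟨(b - a) / 4, (b - a) / 2, by linarith, by linarith⟩
  refine ⟨f.normed volume, f.contDiff_normed, fun x => f.nonneg_normed x, fun t ht => ?_,
    f.integral_normed⟩
  have h1 := f.support_normed_eq (μ := volume)
  have h2 : t ∉ Function.support (f.normed volume) := by
    rw [h1, Real.ball_eq_Ioo]
    intro h3
    refine ht ?_
    have e1 : (a + b) / 2 - (b - a) / 2 = a := by ring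
    have e2 : (a + b) / 2 + (b - a) / 2 = b := by ring
    rwa [show f.rOut = (b - a) / 2 from rfl, e1, e2] at h3
  simpa using h2

/-- a nonnegative bump with integral one, supported in a compact subset of the nonempty open
set `U`, positive at the given point. -/
theorem exists_bump3 (U : Set E3) (hU : IsOpen U) (x : E3) (hx : x ∈ U) :
    ∃ β : E3 → ℝ, ContDiff ℝ smo β ∧ (∀ y, 0 ≤ β y) ∧ 0 < β x ∧ ∫ y, β y = 1 ∧
      ∃ r : ℝ, 0 < r ∧ Icc (fun i => x i - r) (fun i => x i + r) ⊆ U ∧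
        ∀ y, y ∉ Icc (fun i => x i - r / 2) (fun i => x i + r / 2) → β y = 0 := by
  obtain ⟨r, hr, hrU⟩ := exists_Box U hU x hx
  let f : ContDiffBump x := ⟨r / 4, r / 2, by positivity, by linarith⟩
  refine ⟨f.normed volume, f.contDiff_normed, fun y => f.nonneg_normed y, ?_,
    f.integral_normed, r, hr, hrU, fun y hy => ?_⟩
  · have h1 : x ∈ Function.support (f.normed volume) := by
      rw [f.support_normed_eq]
      exact Metric.mem_ball_self (by change 0 < r / 2; positivity)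
    exact lt_of_le_of_ne (f.nonneg_normed x) (Ne.symm h1)
  · have h1 := f.support_normed_eq (μ := volume)
    have h2 : y ∉ Function.support (f.normed volume) := by
      rw [h1]
      intro h
      refine hy ?_
      rw [Icc_eq_closedBall' x (r / 2) (by positivity)]
      exact Metric.ball_subset_closedBall h
    simpa using h2

end Pool.Agent.QM59
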