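import Mathlib
import Pool.Agent.Lib.MP_decea1_gt_Q0.Defs

/-!
# MP_decea1_gt, block A, module J1: Jacobians, `IsDif`, `IdOff`, `Vol`

Elementary calculus. `jac f x = (fderiv ℝ f x).det`.
-/

set_option autoImplicit false

open MeasureTheory Set Filter Topology

namespace Pool.Agent.QM59

/-- The determinant of a smooth family of linear maps is smooth. -/
private theorem J1_det {P : Type*} [NormedAddCommGroup P] [NormedSpace ℝ P] (L : P → E3 →L[ℝ] E3)
    (hL : ContDiff ℝ smo L) : ContDiff ℝ smo fun p => (L p).det := by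
  have e : (fun p => (L p).det) = fun p => (LinearMap.toMatrix' (L p : E3 →ₗ[ℝ] E3)).det := by
    funext p
    rw [LinearMap.det_toMatrix']
  have h : ∀ i j, ContDiff ℝ smo fun p => (LinearMap.toMatrix' (L p : E3 →ₗ[ℝ] E3)) i j := by
    intro i j
    have e2 : (fun p => (LinearMap.toMatrix' (L p : E3 →ₗ[ℝ] E3)) i j) = fun p =>
        L p (Pi.single j 1) i := by
      funext p
      rw [LinearMap.toMatrix'_apply]
      rfl
    rw [e2]
    exact contDiff_pi.1 (hL.clm_apply contDiff_const) i
  rw [e]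
  simp only [Matrix.det_fin_three]
  have h00 := h 0 0
  have h01 := h 0 1
  have h02 := h 0 2
  have h10 := h 1 0
  have h11 := h 1 1
  have h12 := h 1 2
  have h20 := h 2 0
  have h21 := h 2 1
  have h22 := h 2 2
  exact (((((((h00.mul h11).mul h22).sub ((h00.mul h12).mul h21)).sub
    ((h01.mul h10).mul h22)).add ((h01.mul h12).mul h20)).add
    ((h02.mul h10).mul h21)).sub ((h02.mul h11).mul h20))

/-- chain rule and `LinearMap.det_comp` (`ContinuousLinearMap.det` is the determinant of the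
underlying linear map). -/
theorem jac_comp (f g : E3 → E3) (x : E3) (hf : DifferentiableAt ℝ f (g x))
    (hg : DifferentiableAt ℝ g x) : jac (fun y => f (g y)) x = jac f (g x) * jac g x := by
  unfold jac
  rw [show (fun y => f (g y)) = f ∘ g from rfl, fderiv_comp x hf hg]
  exact LinearMap.det_comp _ _

theorem jac_congr (f g : E3 → E3) (x : E3) (h : f =ᶠ[𝓝 x] g) : jac f x = jac g x := by
  unfold jac
  rw [h.fderiv_eq]

theorem jac_id (x : E3) : jac (fun y => y) x = 1 := by
  unfold jac
  rw [fderiv_fun_id]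
  exact LinearMap.det_id

/-- the Jacobian of a smooth map is smooth (`ContDiff.fderiv_right`, the determinant is a
polynomial in the entries, e.g. `ContinuousLinearMap.det` = `Matrix.det` of the matrix in the
standard basis). -/
theorem contDiff_jac (f : E3 → E3) (hf : ContDiff ℝ smo f) : ContDiff ℝ smo (jac f) := by
  have h1 : ContDiff ℝ smo (fderiv ℝ f) := hf.fderiv_right (by simp [smo])
  exact J1_det _ h1

/-- the same with a parameter: the `x`-derivative of `(s,x) ↦ F s x` is the derivative of the map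
on `ℝ × E3` composed with the inclusion of `E3`. -/
theorem contDiff_jac_param (F : ℝ → E3 → E3)
    (hF : ContDiff ℝ smo (fun p : ℝ × E3 => F p.1 p.2)) :
    ContDiff ℝ smo (fun p : ℝ × E3 => jac (fun y => F p.1 y) p.2) := by
  have h1 : ContDiff ℝ smo fun p : ℝ × E3 =>
      (fderiv ℝ (fun p : ℝ × E3 => F p.1 p.2) p).comp (ContinuousLinearMap.inr ℝ ℝ E3) :=
    (hF.fderiv_right (by simp [smo])).clm_comp contDiff_const
  have h2 : (fun p : ℝ × E3 => jac (fun y => F p.1 y) p.2) = fun p : ℝ × E3 =>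
      ((fderiv ℝ (fun p : ℝ × E3 => F p.1 p.2) p).comp (ContinuousLinearMap.inr ℝ ℝ E3)).det := by
    funext p
    have hd : DifferentiableAt ℝ (fun p : ℝ × E3 => F p.1 p.2) p :=
      (hF.differentiable (by simp)) p
    have e1 : HasFDerivAt (fun y : E3 => ((p.1, y) : ℝ × E3))
        (ContinuousLinearMap.inr ℝ ℝ E3) p.2 := hasFDerivAt_prodMk_right p.1 p.2
    have e2 : HasFDerivAt (fun y : E3 => F p.1 y)
        ((fderiv ℝ (fun p : ℝ × E3 => F p.1 p.2) p).comp (ContinuousLinearMap.inr ℝ ℝ E3)) p.2 :=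
      HasFDerivAt.comp p.2 (f := fun y : E3 => ((p.1, y) : ℝ × E3)) hd.hasFDerivAt e1
    unfold jac
    rw [e2.fderiv]
  rw [h2]
  exact J1_det _ h1

theorem IsDif.one : IsDif 1 := by
  exact ⟨contDiff_id, contDiff_id⟩

theorem IsDif.mul {f g : Equiv.Perm E3} (hf : IsDif f) (hg : IsDif g) : IsDif (f * g) := by
  exact ⟨hf.1.comp hg.1, hg.2.comp hf.2⟩

theorem IsDif.inv {f : Equiv.Perm E3} (hf : IsDif f) : IsDif f⁻¹ := by
  exact ⟨hf.2, hf.1⟩

theorem IsDif.differentiable {f : Equiv.Perm E3} (hf : IsDif f) :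
    Differentiable ℝ (fun y => f y) := by
  exact hf.1.differentiable (by simp)

/-- a smooth diffeomorphism is a homeomorphism -/
theorem IsDif.exists_homeo {f : Equiv.Perm E3} (hf : IsDif f) :
    ∃ h : E3 ≃ₜ E3, (∀ x, h x = f x) ∧ ∀ x, h.symm x = f⁻¹ x := by
  exact ⟨{ f with
    continuous_toFun := hf.1.continuous
    continuous_invFun := hf.2.continuous }, fun x => rfl, fun x => rfl⟩

theorem IsDif.jac_mul {f g : Equiv.Perm E3} (hf : IsDif f) (hg : IsDif g) (x : E3) :
    jac (fun y => (f * g) y) x = jac (fun y => f y) (g x) * jac (fun y => g y) x := by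
  exact jac_comp (fun y => f y) (fun y => g y) x (hf.differentiable _) (hg.differentiable _)

/-- from `jac_mul` for `f⁻¹ * f = 1`. -/
theorem IsDif.jac_inv {f : Equiv.Perm E3} (hf : IsDif f) (x : E3) :
    jac (fun y => f⁻¹ y) x = (jac (fun y => f y) (f⁻¹ x))⁻¹ := by
  have h := hf.jac_mul hf.inv x
  have h1 : jac (fun y => (f * f⁻¹) y) x = 1 := by
    rw [mul_inv_cancel]
    exact jac_id x
  rw [h1] at h
  exact eq_inv_of_mul_eq_one_right h.symm

theorem IsDif.jac_ne_zero {f : Equiv.Perm E3} (hf : IsDif f) (x : E3) :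
    jac (fun y => f y) x ≠ 0 := by
  intro h0
  have h := hf.inv.jac_mul hf x
  have h1 : jac (fun y => (f⁻¹ * f) y) x = 1 := by
    rw [inv_mul_cancel]
    exact jac_id x
  rw [h1, h0, mul_zero] at h
  exact one_ne_zero h

end Pool.Agent.QM59
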