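import Mathlib
import Pool.Agent.Lib.MP_decea1_gt_A.J1

/-!
# MP_decea1_gt, block A, module J2: `IdOff`, `Vol`, positivity of the Jacobian
-/

set_option autoImplicit false

open MeasureTheory Set Filter Topology

namespace Pool.Agent.QM59

theorem IdOff.one (K : Set E3) : IdOff K 1 := by
  intro x _
  rfl

theorem IdOff.mul {K : Set E3} {f g : Equiv.Perm E3} (hf : IdOff K f) (hg : IdOff K g) :
    IdOff K (f * g) := by
  intro x hx
  rw [Equiv.Perm.mul_apply, hg x hx, hf x hx]

theorem IdOff.inv {K : Set E3} {f : Equiv.Perm E3} (hf : IdOff K f) : IdOff K f⁻¹ := by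
  intro x hx
  rw [Equiv.Perm.inv_eq_iff_eq, hf x hx]

theorem IdOff.mono {K L : Set E3} {f : Equiv.Perm E3} (hf : IdOff K f) (h : K ⊆ L) :
    IdOff L f := by
  intro x hx
  exact hf x fun hx' => hx (h hx')

theorem IdOff.mem_iff {K : Set E3} {f : Equiv.Perm E3} (hf : IdOff K f) (x : E3) :
    f x ∈ K ↔ x ∈ K := by
  constructor
  · intro h
    by_contra hx
    rw [hf x hx] at h
    exact hx h
  · intro h
    by_contra hx
    have k : f (f x) = f x := hf (f x) hx
    exact hx (by rwa [f.injective k])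

theorem IdOff.image_eq {K U : Set E3} {f : Equiv.Perm E3} (hf : IdOff K f) (h : K ⊆ U) :
    f '' U = U := by
  have hf' := hf.mono h
  ext x
  constructor
  · rintro ⟨y, hy, rfl⟩
    exact (hf'.mem_iff y).2 hy
  · intro hx
    refine ⟨f⁻¹ x, (hf'.inv.mem_iff x).2 hx, ?_⟩
    exact f.apply_symm_apply x

/-- `(g f g⁻¹)(x) = x` unless `g⁻¹ x ∈ K`. -/
theorem IdOff.conj {K : Set E3} {f : Equiv.Perm E3} (hf : IdOff K f) (g : Equiv.Perm E3) :
    IdOff (g '' K) (g * f * g⁻¹) := by
  intro x hx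
  have h : g⁻¹ x ∉ K := fun h => hx ⟨g⁻¹ x, h, g.apply_symm_apply x⟩
  rw [Equiv.Perm.mul_apply, Equiv.Perm.mul_apply, hf _ h]
  exact g.apply_symm_apply x

theorem IdOff.pow {K : Set E3} {f : Equiv.Perm E3} (hf : IdOff K f) (n : ℕ) :
    IdOff K (f ^ n) := by
  induction n with
  | zero => rw [pow_zero]; exact IdOff.one K
  | succ n ih => rw [pow_succ]; exact ih.mul hf

/-- near a point off the closed set `K` the map is the identity. -/
theorem IdOff.jac_eq_one {K : Set E3} {f : Equiv.Perm E3} (hK : IsClosed K) (hf : IdOff K f)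
    (x : E3) (hx : x ∉ K) : jac (fun y => f y) x = 1 := by
  rw [jac_congr (fun y => f y) (fun y => y) x ?_, jac_id]
  filter_upwards [hK.isOpen_compl.mem_nhds hx] with y hy
  exact hf y hy

/-- `jac f` is continuous, nowhere zero, and `1` far away; `E3` is connected. -/
theorem IsDif.jac_pos {f : Equiv.Perm E3} (hf : IsDif f) (K : Set E3) (hK : IsCompact K)
    (h : IdOff K f) (x : E3) : 0 < jac (fun y => f y) x := by
  have hc : Continuous (jac fun y => f y) := (contDiff_jac _ hf.1).continuous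
  obtain ⟨z, hz⟩ : ∃ z, z ∉ K := by
    by_contra hcon
    push Not at hcon
    have e : K = univ := eq_univ_of_forall hcon
    rw [e] at hK
    exact noncompact_univ E3 hK
  have h1 : jac (fun y => f y) z = 1 := h.jac_eq_one hK.isClosed z hz
  by_contra hx
  have hx' : jac (fun y => f y) x ≤ 0 := not_lt.1 hx
  obtain ⟨w, -, hw⟩ := (isPreconnected_univ (α := E3)).intermediate_value (mem_univ x)
    (mem_univ z) hc.continuousOn (show (0:ℝ) ∈ Icc _ _ from ⟨hx', by rw [h1]; exact zero_le_one⟩)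
  exact hf.jac_ne_zero w hw

theorem Vol.one : Vol 1 := by
  intro x
  exact jac_id x

theorem Vol.mul {f g : Equiv.Perm E3} (hf : IsDif f) (hg : IsDif g) (h1 : Vol f) (h2 : Vol g) :
    Vol (f * g) := by
  intro x
  rw [hf.jac_mul hg, h1, h2, one_mul]

theorem Vol.inv {f : Equiv.Perm E3} (hf : IsDif f) (h1 : Vol f) : Vol f⁻¹ := by
  intro x
  rw [hf.jac_inv, h1, inv_one]

end Pool.Agent.QM59
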