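import Mathlib
import Pool.Agent.Lib.MP_decea1_gt_A.J2

/-!
# MP_decea1_gt, block A, module Fam1: families and isotopies (A0.1)
-/

set_option autoImplicit false

open MeasureTheory Set Filter Topology

namespace Pool.Agent.QM59

theorem Fam.one (U : Set E3) : Fam U (fun _ => 1) where
  smooth := contDiff_snd
  smooth_inv := contDiff_snd
  supp := ⟨∅, empty_subset _, isCompact_empty, fun _ => IdOff.one _⟩

/-- `(s,x) ↦ F s (G s x)` is the composition of `p ↦ (p.1, G p.1 p.2)` and `F`; union of the two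
compact sets. -/
theorem Fam.mul {U : Set E3} {F G : ℝ → Equiv.Perm E3} (hF : Fam U F) (hG : Fam U G) :
    Fam U (fun s => F s * G s) where
  smooth := hF.smooth.comp (contDiff_fst.prodMk hG.smooth)
  smooth_inv := hG.smooth_inv.comp (contDiff_fst.prodMk hF.smooth_inv)
  supp := by
    obtain ⟨K, hK, hKc, h1⟩ := hF.supp
    obtain ⟨L, hL, hLc, h2⟩ := hG.supp
    exact ⟨K ∪ L, union_subset hK hL, hKc.union hLc, fun s =>
      ((h1 s).mono subset_union_left).mul ((h2 s).mono subset_union_right)⟩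

theorem Fam.inv {U : Set E3} {F : ℝ → Equiv.Perm E3} (hF : Fam U F) :
    Fam U (fun s => (F s)⁻¹) where
  smooth := hF.smooth_inv
  smooth_inv := hF.smooth
  supp := by
    obtain ⟨K, hK, hKc, h1⟩ := hF.supp
    exact ⟨K, hK, hKc, fun s => (h1 s).inv⟩

theorem Fam.mono {U V : Set E3} {F : ℝ → Equiv.Perm E3} (hF : Fam U F) (h : U ⊆ V) :
    Fam V F where
  smooth := hF.smooth
  smooth_inv := hF.smooth_inv
  supp := by
    obtain ⟨K, hK, hKc, h1⟩ := hF.supp
    exact ⟨K, hK.trans h, hKc, h1⟩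

/-- change of the parameter -/
theorem Fam.reparam {U : Set E3} {F : ℝ → Equiv.Perm E3} (hF : Fam U F) (h : ℝ → ℝ)
    (hh : ContDiff ℝ smo h) : Fam U (fun s => F (h s)) where
  smooth := hF.smooth.comp ((hh.comp contDiff_fst).prodMk contDiff_snd)
  smooth_inv := hF.smooth_inv.comp ((hh.comp contDiff_fst).prodMk contDiff_snd)
  supp := by
    obtain ⟨K, hK, hKc, h1⟩ := hF.supp
    exact ⟨K, hK, hKc, fun s => h1 (h s)⟩

theorem Fam.isDif {U : Set E3} {F : ℝ → Equiv.Perm E3} (hF : Fam U F) (s : ℝ) :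
    IsDif (F s) :=
  ⟨hF.smooth.comp (contDiff_const.prodMk contDiff_id),
    hF.smooth_inv.comp (contDiff_const.prodMk contDiff_id)⟩

theorem Fam.contDiff_jac {U : Set E3} {F : ℝ → Equiv.Perm E3} (hF : Fam U F) :
    ContDiff ℝ smo (fun p : ℝ × E3 => jac (fun y => F p.1 y) p.2) :=
  contDiff_jac_param (fun s x => F s x) hF.smooth

theorem Fam.jac_pos {U : Set E3} {F : ℝ → Equiv.Perm E3} (hF : Fam U F) (s : ℝ) (x : E3) :
    0 < jac (fun y => F s y) x := by
  obtain ⟨K, -, hKc, h1⟩ := hF.supp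
  exact (hF.isDif s).jac_pos K hKc (h1 s) x

theorem IsIso.one (U : Set E3) : IsIso U (fun _ => 1) where
  toFam := Fam.one U
  left _ _ := rfl
  right _ _ := rfl

theorem IsIso.mul {U : Set E3} {F G : ℝ → Equiv.Perm E3} (hF : IsIso U F) (hG : IsIso U G) :
    IsIso U (fun s => F s * G s) where
  toFam := hF.toFam.mul hG.toFam
  left s hs := by
    show F s * G s = 1
    rw [hF.left s hs, hG.left s hs, mul_one]
  right s hs := by
    show F s * G s = F 1 * G 1
    rw [hF.right s hs, hG.right s hs]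

theorem IsIso.inv {U : Set E3} {F : ℝ → Equiv.Perm E3} (hF : IsIso U F) :
    IsIso U (fun s => (F s)⁻¹) where
  toFam := hF.toFam.inv
  left s hs := by
    show (F s)⁻¹ = 1
    rw [hF.left s hs, inv_one]
  right s hs := by
    show (F s)⁻¹ = (F 1)⁻¹
    rw [hF.right s hs]

theorem IsIso.mono {U V : Set E3} {F : ℝ → Equiv.Perm E3} (hF : IsIso U F) (h : U ⊆ V) :
    IsIso V F where
  toFam := hF.toFam.mono h
  left := hF.left
  right := hF.right

/-- a family with `F 0 = 1` gives an isotopy with the end point `F 1`: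
`s ↦ F (Real.smoothTransition s)`. -/
theorem Fam.toInIso {U : Set E3} {F : ℝ → Equiv.Perm E3} (hF : Fam U F) (h0 : F 0 = 1) :
    InIso U (F 1) := by
  refine ⟨fun s => F (Real.smoothTransition s), ⟨hF.reparam _ Real.smoothTransition.contDiff,
    fun s hs => ?_, fun s hs => ?_⟩, ?_⟩
  · show F (Real.smoothTransition s) = 1
    rw [Real.smoothTransition.zero_of_nonpos hs, h0]
  · show F (Real.smoothTransition s) = F (Real.smoothTransition 1)
    rw [Real.smoothTransition.one_of_one_le hs, Real.smoothTransition.one]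
  · show F (Real.smoothTransition 1) = F 1
    rw [Real.smoothTransition.one]

end Pool.Agent.QM59
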