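import Mathlib
import Pool.Agent.Lib.MP_decea1_gt_A.Fam1

/-!
# MP_decea1_gt, block A, module Iso1: the groups of end points of isotopies (A0.1, A0.2)
-/

set_option autoImplicit false

open MeasureTheory Set Filter Topology

namespace Pool.Agent.QM59

private theorem idOff_image {K V : Set E3} {f : Equiv.Perm E3} (hf : IdOff K f) (h : K ⊆ V) :
    f '' V = V := by
  apply Subset.antisymm
  · rintro _ ⟨x, hx, rfl⟩
    by_contra hn
    have h1 : f (f x) = f x := hf _ fun hk => hn (h hk)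
    have h2 : f x = x := f.injective h1
    exact hn (h2.symm ▸ hx)
  · intro y hy
    refine ⟨f.symm y, ?_, f.apply_symm_apply y⟩
    by_contra hn
    have h1 : f (f.symm y) = f.symm y := hf _ fun hk => hn (h hk)
    rw [f.apply_symm_apply] at h1
    exact hn (h1 ▸ hy)

private theorem isIso_conj {U V : Set E3} {F : ℝ → Equiv.Perm E3} {g : Equiv.Perm E3}
    (hF : IsIso U F) (hg : IsDif g) (h : g '' U ⊆ V) :
    IsIso V (fun s => g * F s * g⁻¹) where
  smooth := by
    have h1 : ContDiff ℝ smo (fun p : ℝ × E3 => (p.1, g.symm p.2)) :=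
      contDiff_fst.prodMk (hg.2.comp contDiff_snd)
    exact hg.1.comp (hF.smooth.comp h1)
  smooth_inv := by
    have h1 : ContDiff ℝ smo (fun p : ℝ × E3 => (p.1, g.symm p.2)) :=
      contDiff_fst.prodMk (hg.2.comp contDiff_snd)
    exact hg.1.comp (hF.smooth_inv.comp h1)
  supp := by
    obtain ⟨K, hKU, hK, hKs⟩ := hF.supp
    refine ⟨g '' K, (image_mono hKU).trans h, hK.image hg.1.continuous, fun s x hx => ?_⟩
    have h1 : g.symm x ∉ K := fun h2 => hx ⟨g.symm x, h2, g.apply_symm_apply x⟩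
    have h3 : F s (g.symm x) = g.symm x := hKs s _ h1
    change g (F s (g.symm x)) = x
    rw [h3, g.apply_symm_apply]
  left := by
    intro s hs
    change g * F s * g⁻¹ = 1
    rw [hF.left s hs]
    group
  right := by
    intro s hs
    change g * F s * g⁻¹ = g * F 1 * g⁻¹
    rw [hF.right s hs]

theorem InIso.one (U : Set E3) : InIso U 1 := by
  exact ⟨fun _ => 1, IsIso.one U, rfl⟩

theorem InIso.mul {U : Set E3} {f g : Equiv.Perm E3} (hf : InIso U f) (hg : InIso U g) :
    InIso U (f * g) := by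
  obtain ⟨F, hF, rfl⟩ := hf
  obtain ⟨G, hG, rfl⟩ := hg
  exact ⟨fun s => F s * G s, hF.mul hG, rfl⟩

theorem InIso.inv {U : Set E3} {f : Equiv.Perm E3} (hf : InIso U f) : InIso U f⁻¹ := by
  obtain ⟨F, hF, rfl⟩ := hf
  exact ⟨fun s => (F s)⁻¹, hF.inv, rfl⟩

theorem InIso.mono {U V : Set E3} {f : Equiv.Perm E3} (hf : InIso U f) (h : U ⊆ V) :
    InIso V f := by
  obtain ⟨F, hF, rfl⟩ := hf
  exact ⟨F, hF.mono h, rfl⟩

theorem InIso.pow {U : Set E3} {f : Equiv.Perm E3} (hf : InIso U f) (n : ℕ) :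
    InIso U (f ^ n) := by
  induction n with
  | zero => rw [pow_zero]; exact InIso.one U
  | succ n ih => rw [pow_succ]; exact ih.mul hf

theorem InIso.isDif {U : Set E3} {f : Equiv.Perm E3} (hf : InIso U f) : IsDif f := by
  obtain ⟨F, hF, rfl⟩ := hf
  exact hF.toFam.isDif 1

theorem InIso.supp {U : Set E3} {f : Equiv.Perm E3} (hf : InIso U f) :
    ∃ K : Set E3, K ⊆ U ∧ IsCompact K ∧ IdOff K f := by
  obtain ⟨F, hF, rfl⟩ := hf
  obtain ⟨K, h1, h2, h3⟩ := hF.supp
  exact ⟨K, h1, h2, h3 1⟩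

theorem InIso.jac_pos {U : Set E3} {f : Equiv.Perm E3} (hf : InIso U f) (x : E3) :
    0 < jac (fun y => f y) x := by
  obtain ⟨F, hF, rfl⟩ := hf
  exact hF.toFam.jac_pos 1 x

theorem InIso.idOff {U : Set E3} {f : Equiv.Perm E3} (hf : InIso U f) : IdOff U f := by
  obtain ⟨K, h1, -, h3⟩ := hf.supp
  exact fun x hx => h3 x fun hk => hx (h1 hk)

theorem InIso.image_eq {U V : Set E3} {f : Equiv.Perm E3} (hf : InIso U f) (h : U ⊆ V) :
    f '' V = V := by
  exact idOff_image hf.idOff h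

/-- the isotopy `g (F s) g⁻¹`, supported in `g '' K`. -/
theorem InIso.conj {U V : Set E3} {f g : Equiv.Perm E3} (hf : InIso U f) (hg : IsDif g)
    (h : g '' U ⊆ V) : InIso V (g * f * g⁻¹) := by
  obtain ⟨F, hF, rfl⟩ := hf
  exact ⟨fun s => g * F s * g⁻¹, isIso_conj hF hg h, rfl⟩

/-- A0.2 (normality). Isotopy `(F s)⁻¹ x (F s) x⁻¹`: if all `F s` are the identity off `K'`, then it
is the identity off `K' ∪ x '' K'`, a compact subset of the cube because `x` maps the cube onto
itself. -/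
theorem InIso.normal {m x : Equiv.Perm E3} (hm : InIso Cube m) (hx : IsDif x) (K : Set E3)
    (hK : IsCompact K) (hKC : K ⊆ Cube) (hxK : IdOff K x) :
    InIso Cube (m⁻¹ * x * m * x⁻¹) := by
  have h1 : InIso Cube (x * m * x⁻¹) := hm.conj hx (idOff_image hxK hKC).subset
  have h2 := hm.inv.mul h1
  have h3 : m⁻¹ * (x * m * x⁻¹) = m⁻¹ * x * m * x⁻¹ := by group
  rwa [h3] at h2

/-- the group of all end points of isotopies in `U` -/
def IsoG (U : Set E3) : Subgroup (Equiv.Perm E3) where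
  carrier := {f | InIso U f}
  mul_mem' := fun ha hb => InIso.mul ha hb
  one_mem' := InIso.one U
  inv_mem' := fun ha => InIso.inv ha

end Pool.Agent.QM59
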