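import Mathlib
import Pool.Agent.Lib.MP_decea1_gt_Q0.Defs

/-!
# MP_decea1_gt, block A, module Sym: smooth inverse with a parameter
-/

set_option autoImplicit false

open MeasureTheory Set Filter Topology

namespace Pool.Agent.QM59

/-- `Φ (s,x) = (s, F s x)` is a homeomorphism of `ℝ × E3` (its inverse `(s,y) ↦ (s, (F s)⁻¹ y)` is
continuous by `hc`). Its derivative at `(s,x)` is `(σ,ξ) ↦ (σ, σ • ∂ₛF + DₓF ξ)`, which is
bijective because `DₓF = fderiv ℝ (fun y => F s y) x` has nonzero determinant, so it is a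
continuous linear equivalence (finite dimension). `Homeomorph.contDiff_symm` gives the
smoothness of the inverse. -/
theorem symm_smooth (F : ℝ → Equiv.Perm E3)
    (hF : ContDiff ℝ smo (fun p : ℝ × E3 => F p.1 p.2))
    (hj : ∀ s x, jac (fun y => F s y) x ≠ 0)
    (hc : Continuous (fun p : ℝ × E3 => (F p.1).symm p.2)) :
    ContDiff ℝ smo (fun p : ℝ × E3 => (F p.1).symm p.2) := by
  set G : ℝ × E3 → E3 := fun p => F p.1 p.2 with hG
  have hGd : ∀ p, HasFDerivAt G (fderiv ℝ G p) p := fun p =>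
    (hF.contDiffAt.differentiableAt (by simp [smo])).hasFDerivAt
  -- the homeomorphism
  let Φ : (ℝ × E3) ≃ₜ (ℝ × E3) :=
    { toFun := fun p => (p.1, G p)
      invFun := fun p => (p.1, (F p.1).symm p.2)
      left_inv := fun p => by simp [hG]
      right_inv := fun p => by simp [hG]
      continuous_toFun := continuous_fst.prodMk hF.continuous
      continuous_invFun := continuous_fst.prodMk hc }
  -- the derivative
  have hpart : ∀ p : ℝ × E3, ∀ ξ : E3,
      fderiv ℝ G p (0, ξ) = fderiv ℝ (fun y => F p.1 y) p.2 ξ := by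
    rintro ⟨s, x⟩ ξ
    have h1 : HasFDerivAt (fun y : E3 => ((s, y) : ℝ × E3))
        (ContinuousLinearMap.inr ℝ ℝ E3) x := hasFDerivAt_prodMk_right s x
    have h2 : HasFDerivAt (fun y => F s y)
        ((fderiv ℝ G (s, x)).comp (ContinuousLinearMap.inr ℝ ℝ E3)) x := (hGd (s, x)).comp x h1
    rw [h2.fderiv]
    simp
  have hinj : ∀ p : ℝ × E3, Function.Injective
      ((ContinuousLinearMap.fst ℝ ℝ E3).prod (fderiv ℝ G p)) := by
    intro p
    rw [injective_iff_map_eq_zero]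
    rintro ⟨σ, ξ⟩ h0
    have h1 : σ = 0 := congrArg Prod.fst h0
    have h2 : fderiv ℝ G p (σ, ξ) = 0 := congrArg Prod.snd h0
    rw [h1, hpart] at h2
    have h3 : ξ = 0 := by
      by_contra hne
      have h4 : LinearMap.det ((fderiv ℝ (fun y => F p.1 y) p.2 : E3 →L[ℝ] E3) : E3 →ₗ[ℝ] E3)
          = 0 := by
        by_contra hdet
        have h7 : Function.Injective
            ((fderiv ℝ (fun y => F p.1 y) p.2 : E3 →L[ℝ] E3) : E3 →ₗ[ℝ] E3) :=
          (LinearMap.equivOfDetNeZero _ hdet).injective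
        exact hne (h7 (by simpa using h2))
      exact hj p.1 p.2 h4
    rw [h1, h3]
    rfl
  let L : ℝ × E3 → ((ℝ × E3) ≃L[ℝ] (ℝ × E3)) := fun p =>
    (LinearEquiv.ofInjectiveEndo
      (((ContinuousLinearMap.fst ℝ ℝ E3).prod (fderiv ℝ G p) : (ℝ × E3) →L[ℝ] (ℝ × E3)) :
        (ℝ × E3) →ₗ[ℝ] (ℝ × E3)) (hinj p)).toContinuousLinearEquiv
  have hL : ∀ p, ((L p : (ℝ × E3) ≃L[ℝ] (ℝ × E3)) : (ℝ × E3) →L[ℝ] (ℝ × E3))
      = (ContinuousLinearMap.fst ℝ ℝ E3).prod (fderiv ℝ G p) := by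
    intro p
    ext v <;> rfl
  have hΦ : ∀ p, HasFDerivAt Φ ((L p : (ℝ × E3) ≃L[ℝ] (ℝ × E3)) : (ℝ × E3) →L[ℝ] (ℝ × E3)) p := by
    intro p
    rw [hL]
    exact hasFDerivAt_fst.prodMk (hGd p)
  have hΦs : ContDiff ℝ smo Φ := contDiff_fst.prodMk hF
  have := (Φ.contDiff_symm hΦ hΦs)
  exact contDiff_snd.comp this

end Pool.Agent.QM59
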