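import Mathlib
import Pool.Agent.Lib.MP_decea1_gt_A.Iso1
import Pool.Agent.Lib.MP_decea1_gt_A.Sym
import Pool.Agent.Lib.MP_decea1_gt_A.Bump

/-!
# MP_decea1_gt, block A, module A1: the near-identity lemma
-/

set_option autoImplicit false

open MeasureTheory Set Filter Topology

namespace Pool.Agent.QM59

/-- A map `x ↦ x + v x` with `v` smooth and `‖Dv‖ ≤ 1/2` is a bijection of `E3`: `v` is
`1/2`-Lipschitz (`Convex.norm_image_sub_le_of_norm_fderiv_le`), so it is injective, and it is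
surjective by the contraction principle (`ContractingWith.exists_fixedPoint` for
`x ↦ y - v x`; compare `HasStrictFDerivAt`/`ApproximatesLinearOn.toHomeomorph`). Moreover
`‖x - x'‖ ≤ 2 ‖f x - f x'‖`. -/
theorem A1a (v : E3 → E3) (hv : ContDiff ℝ smo v) (hD : ∀ x, ‖fderiv ℝ v x‖ ≤ 1 / 2) :
    ∃ f : Equiv.Perm E3, (∀ x, f x = x + v x) ∧ (∀ x x', ‖x - x'‖ ≤ 2 * ‖f x - f x'‖) ∧
      ∀ x, jac (fun y => f y) x ≠ 0 := by
  have hdiff : Differentiable ℝ v := hv.differentiable (by simp)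
  have hlip : ∀ x x', ‖v x - v x'‖ ≤ 1 / 2 * ‖x - x'‖ := fun x x' =>
    Convex.norm_image_sub_le_of_norm_fderiv_le (𝕜 := ℝ) (s := Set.univ)
      (fun y _ => hdiff y) (fun y _ => hD y) convex_univ (Set.mem_univ _) (Set.mem_univ _)
  have hlow : ∀ x x', ‖x - x'‖ ≤ 2 * ‖(x + v x) - (x' + v x')‖ := by
    intro x x'
    have h1 : x - x' = ((x + v x) - (x' + v x')) - (v x - v x') := by abel
    have h2 : ‖x - x'‖ ≤ ‖(x + v x) - (x' + v x')‖ + ‖v x - v x'‖ := by
      conv_lhs => rw [h1]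
      exact norm_sub_le _ _
    have h3 := hlip x x'
    linarith
  have hinj : Function.Injective (fun x => x + v x) := by
    intro x x' h
    have h1 := hlow x x'
    simp only at h
    rw [h, sub_self, norm_zero, mul_zero] at h1
    exact sub_eq_zero.1 (norm_le_zero_iff.1 h1)
  have hsurj : Function.Surjective (fun x => x + v x) := by
    intro y
    have hc : ContractingWith (1 / 2) (fun x => y - v x) := by
      refine ⟨?_, ?_⟩
      · rw [← NNReal.coe_lt_coe]
        norm_num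
      · refine LipschitzWith.of_dist_le_mul fun x x' => ?_
        rw [dist_eq_norm, dist_eq_norm, sub_sub_sub_cancel_left, norm_sub_rev]
        have := hlip x x'
        simpa using this
    obtain ⟨z, hz⟩ : ∃ z, y - v z = z := ⟨hc.fixedPoint, hc.fixedPoint_isFixedPt⟩
    exact ⟨z, (sub_eq_iff_eq_add.1 hz).symm⟩
  refine ⟨Equiv.ofBijective _ ⟨hinj, hsurj⟩, fun x => rfl, hlow, fun x hx => ?_⟩
  have hf : HasFDerivAt (fun y => y + v y) (ContinuousLinearMap.id ℝ E3 + fderiv ℝ v x) x :=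
    (hasFDerivAt_id x).add (hdiff x).hasFDerivAt
  have hx' : LinearMap.det ((ContinuousLinearMap.id ℝ E3 + fderiv ℝ v x : E3 →L[ℝ] E3) :
      E3 →ₗ[ℝ] E3) = 0 := by
    have h1 : jac (fun y => y + v y) x = 0 := hx
    unfold jac at h1
    rw [hf.fderiv] at h1
    exact h1
  have hk := LinearMap.bot_lt_ker_of_det_eq_zero hx'
  obtain ⟨w, hw, hw0⟩ := (Submodule.ne_bot_iff _).1 hk.ne'
  apply hw0
  have h2 : w + fderiv ℝ v x w = 0 := hw
  have h3 : w = -(fderiv ℝ v x w) := eq_neg_of_add_eq_zero_left h2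
  have h4 : ‖w‖ ≤ 1 / 2 * ‖w‖ := by
    conv_lhs => rw [h3, norm_neg]
    exact (ContinuousLinearMap.le_opNorm _ _).trans
      (mul_le_mul_of_nonneg_right (hD x) (norm_nonneg _))
  exact norm_le_zero_iff.1 (by linarith)

/-- A1. `F s x = x + h s • u x` with `h` the smooth step (`exists_step`), `F s` from `A1a`.
Joint continuity of the inverse: if `F s x = y` and `F s' x' = y'`, then
`‖x - x'‖ ≤ 2 ‖F s x - F s x'‖ ≤ 2 (‖y - y'‖ + ‖F s' x' - F s x'‖)` and
`‖F s' x' - F s x'‖ ≤ |h s' - h s| ‖u x'‖`, `u` bounded (compact support). Then `symm_smooth`.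
`F s = 1` off `K` for all `s`. -/
theorem A1 (U : Set E3) (hU : IsOpen U) (u : E3 → E3) (hu : ContDiff ℝ smo u)
    (K : Set E3) (hK : IsCompact K) (hKU : K ⊆ U) (h0 : ∀ x, x ∉ K → u x = 0)
    (hD : ∀ x, ‖fderiv ℝ u x‖ ≤ 1 / 2) :
    ∃ f : Equiv.Perm E3, InIso U f ∧ ∀ x, f x = x + u x := by
  obtain ⟨h, hh, h01, hl, hr⟩ := exists_step
  have hud : Differentiable ℝ u := hu.differentiable (by simp)
  have key : ∀ s : ℝ, ∃ f : Equiv.Perm E3, (∀ x, f x = x + h s • u x) ∧
      (∀ x x', ‖x - x'‖ ≤ 2 * ‖f x - f x'‖) ∧ ∀ x, jac (fun y => f y) x ≠ 0 := by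
    intro s
    refine A1a (fun x => h s • u x) (hu.const_smul (h s)) fun x => ?_
    have h1 : fderiv ℝ (fun x => h s • u x) x = h s • fderiv ℝ u x := fderiv_fun_const_smul (hud x) _
    rw [h1, norm_smul, Real.norm_eq_abs, abs_of_nonneg (h01 s).1]
    calc h s * ‖fderiv ℝ u x‖ ≤ 1 * (1 / 2) :=
          mul_le_mul (h01 s).2 (hD x) (norm_nonneg _) zero_le_one
      _ = 1 / 2 := one_mul _
  choose F hF hlow hjac using key
  have hsm : ContDiff ℝ smo (fun p : ℝ × E3 => F p.1 p.2) := by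
    have h1 : (fun p : ℝ × E3 => F p.1 p.2) = fun p : ℝ × E3 => p.2 + h p.1 • u p.2 :=
      funext fun p => hF p.1 p.2
    rw [h1]
    exact ContDiff.add contDiff_snd (ContDiff.smul (hh.comp contDiff_fst) (hu.comp contDiff_snd))
  have hcs : Continuous (fun p : ℝ × E3 => (F p.1).symm p.2) := by
    rw [continuous_iff_continuousAt]
    rintro ⟨s0, y0⟩
    unfold ContinuousAt
    rw [tendsto_iff_norm_sub_tendsto_zero]
    have hc1 : Continuous (fun p : ℝ × E3 => 2 * ‖p.2 - F p.1 ((F s0).symm y0)‖) := by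
      have h2 : Continuous (fun p : ℝ × E3 => F p.1 ((F s0).symm y0)) := by
        have h3 : (fun p : ℝ × E3 => F p.1 ((F s0).symm y0)) =
            (fun p : ℝ × E3 => F p.1 p.2) ∘ fun p : ℝ × E3 => (p.1, (F s0).symm y0) := rfl
        rw [h3]
        exact hsm.continuous.comp (continuous_fst.prodMk continuous_const)
      exact continuous_const.mul (continuous_snd.sub h2).norm
    have hc2 := hc1.tendsto (s0, y0)
    simp only [Equiv.apply_symm_apply, sub_self, norm_zero, mul_zero] at hc2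
    refine squeeze_zero (fun p => norm_nonneg _) (fun p => ?_) hc2
    have h3 := hlow p.1 ((F p.1).symm p.2) ((F s0).symm y0)
    rwa [Equiv.apply_symm_apply] at h3
  refine ⟨F 1, ⟨F, ⟨⟨hsm, symm_smooth F hsm hjac hcs, K, hKU, hK, fun s x hx => ?_⟩,
    fun s hs => ?_, fun s hs => ?_⟩, rfl⟩, fun x => ?_⟩
  · rw [hF, h0 x hx, smul_zero, add_zero]
  · ext1 x
    rw [hF, hl s hs, zero_smul, add_zero]
    rfl
  · ext1 x
    rw [hF, hF, hr s hs, hr 1 le_rfl]
  · rw [hF, hr 1 le_rfl, one_smul]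

end Pool.Agent.QM59
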