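import Mathlib
import Pool.Agent.Lib.MP_decea1_gt_Q0.Defs

/-!
# MP_decea1_gt, block A, module Int: smooth dependence of integrals on parameters (A2.0), Fubini
-/

set_option autoImplicit false

open MeasureTheory Set Filter Topology

namespace Pool.Agent.QM59

variable {H : Type} [NormedAddCommGroup H] [NormedSpace ℝ H]

/-- Integrals against a locally integrable function, over a vector space. -/
private theorem Int_conv {G : Type} [NormedAddCommGroup G] [NormedSpace ℝ G] [MeasurableSpace G]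
    [BorelSpace G] (μ : Measure G) (f : G → ℝ) (hf : LocallyIntegrable f μ)
    (g : H × G → ℝ) (hg : ContDiff ℝ smo g) (K : Set G) (hK : IsCompact K)
    (h0 : ∀ p t, t ∉ K → g (p, t) = 0) :
    ContDiff ℝ smo (fun p : H => ∫ t, f t * g (p, -t) ∂μ) := by
  have h1 := contDiffOn_convolution_right_with_param (𝕜 := ℝ) (n := (⊤ : ℕ∞)) (μ := μ)
    (ContinuousLinearMap.mul ℝ ℝ) (g := fun (p : H) (t : G) => g (p, t)) (s := univ)
    isOpen_univ hK (fun p x _ hx => h0 p x hx) hf hg.contDiffOn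
  rw [univ_prod_univ, contDiffOn_univ] at h1
  have h2 : ContDiff ℝ smo (fun p : H => ((p, (0 : G)) : H × G)) :=
    contDiff_id.prodMk contDiff_const
  have h3 := h1.comp h2
  refine (congrArg (ContDiff ℝ smo) (funext fun p => ?_)).mpr h3
  simp only [Function.comp, convolution_def, ContinuousLinearMap.mul_apply', zero_sub]

/-- Mathlib `contDiffOn_convolution_right_with_param` with `f = 1` (locally integrable),
`s = univ`, evaluated at `(p, 0)`, and `∫ t, g (p, -t) = ∫ t, g (p, t)`. -/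
theorem smooth_int_cpt (g : H × ℝ → ℝ) (hg : ContDiff ℝ smo g) (K : Set ℝ) (hK : IsCompact K)
    (h0 : ∀ p t, t ∉ K → g (p, t) = 0) : ContDiff ℝ smo (fun p : H => ∫ t, g (p, t)) := by
  have h1 := Int_conv volume (fun _ : ℝ => (1 : ℝ)) (locallyIntegrable_const 1) g hg K hK h0
  refine (congrArg (ContDiff ℝ smo) (funext fun p => ?_)).mpr h1
  simp only [one_mul]
  exact (integral_neg_eq_self (fun t => g (p, t)) volume).symm

/-- the same for integrals over `E3`. -/
theorem smooth_int_cpt3 (g : H × E3 → ℝ) (hg : ContDiff ℝ smo g) (K : Set E3)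
    (hK : IsCompact K) (h0 : ∀ p x, x ∉ K → g (p, x) = 0) :
    ContDiff ℝ smo (fun p : H => ∫ x, g (p, x)) := by
  have h1 := Int_conv volume (fun _ : E3 => (1 : ℝ)) (locallyIntegrable_const 1) g hg K hK h0
  refine (congrArg (ContDiff ℝ smo) (funext fun p => ?_)).mpr h1
  simp only [one_mul]
  exact (integral_neg_eq_self (fun t => g (p, t)) volume).symm

/-- A2.0. `∫_0^1 g (p,t) dt` is the convolution of the indicator function of `[-1,0]` (or `[0,1]`)
with `t ↦ χ t * g (p, t)`, `χ` a bump equal to `1` on `[-1,1]`. -/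
theorem smooth_int01 (g : H × ℝ → ℝ) (hg : ContDiff ℝ smo g) :
    ContDiff ℝ smo (fun p : H => ∫ t in (0 : ℝ)..1, g (p, t)) := by
  let χ : ContDiffBump (0 : ℝ) := ⟨1, 2, one_pos, one_lt_two⟩
  have hχ : ContDiff ℝ smo (fun t : ℝ => χ t) := χ.contDiff
  have hχ1 : ∀ t ∈ Icc (-1 : ℝ) 1, χ t = 1 := fun t ht => by
    apply χ.one_of_mem_closedBall
    rw [Metric.mem_closedBall, dist_zero_right, Real.norm_eq_abs, abs_le]
    exact ht
  have hχ0 : ∀ t, t ∉ Metric.closedBall (0 : ℝ) 2 → χ t = 0 := fun t ht => by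
    apply χ.zero_of_le_dist
    rw [Metric.mem_closedBall, not_le] at ht
    exact ht.le
  have hf : LocallyIntegrable ((Icc (-1 : ℝ) 0).indicator fun _ => (1 : ℝ)) volume :=
    (locallyIntegrable_const (1 : ℝ)).indicator measurableSet_Icc
  have h1 := Int_conv volume _ hf (fun q : H × ℝ => χ q.2 * g q)
    ((hχ.comp contDiff_snd).mul hg) (Metric.closedBall (0 : ℝ) 2) (isCompact_closedBall _ _)
    (fun p t ht => by simp only [hχ0 t ht, zero_mul])
  refine (congrArg (ContDiff ℝ smo) (funext fun p => ?_)).mpr h1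
  have e1 : ∀ t : ℝ, (Icc (-1 : ℝ) 0).indicator (fun _ => (1 : ℝ)) t * (χ (-t) * g (p, -t)) =
      (fun u : ℝ => (Icc (0 : ℝ) 1).indicator (fun u => g (p, u)) u) (-t) := by
    intro t
    by_cases ht : t ∈ Icc (-1 : ℝ) 0
    · have h2 : -t ∈ Icc (0 : ℝ) 1 := ⟨by linarith [ht.2], by linarith [ht.1]⟩
      have h3 : -t ∈ Icc (-1 : ℝ) 1 := ⟨by linarith [ht.2], by linarith [ht.1]⟩
      simp only [indicator_of_mem ht, indicator_of_mem h2, hχ1 _ h3, one_mul]
    · have h2 : -t ∉ Icc (0 : ℝ) 1 := fun h => ht ⟨by linarith [h.2], by linarith [h.1]⟩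
      simp only [indicator_of_notMem ht, indicator_of_notMem h2, zero_mul]
  simp only [e1]
  rw [integral_neg_eq_self (fun u : ℝ => (Icc (0 : ℝ) 1).indicator (fun u => g (p, u)) u) volume,
    integral_indicator measurableSet_Icc, intervalIntegral.integral_of_le zero_le_one,
    integral_Icc_eq_integral_Ioc]

/-- `∫_a^r g (p,t) dt = (r - a) ∫_0^1 g (p, a + (r - a) u) du`, then `smooth_int01` with the
parameter space `H × ℝ`. -/
theorem smooth_prim (a : ℝ) (g : H × ℝ → ℝ) (hg : ContDiff ℝ smo g) :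
    ContDiff ℝ smo (fun q : H × ℝ => ∫ t in a..q.2, g (q.1, t)) := by
  have h1 : ContDiff ℝ smo fun q : (H × ℝ) × ℝ => g (q.1.1, a + (q.1.2 - a) * q.2) := by
    refine hg.comp ?_
    fun_prop
  have h2 := smooth_int01 _ h1
  have h3 : ContDiff ℝ smo fun p : H × ℝ => (p.2 - a) • ∫ t in (0 : ℝ)..1,
      g (p.1, a + (p.2 - a) * t) := (contDiff_snd.sub contDiff_const).smul h2
  have e : (fun p : H × ℝ => ∫ t in a..p.2, g (p.1, t)) = fun p : H × ℝ => (p.2 - a) •
      ∫ t in (0 : ℝ)..1, g (p.1, a + (p.2 - a) * t) := by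
    funext p
    rw [intervalIntegral.smul_integral_comp_add_mul (fun t => g (p.1, t))]
    simp
  rw [e]
  exact h3

/-- One step of Fubini for `Fin (n + 1) → ℝ`. -/
private theorem Int_step {n : ℕ} (i : Fin (n + 1)) (h : (Fin (n + 1) → ℝ) → ℝ)
    (hh : Integrable h) :
    ∫ y, h y = ∫ t, ∫ z : Fin n → ℝ, h (i.insertNth t z) := by
  have e := volume_preserving_piFinSuccAbove (fun _ : Fin (n + 1) => ℝ) i
  have h1 : ∫ y, h y = ∫ q : ℝ × (Fin n → ℝ), h (i.insertNth q.1 q.2) := by
    have h2 := (e.symm _).integral_comp'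
      (f := (MeasurableEquiv.piFinSuccAbove (fun _ : Fin (n + 1) => ℝ) i).symm) h
    rw [← h2]
    rfl
  rw [h1]
  have h3 : Integrable (fun q : ℝ × (Fin n → ℝ) => h (i.insertNth q.1 q.2)) := by
    have h4 := (e.symm _).integrable_comp_of_integrable hh
    exact h4
  exact integral_prod _ h3

/-- Fubini on `E3 = Fin 3 → ℝ` (`MeasureTheory.volume_preserving_piFinSuccAbove`,
`MeasureTheory.integral_prod`), written with `Function.update`. The value does not depend on
`x`. -/
theorem fubini3 (h : E3 → ℝ) (hh : Continuous h) (K : Set E3) (hK : IsCompact K)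
    (h0 : ∀ x, x ∉ K → h x = 0) (x : E3) :
    ∫ y, h y = ∫ t2, ∫ t1, ∫ t0, h (Function.update (Function.update
      (Function.update x 2 t2) 1 t1) 0 t0) := by
  have hc : HasCompactSupport h := HasCompactSupport.intro hK h0
  rw [Int_step 2 h (hh.integrable_of_hasCompactSupport hc)]
  congr 1
  funext t2
  have c2 : Continuous fun z : Fin 2 → ℝ => (Fin.insertNth 2 t2 z : Fin 3 → ℝ) := by
    fun_prop
  have hc2 : HasCompactSupport fun z : Fin 2 → ℝ => h (Fin.insertNth 2 t2 z) := by
    refine HasCompactSupport.intro (K := (fun y : E3 => (fun i : Fin 2 => y (Fin.succAbove 2 i)))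
      '' K) (hK.image (by fun_prop)) fun z hz => h0 _ fun hk => hz ⟨_, hk, ?_⟩
    funext i
    simp
  have hi : Integrable fun z : Fin 2 → ℝ => h (Fin.insertNth 2 t2 z) :=
    (hh.comp c2).integrable_of_hasCompactSupport hc2
  refine (Int_step (n := 1) 1 (fun z : Fin 2 → ℝ => h (Fin.insertNth 2 t2 z)) hi).trans ?_
  congr 1
  funext t1
  have h5 := (volume_preserving_funUnique (Fin 1) ℝ).symm _ |>.integral_comp'
      (f := (MeasurableEquiv.funUnique (Fin 1) ℝ).symm)
      (fun w : Fin 1 → ℝ => h (Fin.insertNth 2 t2 (Fin.insertNth 1 t1 w : Fin 2 → ℝ)))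
  refine Eq.trans h5.symm ?_
  congr 1
  funext t0
  congr 1
  funext i
  fin_cases i <;> rfl

end Pool.Agent.QM59
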