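import Mathlib
import Pool.Agent.Lib.MP_decea1_gt_A.J2
import Pool.Agent.Lib.MP_decea1_gt_A.Sym
import Pool.Agent.Lib.MP_decea1_gt_A.Int

/-!
# MP_decea1_gt, block A, module A21: one-dimensional rearrangement with parameters (A2.1)
-/

set_option autoImplicit false

open MeasureTheory Set Filter Topology

namespace Pool.Agent.QM59

/-- the map `x ↦ x[i := a + ∫_a^{x_i} J(s, x[i:=t]) dt]` -/
noncomputable def PhiF (i : Fin 3) (a : ℝ) (J : ℝ × E3 → ℝ) (s : ℝ) (x : E3) : E3 :=
  Function.update x i (a + ∫ t in a..x i, J (s, Function.update x i t))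

private theorem upd_smooth (i : Fin 3) :
    ContDiff ℝ smo (fun q : E3 × ℝ => (Function.update q.1 i q.2 : E3)) := by
  rw [contDiff_pi]
  intro j
  by_cases h : j = i
  · subst h
    simp only [Function.update_self]
    exact contDiff_snd
  · simp only [Function.update_of_ne h]
    exact (contDiff_apply ℝ ℝ j).comp contDiff_fst

/-- the new coordinate -/
private noncomputable def Tf (i : Fin 3) (a : ℝ) (J : ℝ × E3 → ℝ) (s : ℝ) (x : E3) (r : ℝ) : ℝ :=
  a + ∫ t in a..r, J (s, Function.update x i t)

private theorem Tf_smooth (i : Fin 3) (a : ℝ) (J : ℝ × E3 → ℝ) (hJ : ContDiff ℝ smo J) :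
    ContDiff ℝ smo (fun q : (ℝ × E3) × ℝ => Tf i a J q.1.1 q.1.2 q.2) := by
  unfold Tf
  refine contDiff_const.add ?_
  refine smooth_prim (H := ℝ × E3) a
    (fun q : (ℝ × E3) × ℝ => J (q.1.1, Function.update q.1.2 i q.2)) ?_
  refine hJ.comp ?_
  refine (contDiff_fst.comp contDiff_fst).prodMk ?_
  exact (upd_smooth i).comp ((contDiff_snd.comp contDiff_fst).prodMk contDiff_snd)

/-- smooth in `(s,x)` by `smooth_prim` (parameter space `ℝ × E3`) and `Function.update x i r` is
smooth in `(x,r)`. -/
theorem PhiF_smooth (i : Fin 3) (a : ℝ) (J : ℝ × E3 → ℝ) (hJ : ContDiff ℝ smo J) :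
    ContDiff ℝ smo (fun p : ℝ × E3 => PhiF i a J p.1 p.2) := by
  have h1 : ContDiff ℝ smo (fun p : ℝ × E3 => Tf i a J p.1 p.2 (p.2 i)) :=
    (Tf_smooth i a J hJ).comp (contDiff_id.prodMk ((contDiff_apply ℝ ℝ i).comp contDiff_snd))
  exact (upd_smooth i).comp (contDiff_snd.prodMk h1)

private theorem Tf_slice_continuous (i : Fin 3) (J : ℝ × E3 → ℝ) (hJ : ContDiff ℝ smo J)
    (s : ℝ) (x : E3) : Continuous (fun t : ℝ => J (s, Function.update x i t)) := by
  refine hJ.continuous.comp (continuous_const.prodMk ?_)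
  exact continuous_const.update i continuous_id

private theorem Tf_hasDerivAt (i : Fin 3) (a : ℝ) (J : ℝ × E3 → ℝ) (hJ : ContDiff ℝ smo J)
    (s : ℝ) (x : E3) (r : ℝ) :
    HasDerivAt (fun r => Tf i a J s x r) (J (s, Function.update x i r)) r := by
  unfold Tf
  have hc := Tf_slice_continuous i J hJ s x
  refine HasDerivAt.const_add a ?_
  exact intervalIntegral.integral_hasDerivAt_right (hc.intervalIntegrable _ _)
    (hc.stronglyMeasurableAtFilter _ _) hc.continuousAt

private theorem Tf_update (i : Fin 3) (a : ℝ) (J : ℝ × E3 → ℝ) (s : ℝ) (x : E3) (r r' : ℝ) :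
    Tf i a J s (Function.update x i r') r = Tf i a J s x r := by
  unfold Tf
  simp only [Function.update_idem]

/-- The derivative in the direction `e_j`, `j ≠ i`, is `e_j + (…) e_i`; in the direction `e_i` it is
`J(s,x) e_i` (fundamental theorem of calculus). So the matrix of the derivative is the identity
except for the row `i`, whose diagonal entry is `J (s,x)`: the determinant is `J (s,x)`
(`Matrix.det_updateRow...`, or expand the 3 × 3 determinant for each `i`). -/
theorem PhiF_jac (i : Fin 3) (a : ℝ) (J : ℝ × E3 → ℝ) (hJ : ContDiff ℝ smo J) (s : ℝ) (x : E3) :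
    jac (fun y => PhiF i a J s y) x = J (s, x) := by
  have hT : ContDiff ℝ smo (fun y : E3 => Tf i a J s y (y i)) :=
    (Tf_smooth i a J hJ).comp ((contDiff_const.prodMk contDiff_id).prodMk (contDiff_apply ℝ ℝ i))
  have hTd : HasFDerivAt (fun y : E3 => Tf i a J s y (y i))
      (fderiv ℝ (fun y : E3 => Tf i a J s y (y i)) x) x :=
    ((hT.differentiable (by simp)) x).hasFDerivAt
  set T' := fderiv ℝ (fun y : E3 => Tf i a J s y (y i)) x with hT'
  have hcomp : ∀ j, HasFDerivAt (fun y : E3 => PhiF i a J s y j)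
      (if j = i then T' else ContinuousLinearMap.proj (R := ℝ) (φ := fun _ : Fin 3 => ℝ) j) x := by
    intro j
    by_cases h : j = i
    · subst h
      simp only [if_true]
      have : (fun y : E3 => PhiF j a J s y j) = fun y : E3 => Tf j a J s y (y j) := by
        funext y
        simp only [PhiF, Function.update_self, Tf]
      rw [this]
      exact hTd
    · rw [if_neg h]
      have : (fun y : E3 => PhiF i a J s y j) = fun y : E3 => y j := by
        funext y
        simp only [PhiF, Function.update_of_ne h]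
      rw [this]
      exact (ContinuousLinearMap.proj (R := ℝ) (φ := fun _ : Fin 3 => ℝ) j).hasFDerivAt
  have hF : HasFDerivAt (fun y : E3 => PhiF i a J s y)
      (ContinuousLinearMap.pi fun j =>
        (if j = i then T' else ContinuousLinearMap.proj (R := ℝ) (φ := fun _ : Fin 3 => ℝ) j)) x :=
    hasFDerivAt_pi.2 hcomp
  have hTi : T' (Pi.single i 1) = J (s, x) := by
    have hcurve : HasDerivAt (fun r : ℝ => Function.update x i r) (Pi.single i (1 : ℝ)) (x i) :=
      hasDerivAt_update x i (x i)
    have hx : Function.update x i (x i) = x := Function.update_eq_self i x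
    have h1 : HasFDerivAt (fun y : E3 => Tf i a J s y (y i)) T' (Function.update x i (x i)) := by
      rw [hx]; exact hTd
    have h2 := h1.comp_hasDerivAt (x i) hcurve
    have h3 : (fun y : E3 => Tf i a J s y (y i)) ∘ (fun r : ℝ => Function.update x i r)
        = fun r => Tf i a J s x r := by
      funext r
      simp only [Function.comp, Function.update_self, Tf_update]
    rw [h3] at h2
    have h4 := Tf_hasDerivAt i a J hJ s x (x i)
    rw [hx] at h4
    exact h2.unique h4
  unfold jac
  rw [hF.fderiv]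
  have hdet : (ContinuousLinearMap.pi fun j =>
        (if j = i then T' else ContinuousLinearMap.proj (R := ℝ)
          (φ := fun _ : Fin 3 => ℝ) j) : E3 →L[ℝ] E3).det = T' (Pi.single i 1) := by
    rw [ContinuousLinearMap.det, ← LinearMap.det_toMatrix', Matrix.det_fin_three]
    fin_cases i <;> simp [LinearMap.toMatrix'_apply]
  rw [hdet, hTi]

private theorem Tf_slope (i : Fin 3) (a : ℝ) (J : ℝ × E3 → ℝ) (hJ : ContDiff ℝ smo J) (ι : ℝ)
    (h1 : ∀ p, ι ≤ J p) (s : ℝ) (x : E3) (r r' : ℝ) (h : r ≤ r') :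
    ι * (r' - r) ≤ Tf i a J s x r' - Tf i a J s x r := by
  have hc := Tf_slice_continuous i J hJ s x
  have h2 : Tf i a J s x r' - Tf i a J s x r
      = ∫ t in r..r', J (s, Function.update x i t) := by
    unfold Tf
    rw [← intervalIntegral.integral_add_adjacent_intervals
      (hc.intervalIntegrable a r) (hc.intervalIntegrable r r')]
    ring
  rw [h2]
  have h3 : ∫ t in r..r', ι = ι * (r' - r) := by
    rw [intervalIntegral.integral_const, smul_eq_mul, mul_comm]
  rw [← h3]
  exact intervalIntegral.integral_mono_on h (by simp) (hc.intervalIntegrable _ _)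
    (fun t _ => h1 _)

private theorem Tf_abs (i : Fin 3) (a : ℝ) (J : ℝ × E3 → ℝ) (hJ : ContDiff ℝ smo J) (ι : ℝ)
    (h1 : ∀ p, ι ≤ J p) (s : ℝ) (x : E3) (r r' : ℝ) :
    ι * |r' - r| ≤ |Tf i a J s x r' - Tf i a J s x r| := by
  rcases le_total r r' with h | h
  · rw [abs_of_nonneg (sub_nonneg.2 h)]
    exact (Tf_slope i a J hJ ι h1 s x r r' h).trans (le_abs_self _)
  · rw [abs_sub_comm r' r, abs_of_nonneg (sub_nonneg.2 h), abs_sub_comm]
    exact (Tf_slope i a J hJ ι h1 s x r' r h).trans (le_abs_self _)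

private theorem Tf_surj (i : Fin 3) (a : ℝ) (J : ℝ × E3 → ℝ) (hJ : ContDiff ℝ smo J) (ι : ℝ)
    (hι : 0 < ι) (h1 : ∀ p, ι ≤ J p) (s : ℝ) (x : E3) (y : ℝ) :
    ∃ r, Tf i a J s x r = y := by
  have hcont : Continuous (fun r => Tf i a J s x r) :=
    continuous_iff_continuousAt.2 fun r => (Tf_hasDerivAt i a J hJ s x r).continuousAt
  have ha : Tf i a J s x a = a := by
    unfold Tf
    simp
  set M := |y - a| / ι with hM
  have hM0 : 0 ≤ M := by positivity
  have hMι : ι * M = |y - a| := by
    rw [hM]; field_simp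
  have hu : y ≤ Tf i a J s x (a + M) := by
    have := Tf_slope i a J hJ ι h1 s x a (a + M) (by linarith)
    rw [ha, show a + M - a = M by ring, hMι] at this
    linarith [le_abs_self (y - a)]
  have hl : Tf i a J s x (a - M) ≤ y := by
    have := Tf_slope i a J hJ ι h1 s x (a - M) a (by linarith)
    rw [ha, show a - (a - M) = M by ring, hMι] at this
    linarith [neg_abs_le (y - a)]
  obtain ⟨r, _, hr⟩ := intermediate_value_Icc (show a - M ≤ a + M by linarith)
    hcont.continuousOn ⟨hl, hu⟩
  exact ⟨r, hr⟩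

/-- A2.1. For fixed `s` and fixed other coordinates, `T r = a + ∫_a^r J` is smooth with derivative
`≥ ι`, so strictly increasing and onto: `PhiF` is a bijection. Continuity of the inverse:
`ι |r - r'| ≤ |T r - T r'|`; if `(s_n,y_n) → (s,y)` and `x = PhiF⁻¹(s,y)`, `x_n = PhiF⁻¹(s_n,y_n)`,
then `x_n` and `y_n` agree off the coordinate `i`, and with `T_n` the function belonging to
`(s_n,y_n)`: `ι |x_n i - x i| ≤ |T_n (x_n i) - T_n (x i)| = |y_n i - T_n (x i)| → |y i - T (x i)| = 0`.
Then `symm_smooth` (with `PhiF_jac`, `J ≥ ι > 0`). -/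
theorem A21 (i : Fin 3) (a : ℝ) (J : ℝ × E3 → ℝ) (hJ : ContDiff ℝ smo J) (ι : ℝ) (hι : 0 < ι)
    (h1 : ∀ p, ι ≤ J p) :
    ∃ Φ : ℝ → Equiv.Perm E3, (∀ s x, Φ s x = PhiF i a J s x) ∧
      ContDiff ℝ smo (fun p : ℝ × E3 => Φ p.1 p.2) ∧
      ContDiff ℝ smo (fun p : ℝ × E3 => (Φ p.1).symm p.2) ∧
      ∀ s x, jac (fun y => Φ s y) x = J (s, x) := by
  choose R hR using fun (s : ℝ) (x : E3) => Tf_surj i a J hJ ι hι h1 s x (x i)
  have hP : ∀ s x, PhiF i a J s x = Function.update x i (Tf i a J s x (x i)) := fun s x => rfl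
  have hinj : ∀ s (x : E3) r r', Tf i a J s x r = Tf i a J s x r' → r = r' := by
    intro s x r r' h
    have := Tf_abs i a J hJ ι h1 s x r r'
    rw [h, sub_self, abs_zero] at this
    have h2 : |r' - r| ≤ 0 := by
      by_contra hc
      have := mul_pos hι (not_le.1 hc)
      linarith
    have h3 : r' - r = 0 := abs_eq_zero.1 (le_antisymm h2 (abs_nonneg _))
    linarith
  let Φ : ℝ → Equiv.Perm E3 := fun s =>
    { toFun := fun x => PhiF i a J s x
      invFun := fun y => Function.update y i (R s y)
      left_inv := by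
        intro x
        have h2 : R s (PhiF i a J s x) = x i := by
          apply hinj s x
          have h3 := hR s (PhiF i a J s x)
          rw [hP, Function.update_self, Tf_update] at h3
          rw [hP]
          exact h3
        show Function.update (PhiF i a J s x) i (R s (PhiF i a J s x)) = x
        rw [h2, hP, Function.update_idem, Function.update_eq_self]
      right_inv := by
        intro y
        show PhiF i a J s (Function.update y i (R s y)) = y
        rw [hP, Function.update_self, Tf_update, Function.update_idem, hR,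
          Function.update_eq_self] }
  have hΦ : ∀ s x, Φ s x = PhiF i a J s x := fun s x => rfl
  have hΦs : ∀ s y, (Φ s).symm y = Function.update y i (R s y) := fun s y => rfl
  have hjac : ∀ s x, jac (fun y => Φ s y) x = J (s, x) := fun s x => PhiF_jac i a J hJ s x
  have hsm : ContDiff ℝ smo (fun p : ℝ × E3 => Φ p.1 p.2) := PhiF_smooth i a J hJ
  have hRc : Continuous (fun p : ℝ × E3 => R p.1 p.2) := by
    rw [continuous_iff_continuousAt]
    intro p0
    have hlim : Tendsto (fun p : ℝ × E3 => |p.2 i - Tf i a J p.1 p.2 (R p0.1 p0.2)| / ι)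
        (𝓝 p0) (𝓝 0) := by
      have hc : Continuous (fun p : ℝ × E3 =>
          |p.2 i - Tf i a J p.1 p.2 (R p0.1 p0.2)| / ι) := by
        have hT : Continuous (fun p : ℝ × E3 => Tf i a J p.1 p.2 (R p0.1 p0.2)) :=
          (Tf_smooth i a J hJ).continuous.comp (continuous_id.prodMk continuous_const)
        exact (((continuous_apply i).comp continuous_snd).sub hT).abs.div_const ι
      have h2 := hc.tendsto p0
      have h3 : |p0.2 i - Tf i a J p0.1 p0.2 (R p0.1 p0.2)| / ι = 0 := by
        rw [hR]; simp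
      rw [h3] at h2
      exact h2
    have hb : ∀ p : ℝ × E3, |R p.1 p.2 - R p0.1 p0.2|
        ≤ |p.2 i - Tf i a J p.1 p.2 (R p0.1 p0.2)| / ι := by
      intro p
      rw [le_div_iff₀ hι, mul_comm]
      have := Tf_abs i a J hJ ι h1 p.1 p.2 (R p0.1 p0.2) (R p.1 p.2)
      rwa [hR] at this
    rw [ContinuousAt, tendsto_iff_norm_sub_tendsto_zero]
    exact squeeze_zero (fun p => norm_nonneg _) (fun p => by
      rw [Real.norm_eq_abs]; exact hb p) hlim
  have hinv : Continuous (fun p : ℝ × E3 => (Φ p.1).symm p.2) := by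
    have : (fun p : ℝ × E3 => (Φ p.1).symm p.2)
        = fun p : ℝ × E3 => Function.update p.2 i (R p.1 p.2) := by
      funext p
      exact hΦs p.1 p.2
    rw [this]
    exact continuous_snd.update i hRc
  refine ⟨Φ, hΦ, hsm, ?_, hjac⟩
  refine symm_smooth Φ hsm (fun s x => ?_) hinv
  rw [hjac]
  exact (lt_of_lt_of_le hι (h1 _)).ne'

end Pool.Agent.QM59
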