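import Mathlib
import Pool.Agent.Lib.MP_decea1_gt_A.A21
import Pool.Agent.Lib.MP_decea1_gt_A.Iso1
import Pool.Agent.Lib.MP_decea1_gt_A.Bump

/-!
# MP_decea1_gt, block A, module A22: rearrangement in one direction (A2.2)
-/

set_option autoImplicit false

open MeasureTheory Set Filter Topology

namespace Pool.Agent.QM59

private theorem A22_slice (i : Fin 3) (J : ℝ × E3 → ℝ) (hJ : ContDiff ℝ smo J) (s : ℝ) (x : E3) :
    Continuous (fun t : ℝ => J (s, Function.update x i t)) :=
  hJ.continuous.comp (continuous_const.prodMk (continuous_const.update i continuous_id))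

private theorem A22_at {F : ℝ → Equiv.Perm E3}
    (hF : ContDiff ℝ smo (fun p : ℝ × E3 => F p.1 p.2)) (s : ℝ) :
    Differentiable ℝ (fun y : E3 => F s y) := by
  have h : ContDiff ℝ smo (fun y : E3 => F s y) :=
    hF.comp (contDiff_const.prodMk contDiff_id)
  exact h.differentiable (by simp)

/-- the two maps agree off the small box -/
private theorem A22_key (i : Fin 3) (a b a' b' : E3) (h1 : ∀ j, a j < a' j)
    (h3 : ∀ j, b' j < b j) (J J' : ℝ × E3 → ℝ) (hJ : ContDiff ℝ smo J)
    (hJ' : ContDiff ℝ smo J')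
    (hoff : ∀ s x, x ∉ Icc a' b' → J (s, x) = J' (s, x))
    (hint : ∀ s x, ∫ t in a i..b i, J (s, Function.update x i t) =
      ∫ t in a i..b i, J' (s, Function.update x i t)) (s : ℝ) (x : E3) (hx : x ∉ Icc a' b') :
    PhiF i (a i) J s x = PhiF i (a i) J' s x := by
  have h : ∫ t in a i..x i, J (s, Function.update x i t) =
      ∫ t in a i..x i, J' (s, Function.update x i t) := by
    have hex : ∃ j, x j < a' j ∨ b' j < x j := by
      by_contra hcon
      push Not at hcon
      exact hx ⟨fun j => (hcon j).1, fun j => (hcon j).2⟩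
    obtain ⟨j, hj⟩ := hex
    by_cases hji : j = i
    · subst hji
      rcases hj with hj | hj
      · refine intervalIntegral.integral_congr fun t ht => hoff s _ fun hmem => ?_
        have h4 := hmem.1 j
        rw [Function.update_self] at h4
        have h5 : t ≤ max (a j) (x j) := ht.2
        have h6 : max (a j) (x j) < a' j := max_lt (h1 j) hj
        linarith
      · have hI := (A22_slice j J hJ s x).intervalIntegrable (μ := volume)
        have hI' := (A22_slice j J' hJ' s x).intervalIntegrable (μ := volume)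
        rw [← intervalIntegral.integral_add_adjacent_intervals (hI (a j) (b j)) (hI (b j) (x j)),
          ← intervalIntegral.integral_add_adjacent_intervals (hI' (a j) (b j))
            (hI' (b j) (x j)), hint s x]
        congr 1
        refine intervalIntegral.integral_congr fun t ht => hoff s _ fun hmem => ?_
        have h4 := hmem.2 j
        rw [Function.update_self] at h4
        have h5 : min (b j) (x j) ≤ t := ht.1
        have h6 : b' j < min (b j) (x j) := lt_min (h3 j) hj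
        linarith
    · refine intervalIntegral.integral_congr fun t _ => hoff s _ fun hmem => ?_
      rcases hj with hj | hj
      · have h4 := hmem.1 j
        rw [Function.update_of_ne hji] at h4
        linarith
      · have h4 := hmem.2 j
        rw [Function.update_of_ne hji] at h4
        linarith
  unfold PhiF
  rw [h]

/-- A2.2. `m s := (Φ_J s)⁻¹ * Φ_{J'} s` with `Φ` from `A21` with the base point `a := a i`.
Chain rule for `Φ_J s ∘ m s = Φ_{J'} s`: `J (s, m s x) * jac (m s) x = J' (s,x)`.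
`m s = 1` off `Icc a' b'`: let `x ∉ Icc a' b'`; it suffices that `Φ_J s x = Φ_{J'} s x`, i.e.
`∫_{a i}^{x i} J = ∫_{a i}^{x i} J'` along the line. If some coordinate `x j`, `j ≠ i`, is not in
`[a' j, b' j]`, then `J = J'` on the whole line; if `x i < a' i`, then `J = J'` between `a i` and
`x i`; if `b' i < x i`, then `∫_{a i}^{x i} = ∫_{a i}^{b i} + ∫_{b i}^{x i}`, the first integrals agree by
`hint`, and `J = J'` between `b i` and `x i` (both are `> b' i`).
`m s = 1` if `J(s,·) = J'(s,·)`, because then `Φ_J s = Φ_{J'} s`. -/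
theorem A22 (i : Fin 3) (a b a' b' : E3) (h1 : ∀ j, a j < a' j) (h2 : ∀ j, a' j < b' j)
    (h3 : ∀ j, b' j < b j) (J J' : ℝ × E3 → ℝ) (hJ : ContDiff ℝ smo J)
    (hJ' : ContDiff ℝ smo J') (ι : ℝ) (hι : 0 < ι) (hJ1 : ∀ p, ι ≤ J p) (hJ2 : ∀ p, ι ≤ J' p)
    (hoff : ∀ s x, x ∉ Icc a' b' → J (s, x) = J' (s, x))
    (hint : ∀ s x, ∫ t in a i..b i, J (s, Function.update x i t) =
      ∫ t in a i..b i, J' (s, Function.update x i t)) :
    ∃ m : ℝ → Equiv.Perm E3, Fam (Box a b) m ∧ (∀ s, IdOff (Icc a' b') (m s)) ∧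
      (∀ s x, J (s, m s x) * jac (fun y => m s y) x = J' (s, x)) ∧
      ∀ s, (∀ x, J (s, x) = J' (s, x)) → m s = 1 := by
  obtain ⟨Φ, hΦ, hsm, hinv, hjac⟩ := A21 i (a i) J hJ ι hι hJ1
  obtain ⟨Ψ, hΨ, hsm', hinv', hjac'⟩ := A21 i (a i) J' hJ' ι hι hJ2
  have key : ∀ s x, x ∉ Icc a' b' → Φ s x = Ψ s x := fun s x hx => by
    rw [hΦ, hΨ]
    exact A22_key i a b a' b' h1 h3 J J' hJ hJ' hoff hint s x hx
  have hoffm : ∀ s, IdOff (Icc a' b') ((Φ s)⁻¹ * Ψ s) := by
    intro s x hx
    change (Φ s).symm (Ψ s x) = x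
    rw [← key s x hx]
    exact (Φ s).symm_apply_apply x
  have hm : ContDiff ℝ smo (fun p : ℝ × E3 => ((Φ p.1)⁻¹ * Ψ p.1) p.2) :=
    hinv.comp (contDiff_fst.prodMk hsm')
  have hmi : ContDiff ℝ smo (fun p : ℝ × E3 => ((Φ p.1)⁻¹ * Ψ p.1).symm p.2) :=
    hinv'.comp (contDiff_fst.prodMk hsm)
  refine ⟨fun s => (Φ s)⁻¹ * Ψ s, ⟨hm, hmi, Icc a' b', Icc_subset_Box a b a' b' h1 h3,
    isCompact_Icc, hoffm⟩, hoffm, fun s x => ?_, fun s hs => ?_⟩
  · have hd1 := A22_at hsm s
    have hd2 : Differentiable ℝ (fun y : E3 => ((Φ s)⁻¹ * Ψ s) y) :=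
      A22_at (F := fun s => (Φ s)⁻¹ * Ψ s) hm s
    have hc := jac_comp (fun y => Φ s y) (fun y => ((Φ s)⁻¹ * Ψ s) y) x (hd1 _) (hd2 x)
    have he : (fun y => Φ s (((Φ s)⁻¹ * Ψ s) y)) = fun y => Ψ s y := by
      funext y
      exact (Φ s).apply_symm_apply (Ψ s y)
    have hc' : jac (fun y => Ψ s y) x =
        jac (fun y => Φ s y) (((Φ s)⁻¹ * Ψ s) x) * jac (fun y => ((Φ s)⁻¹ * Ψ s) y) x := by
      rw [← he]
      exact hc
    rw [hjac', hjac] at hc'
    exact hc'.symm
  · have he : Φ s = Ψ s := by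
      ext1 x
      rw [hΦ, hΨ]
      simp only [PhiF, hs]
    change (Φ s)⁻¹ * Ψ s = 1
    rw [he]
    exact inv_mul_cancel _

end Pool.Agent.QM59
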