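import Mathlib
import Pool.Agent.Lib.MP_decea1_gt_A.Int

/-!
# MP_decea1_gt, block A, module Iln: integrals along coordinate lines
-/

set_option autoImplicit false

open MeasureTheory Set Filter Topology

namespace Pool.Agent.QM59

/-- integral along the line in the direction `i` (the value does not depend on `x i`) -/
noncomputable def Iln (i : Fin 3) (h : ℝ × E3 → ℝ) (p : ℝ × E3) : ℝ :=
  ∫ t, h (p.1, Function.update p.2 i t)

/-- `smooth_int_cpt` with the compact set `Icc (a' i) (b' i)`. -/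
theorem Iln_smooth (i : Fin 3) (a' b' : E3) (h : ℝ × E3 → ℝ) (hh : ContDiff ℝ smo h)
    (h0 : ∀ s x, x ∉ Icc a' b' → h (s, x) = 0) : ContDiff ℝ smo (Iln i h) := by
  have hu : ContDiff ℝ smo (fun q : (ℝ × E3) × ℝ => Function.update q.1.2 i q.2) := by
    refine contDiff_pi.2 fun j => ?_
    by_cases hj : j = i
    · subst hj
      simpa only [Function.update_self] using contDiff_snd
    · simp only [Function.update_of_ne hj]
      exact (contDiff_apply ℝ ℝ j).comp (contDiff_snd.comp contDiff_fst)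
  refine smooth_int_cpt (H := ℝ × E3)
    (fun q : (ℝ × E3) × ℝ => h (q.1.1, Function.update q.1.2 i q.2)) ?_
    (Icc (a' i) (b' i)) isCompact_Icc ?_
  · exact hh.comp ((contDiff_fst.comp contDiff_fst).prodMk hu)
  · intro p t ht
    refine h0 _ _ fun hx => ht ?_
    have h1 := hx.1 i
    have h2 := hx.2 i
    rw [Function.update_self] at h1 h2
    exact ⟨h1, h2⟩

/-- `Iln i h (s,x) = 0` if some coordinate `x j`, `j ≠ i`, is outside `[a' j, b' j]`. -/
theorem Iln_zero (i : Fin 3) (a' b' : E3) (h : ℝ × E3 → ℝ)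
    (h0 : ∀ s x, x ∉ Icc a' b' → h (s, x) = 0) (s : ℝ) (x : E3) (j : Fin 3) (hj : j ≠ i)
    (hx : x j ∉ Icc (a' j) (b' j)) : Iln i h (s, x) = 0 := by
  have h1 : ∀ t, h (s, Function.update x i t) = 0 := by
    intro t
    refine h0 _ _ fun h2 => hx ?_
    have h3 := h2.1 j
    have h4 := h2.2 j
    rw [Function.update_of_ne hj] at h3 h4
    exact ⟨h3, h4⟩
  simp only [Iln, h1, integral_zero]

theorem Iln_update (i : Fin 3) (h : ℝ × E3 → ℝ) (s : ℝ) (x : E3) (t : ℝ) :
    Iln i h (s, Function.update x i t) = Iln i h (s, x) := by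
  simp only [Iln, Function.update_idem]

theorem Iln_bound (i : Fin 3) (a' b' : E3) (hab : ∀ j, a' j < b' j) (h : ℝ × E3 → ℝ)
    (h0 : ∀ s x, x ∉ Icc a' b' → h (s, x) = 0) (C : ℝ) (hC : ∀ p, |h p| ≤ C) (p : ℝ × E3) :
    |Iln i h p| ≤ C * (b' i - a' i) := by
  have h1 : ∫ t in Icc (a' i) (b' i), h (p.1, Function.update p.2 i t) = Iln i h p := by
    refine setIntegral_eq_integral_of_forall_compl_eq_zero fun t ht => ?_
    refine h0 _ _ fun hx => ht ?_
    have h1 := hx.1 i
    have h2 := hx.2 i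
    rw [Function.update_self] at h1 h2
    exact ⟨h1, h2⟩
  have h2 := norm_setIntegral_le_of_norm_le_const (μ := volume) (s := Icc (a' i) (b' i))
    (f := fun t => h (p.1, Function.update p.2 i t)) (C := C) measure_Icc_lt_top
    (fun t _ => hC _)
  rw [h1, Real.norm_eq_abs, Real.volume_real_Icc_of_le (hab i).le] at h2
  exact h2

end Pool.Agent.QM59
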