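import Mathlib
import Pool.Agent.Lib.MP_decea1_gt_A.Iso1

/-!
# MP_decea1_gt, block A, module Stp: the transport relation is a preorder
-/

set_option autoImplicit false

open MeasureTheory Set Filter Topology

namespace Pool.Agent.QM59

/-- `J` can be transported to `J'` by a family in `U` which is `1` for the parameters in `S` -/
def Stp (U : Set E3) (S : Set ℝ) (J J' : ℝ × E3 → ℝ) : Prop :=
  ∃ m : ℝ → Equiv.Perm E3, Fam U m ∧
    (∀ s x, J (s, m s x) * jac (fun y => m s y) x = J' (s, x)) ∧ ∀ s ∈ S, m s = 1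

/-- nonparametric version -/
def Stp0 (U : Set E3) (J J' : E3 → ℝ) : Prop :=
  ∃ m : Equiv.Perm E3, InIso U m ∧ ∀ x, J (m x) * jac (fun y => m y) x = J' x

theorem Stp.refl (U : Set E3) (S : Set ℝ) (J : ℝ × E3 → ℝ) : Stp U S J J := by
  refine ⟨fun _ => 1, Fam.one U, fun s x => ?_, fun _ _ => rfl⟩
  simp only [Equiv.Perm.one_apply, jac_id, mul_one]

/-- if `J(m) det Dm = J1` and `J1(m') det Dm' = J2`, then `J(m m') det D(m m') = J2`. -/
theorem Stp.trans {U : Set E3} {S : Set ℝ} {J J1 J2 : ℝ × E3 → ℝ} (h1 : Stp U S J J1)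
    (h2 : Stp U S J1 J2) : Stp U S J J2 := by
  obtain ⟨m, hm, hJ, hS⟩ := h1
  obtain ⟨m', hm', hJ', hS'⟩ := h2
  refine ⟨fun s => m s * m' s, hm.mul hm', fun s x => ?_, fun s hs => ?_⟩
  · have h := IsDif.jac_mul (hm.isDif s) (hm'.isDif s) x
    rw [h, ← mul_assoc, Equiv.Perm.mul_apply, hJ s (m' s x), hJ' s x]
  · simp only [hS s hs, hS' s hs, mul_one]

theorem Stp.mono {U V : Set E3} {S T : Set ℝ} {J J1 : ℝ × E3 → ℝ} (h : Stp U S J J1)
    (hUV : U ⊆ V) (hTS : T ⊆ S) : Stp V T J J1 := by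
  obtain ⟨m, hm, hJ, hS⟩ := h
  exact ⟨m, hm.mono hUV, hJ, fun s hs => hS s (hTS hs)⟩

theorem Stp0.refl (U : Set E3) (J : E3 → ℝ) : Stp0 U J J := by
  refine ⟨1, InIso.one U, fun x => ?_⟩
  simp only [Equiv.Perm.one_apply, jac_id, mul_one]

theorem Stp0.trans {U : Set E3} {J J1 J2 : E3 → ℝ} (h1 : Stp0 U J J1)
    (h2 : Stp0 U J1 J2) : Stp0 U J J2 := by
  obtain ⟨m, hm, hJ⟩ := h1
  obtain ⟨m', hm', hJ'⟩ := h2
  refine ⟨m * m', hm.mul hm', fun x => ?_⟩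
  have h := IsDif.jac_mul hm.isDif hm'.isDif x
  rw [h, ← mul_assoc, Equiv.Perm.mul_apply, hJ (m' x), hJ' x]

theorem Stp0.mono {U V : Set E3} {J J1 : E3 → ℝ} (h : Stp0 U J J1)
    (hUV : U ⊆ V) : Stp0 V J J1 := by
  obtain ⟨m, hm, hJ⟩ := h
  exact ⟨m, hm.mono hUV, hJ⟩

end Pool.Agent.QM59
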