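import Mathlib
import Pool.Agent.Lib.MP_decea1_gt_A.A22
import Pool.Agent.Lib.MP_decea1_gt_A.Stp
import Pool.Agent.Lib.MP_decea1_gt_A.Iln

/-!
# MP_decea1_gt, block A, module A23: the small step in a box (A2.3)
-/

set_option autoImplicit false

open MeasureTheory Set Filter Topology

namespace Pool.Agent.QM59

section aux23

variable {a b a' b' : E3}

private theorem a23_upd (i : Fin 3) (x : E3) (t : ℝ) (ht : t ∉ Icc (a' i) (b' i)) :
    Function.update x i t ∉ Icc a' b' := fun h => by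
  have h1 := h.1 i
  have h2 := h.2 i
  rw [Function.update_self] at h1 h2
  exact ht ⟨h1, h2⟩

private theorem a23_not (x : E3) (hx : x ∉ Icc a' b') : ∃ j, x j ∉ Icc (a' j) (b' j) := by
  by_contra hcon
  push Not at hcon
  exact hx ⟨fun j => (hcon j).1, fun j => (hcon j).2⟩

/-- the integral over the interval is the integral over the line -/
private theorem a23_line (h1 : ∀ j, a j < a' j) (h2 : ∀ j, a' j < b' j) (h3 : ∀ j, b' j < b j)
    (i : Fin 3) (g : ℝ × E3 → ℝ) (hg : ∀ s x, x ∉ Icc a' b' → g (s, x) = 0) (s : ℝ) (x : E3) :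
    ∫ t in a i..b i, g (s, Function.update x i t) = Iln i g (s, x) := by
  rw [intervalIntegral.integral_of_le ((h1 i).le.trans ((h2 i).le.trans (h3 i).le))]
  refine setIntegral_eq_integral_of_forall_compl_eq_zero fun t ht => ?_
  refine hg _ _ (a23_upd i x t fun hh => ht ⟨(h1 i).trans_le hh.1, hh.2.trans (h3 i).le⟩)

private theorem a23_int (i : Fin 3) (g : ℝ × E3 → ℝ) (hc : Continuous g)
    (hg : ∀ s x, x ∉ Icc a' b' → g (s, x) = 0) (s : ℝ) (x : E3) :
    Integrable (fun t : ℝ => g (s, Function.update x i t)) := by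
  have h1 : Continuous (fun t : ℝ => g (s, Function.update x i t)) :=
    hc.comp (continuous_const.prodMk (continuous_const.update i continuous_id))
  refine h1.integrable_of_hasCompactSupport
    (HasCompactSupport.intro (isCompact_Icc : IsCompact (Icc (a' i) (b' i))) fun t ht => ?_)
  exact hg _ _ (a23_upd i x t ht)

/-- one step: `A22` in the direction `i` -/
private theorem a23_step (h1 : ∀ j, a j < a' j) (h2 : ∀ j, a' j < b' j) (h3 : ∀ j, b' j < b j)
    (i : Fin 3) (J g : ℝ × E3 → ℝ) (ι : ℝ) (hJ : ContDiff ℝ smo J) (hg : ContDiff ℝ smo g)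
    (hι : 0 < ι) (hJ1 : ∀ p, ι ≤ J p) (hJ2 : ∀ p, ι ≤ J p + g p)
    (hg0 : ∀ s x, x ∉ Icc a' b' → g (s, x) = 0) (hI : ∀ s x, Iln i g (s, x) = 0) :
    Stp (Box a b) {s | ∀ x, g (s, x) = 0} J (fun p => J p + g p) := by
  obtain ⟨m, hm, _, hm2, hm3⟩ := A22 i a b a' b' h1 h2 h3 J (fun p => J p + g p) hJ
    (hJ.add hg) ι hι hJ1 hJ2 (fun s x hx => by rw [hg0 s x hx, add_zero]) (fun s x => by
      have hu : Continuous (fun t : ℝ => (s, Function.update x i t)) :=
        continuous_const.prodMk (continuous_const.update i continuous_id)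
      have hJc : Continuous (fun t : ℝ => J (s, Function.update x i t)) := hJ.continuous.comp hu
      have hgc : Continuous (fun t : ℝ => g (s, Function.update x i t)) := hg.continuous.comp hu
      rw [intervalIntegral.integral_add (hJc.intervalIntegrable _ _)
        (hgc.intervalIntegrable _ _), a23_line h1 h2 h3 i g hg0 s x, hI, add_zero])
  exact ⟨m, hm, hm2, fun s hs => hm3 s fun x => by rw [hs x, add_zero]⟩

/-- multiplication of the line integral by a bump -/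
private noncomputable def a23_G (i : Fin 3) (η : ℝ → ℝ) (g : ℝ × E3 → ℝ) (p : ℝ × E3) : ℝ :=
  η (p.2 i) * Iln i g p

private theorem a23_G_smooth (i : Fin 3) (η : ℝ → ℝ) (hη : ContDiff ℝ smo η)
    (g : ℝ × E3 → ℝ) (hg : ContDiff ℝ smo g) (hg0 : ∀ s x, x ∉ Icc a' b' → g (s, x) = 0) :
    ContDiff ℝ smo (a23_G i η g) :=
  (hη.comp ((contDiff_apply ℝ ℝ i).comp contDiff_snd)).mul (Iln_smooth i a' b' g hg hg0)

private theorem a23_G_zero (i : Fin 3) (η : ℝ → ℝ) (hη : ∀ t, t ∉ Ioo (a' i) (b' i) → η t = 0)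
    (g : ℝ × E3 → ℝ) (hg0 : ∀ s x, x ∉ Icc a' b' → g (s, x) = 0) (s : ℝ) (x : E3)
    (hx : x ∉ Icc a' b') : a23_G i η g (s, x) = 0 := by
  obtain ⟨j, hj⟩ := a23_not x hx
  unfold a23_G
  by_cases hji : j = i
  · subst hji
    have h1 : η (x j) = 0 := hη _ fun hh => hj ⟨hh.1.le, hh.2.le⟩
    change η (x j) * _ = 0
    rw [h1, zero_mul]
  · rw [Iln_zero i a' b' g hg0 s x j hji hj, mul_zero]

private theorem a23_G_Iln (i : Fin 3) (η : ℝ → ℝ) (hη : ∫ t, η t = 1) (g : ℝ × E3 → ℝ)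
    (s : ℝ) (x : E3) : Iln i (a23_G i η g) (s, x) = Iln i g (s, x) := by
  have h1 : Iln i (a23_G i η g) (s, x) = ∫ t, η t * Iln i g (s, x) := by
    change ∫ t, a23_G i η g (s, Function.update x i t) = _
    refine integral_congr_ae (Filter.Eventually.of_forall fun t => ?_)
    change η (Function.update x i t i) * Iln i g (s, Function.update x i t) =
      η t * Iln i g (s, x)
    rw [Function.update_self, Iln_update]
  rw [h1, integral_mul_const, hη, one_mul]

/-- the difference has vanishing line integrals -/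
private theorem a23_diff (i : Fin 3) (η : ℝ → ℝ) (hη : ContDiff ℝ smo η)
    (hη0 : ∀ t, t ∉ Ioo (a' i) (b' i) → η t = 0) (hη1 : ∫ t, η t = 1) (g : ℝ × E3 → ℝ)
    (hg : ContDiff ℝ smo g) (hg0 : ∀ s x, x ∉ Icc a' b' → g (s, x) = 0) (s : ℝ) (x : E3) :
    Iln i (fun p => g p - a23_G i η g p) (s, x) = 0 := by
  have h1 : Iln i (fun p => g p - a23_G i η g p) (s, x) =
      Iln i g (s, x) - Iln i (a23_G i η g) (s, x) :=
    integral_sub (a23_int i g hg.continuous hg0 s x)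
      (a23_int i (a23_G i η g) (a23_G_smooth i η hη g hg hg0).continuous
        (a23_G_zero i η hη0 g hg0) s x)
  rw [h1, a23_G_Iln i η hη1, sub_self]

private theorem a23_G_bound (h2 : ∀ j, a' j < b' j) (i : Fin 3) (η : ℝ → ℝ) (M : ℝ)
    (hM : ∀ t, |η t| ≤ M) (g : ℝ × E3 → ℝ) (hg0 : ∀ s x, x ∉ Icc a' b' → g (s, x) = 0) (C : ℝ)
    (hC : ∀ p, |g p| ≤ C) (p : ℝ × E3) : |a23_G i η g p| ≤ M * (C * (b' i - a' i)) := by
  unfold a23_G
  rw [abs_mul]
  exact mul_le_mul (hM _) (Iln_bound i a' b' h2 g hg0 C hC p) (abs_nonneg _)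
    ((abs_nonneg _).trans (hM 0))

private theorem a23_zero (i : Fin 3) (η : ℝ → ℝ) (g : ℝ × E3 → ℝ) (s : ℝ)
    (hs : ∀ x, g (s, x) = 0) (x : E3) : a23_G i η g (s, x) = 0 := by
  have h1 : Iln i g (s, x) = 0 := by
    change ∫ t, g (s, Function.update x i t) = 0
    simp only [hs, integral_zero]
  unfold a23_G
  rw [h1, mul_zero]

end aux23

/-- A2.3 (small step). `η j` one-dimensional bumps in `(a' j, b' j)` with integral one
(`exists_bump1`). With `I0 h = Iln 0 h` and `I1 I0 h = Iln 1 (Iln 0 h)`: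
`J1 = J + h - η0(x0) I0 h`, `J2 = J + h - η0(x0) η1(x1) I1 I0 h`, `J3 = J + h`. All are `≥ ι/2` if
`|h| ≤ c ι`, `c` small (depending on the box and the `η j` only).
`J → J1`: `A22` in the direction `0`: for every `x`, `∫ t in a 0..b 0, (h - η0(t) I0 h)` along the
line is `I0 h - I0 h = 0` (the integrand is supported in `[a' 0, b' 0] ⊂ (a 0, b 0)`).
`J1 → J2`: direction `1`: `J2 - J1 = η0(x0) (I0 h - η1(x1) I1 I0 h)`.
`J2 → J3`: direction `2`: `J3 - J2 = η0(x0) η1(x1) I1 I0 h`, and the integral of `I1 I0 h` in the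
direction `2` is `∫ h(s,·) = 0` (`fubini3`).
All differences vanish off `Icc a' b'` (`Iln_zero`), and for `h(s,·) = 0` they vanish.
Compose with `Stp.trans` (`S = {s | ∀ x, h (s,x) = 0}`). -/
theorem A23 (a b a' b' : E3) (h1 : ∀ j, a j < a' j) (h2 : ∀ j, a' j < b' j)
    (h3 : ∀ j, b' j < b j) :
    ∃ c : ℝ, 0 < c ∧ ∀ (J h : ℝ × E3 → ℝ) (ι : ℝ), ContDiff ℝ smo J → ContDiff ℝ smo h →
      0 < ι → (∀ p, ι ≤ J p) → (∀ s x, x ∉ Icc a' b' → h (s, x) = 0) →
      (∀ s, ∫ x, h (s, x) = 0) → (∀ p, |h p| ≤ c * ι) →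
      Stp (Box a b) {s | ∀ x, h (s, x) = 0} J (fun p => J p + h p) := by
  choose η hη hη_nn hη0 hη1 using fun j => exists_bump1 (a' j) (b' j) (h2 j)
  have hbd : ∀ j, ∃ M, ∀ t, |η j t| ≤ M := fun j =>
    (hη j).continuous.bounded_above_of_compact_support
      (HasCompactSupport.intro (isCompact_Icc : IsCompact (Icc (a' j) (b' j))) fun t ht =>
        hη0 j t fun hh => ht ⟨hh.1.le, hh.2.le⟩)
  obtain ⟨M0, hM0⟩ := hbd 0
  obtain ⟨M1, hM1⟩ := hbd 1
  have hM0n : 0 ≤ M0 := (abs_nonneg _).trans (hM0 0)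
  have hM1n : 0 ≤ M1 := (abs_nonneg _).trans (hM1 0)
  have hL0 : 0 < b' 0 - a' 0 := sub_pos.2 (h2 0)
  have hL1 : 0 < b' 1 - a' 1 := sub_pos.2 (h2 1)
  obtain ⟨A0, hA0⟩ : ∃ A0, A0 = M0 * (b' 0 - a' 0) := ⟨_, rfl⟩
  obtain ⟨A1, hA1⟩ : ∃ A1, A1 = M1 * (b' 1 - a' 1) := ⟨_, rfl⟩
  have hA0n : 0 ≤ A0 := by
    rw [hA0]
    positivity
  have hA1n : 0 ≤ A1 := by
    rw [hA1]
    positivity
  have hD : 0 < 2 * (1 + A0 + A0 * A1) := by positivity
  refine ⟨1 / (2 * (1 + A0 + A0 * A1)), by positivity, ?_⟩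
  intro J h ι hJ hh hι hJ1 h0 hI hc
  obtain ⟨C, hC⟩ : ∃ C, C = 1 / (2 * (1 + A0 + A0 * A1)) * ι := ⟨_, rfl⟩
  have hC2 : C * (1 + A0 + A0 * A1) = ι / 2 := by
    rw [hC]
    field_simp
  have hCn : 0 < C := by
    rw [hC]
    positivity
  rw [← hC] at hc
  obtain ⟨G1, hG1⟩ : ∃ G1, G1 = a23_G 0 (η 0) h := ⟨_, rfl⟩
  have hG1s : ContDiff ℝ smo G1 := by
    rw [hG1]
    exact a23_G_smooth 0 (η 0) (hη 0) h hh h0
  have hG10 : ∀ s x, x ∉ Icc a' b' → G1 (s, x) = 0 := by
    rw [hG1]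
    exact a23_G_zero 0 (η 0) (hη0 0) h h0
  have hG1b : ∀ p, |G1 p| ≤ C * A0 := fun p => by
    have h4 := a23_G_bound h2 0 (η 0) M0 hM0 h h0 C hc p
    rw [← hG1] at h4
    rw [hA0]
    linarith [h4]
  obtain ⟨G2, hG2⟩ : ∃ G2, G2 = a23_G 1 (η 1) G1 := ⟨_, rfl⟩
  have hG2s : ContDiff ℝ smo G2 := by
    rw [hG2]
    exact a23_G_smooth 1 (η 1) (hη 1) G1 hG1s hG10
  have hG20 : ∀ s x, x ∉ Icc a' b' → G2 (s, x) = 0 := by
    rw [hG2]
    exact a23_G_zero 1 (η 1) (hη0 1) G1 hG10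
  have hG2b : ∀ p, |G2 p| ≤ C * (A0 * A1) := fun p => by
    have h4 := a23_G_bound h2 1 (η 1) M1 hM1 G1 hG10 (C * A0) hG1b p
    rw [← hG2] at h4
    rw [hA1]
    linarith [h4]
  have hS1 : ∀ s, (∀ x, h (s, x) = 0) → ∀ x, G1 (s, x) = 0 := fun s hs x => by
    rw [hG1]
    exact a23_zero 0 (η 0) h s hs x
  have hS2 : ∀ s, (∀ x, h (s, x) = 0) → ∀ x, G2 (s, x) = 0 := fun s hs x => by
    rw [hG2]
    exact a23_zero 1 (η 1) G1 s (hS1 s hs) x
  have hCA0 : 0 ≤ C * A0 := by positivity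
  have hCA1 : 0 ≤ C * (A0 * A1) := by positivity
  have e : C * (1 + A0 + A0 * A1) = C + C * A0 + C * (A0 * A1) := by ring
  rw [e] at hC2
  have b1 : ∀ p, ι / 2 ≤ J p + (h p - G1 p) := fun p => by
    have e1 := abs_le.1 (hc p)
    have e2 := abs_le.1 (hG1b p)
    have e3 := hJ1 p
    linarith [e1.1, e2.2]
  have b2 : ∀ p, ι / 2 ≤ J p + (h p - G1 p) + (G1 p - G2 p) := fun p => by
    have e1 := abs_le.1 (hc p)
    have e2 := abs_le.1 (hG2b p)
    have e3 := hJ1 p
    linarith [e1.1, e2.2]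
  have b3 : ∀ p, ι / 2 ≤ J p + (h p - G1 p) + (G1 p - G2 p) + G2 p := fun p => by
    have e1 := abs_le.1 (hc p)
    have e3 := hJ1 p
    linarith [e1.1]
  have s1 := a23_step h1 h2 h3 0 J (fun p => h p - G1 p) (ι / 2) hJ (hh.sub hG1s) (half_pos hι)
    (fun p => by linarith [hJ1 p]) b1 (fun s x hx => by rw [h0 s x hx, hG10 s x hx, sub_zero])
    (fun s x => by
      rw [hG1]
      exact a23_diff 0 (η 0) (hη 0) (hη0 0) (hη1 0) h hh h0 s x)
  have s2 := a23_step h1 h2 h3 1 (fun p => J p + (h p - G1 p)) (fun p => G1 p - G2 p) (ι / 2)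
    (hJ.add (hh.sub hG1s)) (hG1s.sub hG2s) (half_pos hι) b1 b2
    (fun s x hx => by rw [hG10 s x hx, hG20 s x hx, sub_zero])
    (fun s x => by
      rw [hG2]
      exact a23_diff 1 (η 1) (hη 1) (hη0 1) (hη1 1) G1 hG1s hG10 s x)
  have s3 := a23_step h1 h2 h3 2 (fun p => J p + (h p - G1 p) + (G1 p - G2 p)) G2 (ι / 2)
    ((hJ.add (hh.sub hG1s)).add (hG1s.sub hG2s)) hG2s (half_pos hι) b2 b3 hG20
    (fun s x => by
      have e1 : ∀ t2 : ℝ, G2 (s, Function.update x 2 t2) = (η 1 (x 1) * η 0 (x 0)) *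
          ∫ t1, ∫ t0, h (s, Function.update (Function.update
            (Function.update x 2 t2) 1 t1) 0 t0) := fun t2 => by
        have e2 : ∀ t1 : ℝ, G1 (s, Function.update (Function.update x 2 t2) 1 t1) =
            η 0 (x 0) * ∫ t0, h (s, Function.update (Function.update
              (Function.update x 2 t2) 1 t1) 0 t0) := fun t1 => by
          rw [hG1]
          change η 0 (Function.update (Function.update x 2 t2) 1 t1 0) * _ = _
          rw [Function.update_of_ne (by decide), Function.update_of_ne (by decide)]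
          rfl
        rw [hG2]
        change η 1 (Function.update x 2 t2 1) * (∫ t1, G1 (s, Function.update
          (Function.update x 2 t2) 1 t1)) = _
        rw [Function.update_of_ne (by decide)]
        simp only [e2]
        rw [integral_const_mul, mul_assoc]
      change ∫ t2, G2 (s, Function.update x 2 t2) = 0
      simp only [e1]
      rw [integral_const_mul, ← fubini3 (fun y => h (s, y))
        (hh.continuous.comp (continuous_const.prodMk continuous_id)) (Icc a' b') isCompact_Icc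
        (fun y hy => h0 s y hy) x, hI s, mul_zero])
  have t1 : {s | ∀ x, h (s, x) = 0} ⊆ {s | ∀ x, (fun p : ℝ × E3 => h p - G1 p) (s, x) = 0} :=
    fun s hs x => by
      change h (s, x) - G1 (s, x) = 0
      rw [hs x, hS1 s hs x, sub_zero]
  have t2 : {s | ∀ x, h (s, x) = 0} ⊆ {s | ∀ x, (fun p : ℝ × E3 => G1 p - G2 p) (s, x) = 0} :=
    fun s hs x => by
      change G1 (s, x) - G2 (s, x) = 0
      rw [hS1 s hs x, hS2 s hs x, sub_zero]
  have t3 : {s | ∀ x, h (s, x) = 0} ⊆ {s | ∀ x, G2 (s, x) = 0} := fun s hs x => hS2 s hs x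
  have r := ((s1.mono (le_refl _) t1).trans (s2.mono (le_refl _) t2)).trans
    (s3.mono (le_refl _) t3)
  have e2 : (fun p => J p + (h p - G1 p) + (G1 p - G2 p) + G2 p) = fun p => J p + h p := by
    funext p
    ring
  rwa [e2] at r

end Pool.Agent.QM59
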