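import Mathlib
import Pool.Agent.Lib.MP_decea1_gt_A.Bump

/-!
# MP_decea1_gt, block A, module Chain: differences of bumps in a connected open set
-/

set_option autoImplicit false

open MeasureTheory Set Filter Topology

namespace Pool.Agent.QM59

/-- closed box inside an open box inside `U` -/
def SBox (U : Set E3) (a b a' b' : E3) : Prop :=
  (∀ j, a j < a' j) ∧ (∀ j, a' j < b' j) ∧ (∀ j, b' j < b j) ∧ Box a b ⊆ U

/-- smooth functions supported in a closed box inside an open box inside `U` -/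
def ElF (U : Set E3) (z : E3 → ℝ) : Prop :=
  ContDiff ℝ smo z ∧ ∃ a b a' b' : E3, SBox U a b a' b' ∧ ∀ x, x ∉ Icc a' b' → z x = 0

/-- `β ~ β'`: the difference is a finite sum of elementary functions of integral zero -/
def ElR (U : Set E3) (β β' : E3 → ℝ) : Prop :=
  ∃ (n : ℕ) (z : Fin n → E3 → ℝ), (∀ j, ElF U (z j) ∧ ∫ x, z j x = 0) ∧
    ∀ x, β x - β' x = ∑ j, z j x

theorem ElR.symm {U : Set E3} {β β' : E3 → ℝ} (h : ElR U β β') : ElR U β' β := by
  obtain ⟨n, z, hz, hs⟩ := h
  refine ⟨n, fun j x => - z j x, fun j => ⟨⟨(hz j).1.1.neg, ?_⟩, ?_⟩, fun x => ?_⟩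
  · obtain ⟨a, b, a', b', hb, h0⟩ := (hz j).1.2
    exact ⟨a, b, a', b', hb, fun x hx => by simp [h0 x hx]⟩
  · rw [integral_neg, (hz j).2, neg_zero]
  · have := hs x
    simp only [Finset.sum_neg_distrib]
    linarith

theorem ElR.trans {U : Set E3} {β β' β'' : E3 → ℝ} (h : ElR U β β') (h' : ElR U β' β'') :
    ElR U β β'' := by
  obtain ⟨n, z, hz, hs⟩ := h
  obtain ⟨m, w, hw, ht⟩ := h'
  refine ⟨n + m, Fin.addCases z w, fun j => ?_, fun x => ?_⟩
  · refine Fin.addCases (fun i => ?_) (fun i => ?_) j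
    · simpa using hz i
    · simpa using hw i
  · rw [Fin.sum_univ_add]
    simp only [Fin.addCases_left, Fin.addCases_right]
    rw [← hs x, ← ht x]
    ring

/-- two functions of integral one supported in the same closed box: one elementary function. -/
theorem ElR.same (U : Set E3) (a b a' b' : E3) (hb : SBox U a b a' b') (β β' : E3 → ℝ)
    (h1 : ContDiff ℝ smo β) (h2 : ContDiff ℝ smo β') (h3 : ∀ x, x ∉ Icc a' b' → β x = 0)
    (h4 : ∀ x, x ∉ Icc a' b' → β' x = 0) (h5 : ∫ x, β x = 1) (h6 : ∫ x, β' x = 1) :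
    ElR U β β' := by
  have i1 : Integrable β := by
    by_contra hn
    rw [integral_undef hn] at h5
    norm_num at h5
  have i2 : Integrable β' := by
    by_contra hn
    rw [integral_undef hn] at h6
    norm_num at h6
  refine ⟨1, fun _ x => β x - β' x, fun _ => ⟨⟨h1.sub h2, a, b, a', b', hb, fun x hx => ?_⟩, ?_⟩,
    fun x => by simp⟩
  · simp [h3 x hx, h4 x hx]
  · rw [integral_sub i1 i2, h5, h6, sub_self]

/-- enlarging the closed boxes -/
private theorem same2 (U : Set E3) (a b a' b' a'' b'' : E3) (hb : SBox U a b a' b')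
    (hb' : SBox U a b a'' b'') (β β' : E3 → ℝ)
    (h1 : ContDiff ℝ smo β) (h2 : ContDiff ℝ smo β') (h3 : ∀ x, x ∉ Icc a' b' → β x = 0)
    (h4 : ∀ x, x ∉ Icc a'' b'' → β' x = 0) (h5 : ∫ x, β x = 1) (h6 : ∫ x, β' x = 1) :
    ElR U β β' := by
  refine ElR.same U a b (fun j => min (a' j) (a'' j)) (fun j => max (b' j) (b'' j))
    ⟨fun j => lt_min (hb.1 j) (hb'.1 j), fun j => ?_, fun j => max_lt (hb.2.2.1 j) (hb'.2.2.1 j),
      hb.2.2.2⟩ β β' h1 h2 (fun x hx => h3 x fun hx' => hx ?_) (fun x hx => h4 x fun hx' => hx ?_)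
    h5 h6
  · exact lt_of_le_of_lt (min_le_left _ _) (lt_of_lt_of_le (hb.2.1 j) (le_max_left _ _))
  · exact ⟨fun j => le_trans (min_le_left _ _) (hx'.1 j),
      fun j => le_trans (hx'.2 j) (le_max_left _ _)⟩
  · exact ⟨fun j => le_trans (min_le_right _ _) (hx'.1 j),
      fun j => le_trans (hx'.2 j) (le_max_right _ _)⟩

/-- boxes all whose bumps are equivalent to `β` -/
private def GoodB (U : Set E3) (β : E3 → ℝ) (a b : E3) : Prop :=
  ∀ (a' b' : E3) (β' : E3 → ℝ), SBox U a b a' b' → ContDiff ℝ smo β' →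
    (∀ x, x ∉ Icc a' b' → β' x = 0) → ∫ x, β' x = 1 → ElR U β β'

private theorem good_overlap (U : Set E3) (β : E3 → ℝ) (a b c d : E3) (hab : Box a b ⊆ U)
    (hcd : Box c d ⊆ U) (hg : GoodB U β a b) (x : E3) (hx : x ∈ Box a b) (hx' : x ∈ Box c d) :
    GoodB U β c d := by
  intro c' d' β' hs h1 h2 h3
  obtain ⟨β0, g1, -, -, g4, r, hr, g5, g6⟩ := exists_bump3 (Box a b ∩ Box c d)
    ((isOpen_Box a b).inter (isOpen_Box c d)) x ⟨hx, hx'⟩
  have e1 : (fun i => x i - r / 2 : E3) ∈ Box a b ∩ Box c d := by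
    refine g5 ⟨fun i => ?_, fun i => ?_⟩
    · show x i - r ≤ x i - r / 2
      linarith
    · show x i - r / 2 ≤ x i + r
      linarith
  have e2 : (fun i => x i + r / 2 : E3) ∈ Box a b ∩ Box c d := by
    refine g5 ⟨fun i => ?_, fun i => ?_⟩
    · show x i - r ≤ x i + r / 2
      linarith
    · show x i + r / 2 ≤ x i + r
      linarith
  have s1 : SBox U a b (fun i => x i - r / 2) (fun i => x i + r / 2) :=
    ⟨fun j => (e1.1 j).1, fun j => by linarith, fun j => (e2.1 j).2, hab⟩
  have s2 : SBox U c d (fun i => x i - r / 2) (fun i => x i + r / 2) :=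
    ⟨fun j => (e1.2 j).1, fun j => by linarith, fun j => (e2.2 j).2, hcd⟩
  exact (hg _ _ β0 s1 g1 g6 g4).trans (same2 U c d _ _ _ _ s2 hs β0 β' g1 h1 g6 h2 g4 h3)

/-- A3.1, second part. Fix `β` with `ElF U β`, `∫ β = 1`. Let `P x` be: every `β'` with integral
one which is smooth and supported in some closed box `Icc a' b'` with `SBox U a b a' b'` and
`x ∈ Icc a' b'` satisfies `ElR U β β'`. Claim: the set of `x ∈ U` with `P x` is relatively open and
closed in `U` and nonempty, so it is `U`. Key point (overlap): if two open boxes `B, B'` in `U` have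
a common point, there is a closed box with nonempty interior inside `B ∩ B'` (the intersection of
two open boxes is an open box) and a bump `β0` of integral one in it; all functions of integral one
supported in closed boxes of `B` resp. `B'` are `~ β0` (`ElR.same` after enlarging the closed boxes
inside `B`, `B'` so that they contain both supports: two closed boxes inside the open box `B` are
contained in a third one). A simpler organisation: for `x ∈ U` let `Q x` be: for every smooth `β'`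
of integral one supported in `Icc a' b'`, `SBox U a b a' b'`, `x ∈ Box a b` we have `ElR U β β'`.
If `x, y` lie in a common open box `B ⊂ U`, then `Q x ↔ Q y` by the overlap argument; `U` is
connected (`IsPreconnected.induction₂`-like argument, or `IsConnected` + `isClopen`), and `Q` holds
at every point of the box of `β`. -/
theorem chain (U : Set E3) (hU : IsOpen U) (hc : IsConnected U) (β β' : E3 → ℝ)
    (h1 : ElF U β) (h2 : ElF U β') (h3 : ∫ x, β x = 1) (h4 : ∫ x, β' x = 1) : ElR U β β' := by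
  obtain ⟨g1, a, b, a', b', hs, hz⟩ := h1
  obtain ⟨g2, c, d, c', d', hs', hz'⟩ := h2
  have hgood : GoodB U β a b := fun a'' b'' β'' hs'' k1 k2 k3 =>
    same2 U a b _ _ _ _ hs hs'' β β'' g1 k1 hz k2 h3 k3
  by_contra hne
  have hbad : ¬ GoodB U β c d := fun hg => hne (hg c' d' β' hs' g2 hz' h4)
  have hop : ∀ p : E3 → E3 → Prop, IsOpen {x : E3 | ∃ a b, x ∈ Box a b ∧ Box a b ⊆ U ∧ p a b} := by
    intro p
    have : {x : E3 | ∃ a b, x ∈ Box a b ∧ Box a b ⊆ U ∧ p a b} =
        ⋃ (a : E3) (b : E3) (_ : Box a b ⊆ U ∧ p a b), Box a b := by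
      ext x
      simp only [mem_ofPred_eq, mem_iUnion, exists_prop]
      constructor
      · rintro ⟨a, b, h, h', h''⟩
        exact ⟨a, b, ⟨h', h''⟩, h⟩
      · rintro ⟨a, b, ⟨h', h''⟩, h⟩
        exact ⟨a, b, h, h', h''⟩
    rw [this]
    exact isOpen_iUnion fun a => isOpen_iUnion fun b => isOpen_iUnion fun _ => isOpen_Box a b
  have ha : a' ∈ Box a b := fun i => ⟨hs.1 i, lt_trans (hs.2.1 i) (hs.2.2.1 i)⟩
  have hc' : c' ∈ Box c d := fun i => ⟨hs'.1 i, lt_trans (hs'.2.1 i) (hs'.2.2.1 i)⟩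
  obtain ⟨y, -, ⟨a1, b1, y1, u1, p1⟩, ⟨a2, b2, y2, u2, p2⟩⟩ := hc.isPreconnected
    {x : E3 | ∃ a b, x ∈ Box a b ∧ Box a b ⊆ U ∧ GoodB U β a b}
    {x : E3 | ∃ a b, x ∈ Box a b ∧ Box a b ⊆ U ∧ ¬ GoodB U β a b}
    (hop _) (hop _)
    (fun x hx => by
      obtain ⟨r, hr, hsub⟩ := exists_Box U hU x hx
      have hsub' := (Box_subset_Icc (fun i => x i - r) (fun i => x i + r)).trans hsub
      have hxm : x ∈ Box (fun i => x i - r) (fun i => x i + r) := fun i => by
        constructor
        · show x i - r < x i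
          linarith
        · show x i < x i + r
          linarith
      by_cases hg : GoodB U β (fun i => x i - r) (fun i => x i + r)
      · exact Or.inl ⟨_, _, hxm, hsub', hg⟩
      · exact Or.inr ⟨_, _, hxm, hsub', hg⟩)
    ⟨a', hs.2.2.2 ha, a, b, ha, hs.2.2.2, hgood⟩
    ⟨c', hs'.2.2.2 hc', c, d, hc', hs'.2.2.2, hbad⟩
  exact p2 (good_overlap U β a1 b1 a2 b2 u1 u2 p1 y y1 y2)

end Pool.Agent.QM59
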