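import Mathlib
import Pool.Agent.Lib.MP_decea1_gt_A.Chain

/-!
# MP_decea1_gt, block A, module Pou: partition of unity subordinate to small boxes
-/

set_option autoImplicit false

open MeasureTheory Set Filter Topology

namespace Pool.Agent.QM59

/-- Every `x ∈ K` has a radius `r` with `Icc (x - 2r) (x + 2r) ⊆ U` (`exists_Box`); finitely many
boxes `Box (x_i - r_i/2) (x_i + r_i/2)` cover `K`; `χ i` a smooth function with values in `[0,1]`,
`χ i = 1` on `Icc (x_i - r_i/2) (x_i + r_i/2)` and `χ i = 0` off `Icc (x_i - r_i) (x_i + r_i)`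
(`exists_bump`). `ρ i = χ i * ∏_{j < i} (1 - χ j)`: smooth, supported in
`Icc (x_i - r_i) (x_i + r_i)`, and `∑ ρ i = 1 - ∏ (1 - χ i) = 1` on `K`. -/
theorem exists_pou (U K : Set E3) (hU : IsOpen U) (hK : IsCompact K) (h : K ⊆ U) :
    ∃ (n : ℕ) (ρ : Fin n → E3 → ℝ) (a b a' b' : Fin n → E3),
      (∀ i, SBox U (a i) (b i) (a' i) (b' i)) ∧ (∀ i, ContDiff ℝ smo (ρ i)) ∧
      (∀ i x, 0 ≤ ρ i x ∧ ρ i x ≤ 1) ∧
      (∀ i x, x ∉ Icc (a' i) (b' i) → ρ i x = 0) ∧ ∀ x ∈ K, ∑ i, ρ i x = 1 := by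
  classical
  have H : ∀ x : E3, x ∈ K → ∃ r : ℝ, 0 < r ∧
      Icc (fun i => x i - r) (fun i => x i + r) ⊆ U := fun x hx => exists_Box U hU x (h hx)
  have H' : ∀ x : E3, ∃ r : ℝ, 0 < r ∧
      (x ∈ K → Icc (fun i => x i - r) (fun i => x i + r) ⊆ U) := by
    intro x
    by_cases hx : x ∈ K
    · obtain ⟨r, hr, hs⟩ := H x hx
      exact ⟨r, hr, fun _ => hs⟩
    · exact ⟨1, one_pos, fun hx' => absurd hx' hx⟩
  choose r hr hrU using H'
  have hcov : ∀ x ∈ K, Box (fun i => x i - r x / 4) (fun i => x i + r x / 4) ∈ 𝓝 x := by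
    intro x _
    refine (isOpen_Box _ _).mem_nhds ?_
    intro i
    have := hr x
    constructor <;> simp only [] <;> linarith
  obtain ⟨t, htK, ht⟩ := hK.elim_nhds_subcover
    (fun x => Box (fun i => x i - r x / 4) (fun i => x i + r x / 4)) hcov
  have hB : ∀ x : E3, ∃ χ : E3 → ℝ, ContDiff ℝ smo χ ∧ (∀ y, 0 ≤ χ y ∧ χ y ≤ 1) ∧
      (∀ y ∈ Icc (fun i => x i - r x / 4) (fun i => x i + r x / 4), χ y = 1) ∧
      (∀ y, y ∉ Icc (fun i => x i - r x / 2) (fun i => x i + r x / 2) → χ y = 0) := by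
    intro x
    have hsub : Icc (fun i => x i - r x / 4) (fun i => x i + r x / 4) ⊆
        Box (fun i => x i - r x / 2) (fun i => x i + r x / 2) := by
      apply Icc_subset_Box
      · intro i
        have := hr x
        linarith
      · intro i
        have := hr x
        linarith
    obtain ⟨χ, h1, h2, ⟨W, _, hKW, hW1⟩, ⟨L, _, hLB, hL0⟩⟩ := exists_bump
      (Box (fun i => x i - r x / 2) (fun i => x i + r x / 2))
      (Icc (fun i => x i - r x / 4) (fun i => x i + r x / 4)) (isOpen_Box _ _) isCompact_Icc hsub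
    refine ⟨χ, h1, h2, fun y hy => hW1 y (hKW hy), fun y hy => hL0 y ?_⟩
    intro hyL
    exact hy (Box_subset_Icc _ _ (hLB hyL))
  choose χ hχs hχ01 hχ1 hχ0 using hB
  let e : Fin t.card ≃ t := t.equivFin.symm
  let c : Fin t.card → E3 := fun i => (e i : E3)
  have hcK : ∀ i, c i ∈ K := fun i => htK _ (e i).2
  refine ⟨t.card, fun i y => χ (c i) y * ∏ j ∈ Finset.univ with j < i, (1 - χ (c j) y),
    fun i k => c i k - r (c i), fun i k => c i k + r (c i),
    fun i k => c i k - r (c i) / 2, fun i k => c i k + r (c i) / 2, ?_, ?_, ?_, ?_, ?_⟩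
  · intro i
    have hri := hr (c i)
    refine ⟨fun j => ?_, fun j => ?_, fun j => ?_, ?_⟩
    · simp only []
      linarith
    · simp only []
      linarith
    · simp only []
      linarith
    · exact (Box_subset_Icc _ _).trans (hrU (c i) (hcK i))
  · intro i
    refine (hχs (c i)).mul ?_
    exact contDiff_prod fun j _ => contDiff_const.sub (hχs (c j))
  · intro i x
    have hp0 : 0 ≤ ∏ j ∈ Finset.univ with j < i, (1 - χ (c j) x) :=
      Finset.prod_nonneg fun j _ => by linarith [(hχ01 (c j) x).2]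
    have hp1 : ∏ j ∈ Finset.univ with j < i, (1 - χ (c j) x) ≤ 1 :=
      Finset.prod_le_one (fun j _ => by linarith [(hχ01 (c j) x).2])
        (fun j _ => by linarith [(hχ01 (c j) x).1])
    refine ⟨mul_nonneg (hχ01 (c i) x).1 hp0, ?_⟩
    calc χ (c i) x * ∏ j ∈ Finset.univ with j < i, (1 - χ (c j) x)
        ≤ 1 * 1 := mul_le_mul (hχ01 (c i) x).2 hp1 hp0 zero_le_one
      _ = 1 := one_mul 1
  · intro i x hx
    simp only []
    rw [hχ0 (c i) x hx, zero_mul]
  · intro x hx
    have hpo := Finset.prod_one_sub_ordered (Finset.univ : Finset (Fin t.card))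
      (fun i => χ (c i) x)
    have hz : ∏ i, (1 - χ (c i) x) = 0 := by
      have hx' := ht hx
      simp only [mem_iUnion] at hx'
      obtain ⟨p, hp, hxp⟩ := hx'
      have hci : c (e.symm ⟨p, hp⟩) = p := by
        simp only [c, Equiv.apply_symm_apply]
      refine Finset.prod_eq_zero (Finset.mem_univ (e.symm ⟨p, hp⟩)) ?_
      rw [hci, hχ1 p x (Box_subset_Icc _ _ hxp), sub_self]
    simp only [] at hpo ⊢
    rw [hz] at hpo
    linarith

end Pool.Agent.QM59
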