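import Mathlib
import Pool.Agent.Lib.MP_decea1_gt_A.Pou
import Pool.Agent.Lib.MP_decea1_gt_A.Int

/-!
# MP_decea1_gt, block A, module A31: decomposition into functions supported in boxes (A3.1)
-/

set_option autoImplicit false

open MeasureTheory Set Filter Topology

namespace Pool.Agent.QM59

private theorem hcs_of {f : E3 → ℝ} {K : Set E3} (hK : IsCompact K)
    (h0 : ∀ x, x ∉ K → f x = 0) : HasCompactSupport f :=
  HasCompactSupport.intro hK h0

private theorem int_of {f : E3 → ℝ} (hf : ContDiff ℝ smo f) {K : Set E3} (hK : IsCompact K)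
    (h0 : ∀ x, x ∉ K → f x = 0) : Integrable f :=
  hf.continuous.integrable_of_hasCompactSupport (hcs_of hK h0)

private theorem bdd_of {f : E3 → ℝ} (hf : ContDiff ℝ smo f) {K : Set E3} (hK : IsCompact K)
    (h0 : ∀ x, x ∉ K → f x = 0) : ∃ B : ℝ, ∀ x, |f x| ≤ B := by
  obtain ⟨B, hB⟩ := hf.continuous.bounded_above_of_compact_support (hcs_of hK h0)
  exact ⟨B, fun x => by simpa using hB x⟩

private theorem smooth_slice {g : ℝ × E3 → ℝ} (hg : ContDiff ℝ smo g) (s : ℝ) :
    ContDiff ℝ smo (fun x : E3 => g (s, x)) :=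
  hg.comp (contDiff_const.prodMk contDiff_id)

/-- A3.1. `ρ i` from `exists_pou` for `K` (if `n = 0`, then `K = ∅` and `h = 0`: take `N = 0`); `β i`
a bump of integral one supported in `Icc (a' i) (b' i)` (`exists_bump3` in the open box
`Box (a' i) (b' i)`); `c i s = ∫ x, ρ i x * h (s,x)`, smooth (`smooth_int_cpt3` with `H = ℝ`) and
bounded (`|h| ≤ C`, `ρ i` supported in a compact set). On `K`, hence everywhere (`h = 0` off `K`),
`h = ∑ ρ i h`, so `∑ c i = ∫ h(s,·) = 0` and
`h (s,x) = ∑ (ρ i x h (s,x) - c i s β i x) + ∑ c i s (β i x - β 0 x)`. The first terms are of the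
required form. By `chain`, `β i - β 0 = ∑_j z i j` with finitely many elementary functions of
integral zero: the terms `c i s * z i j x` are of the required form (bounded since `z i j` has
compact support). If `h(s,·) = 0`, then `c i s = 0`. Collect all terms in one family over
`Fin N` (e.g. over a sigma type and `Fintype.equivFin`). -/
theorem A31 (U : Set E3) (hU : IsOpen U) (hc : IsConnected U) (K : Set E3) (hK : IsCompact K)
    (hKU : K ⊆ U) (h : ℝ × E3 → ℝ) (hh : ContDiff ℝ smo h) (C : ℝ) (hC : ∀ p, |h p| ≤ C)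
    (h0 : ∀ s x, x ∉ K → h (s, x) = 0) (hi : ∀ s, ∫ x, h (s, x) = 0) :
    ∃ (N : ℕ) (g : Fin N → ℝ × E3 → ℝ) (a b a' b' : Fin N → E3) (C' : ℝ),
      (∀ i, SBox U (a i) (b i) (a' i) (b' i)) ∧ (∀ i, ContDiff ℝ smo (g i)) ∧
      (∀ i p, |g i p| ≤ C') ∧ (∀ i s x, x ∉ Icc (a' i) (b' i) → g i (s, x) = 0) ∧
      (∀ i s, ∫ x, g i (s, x) = 0) ∧
      (∀ i s, (∀ x, h (s, x) = 0) → ∀ x, g i (s, x) = 0) ∧ ∀ p, h p = ∑ i, g i p := by
  classical
  obtain ⟨n, ρ, a, b, a', b', hS, hρ, hρ01, hρ0, hsum⟩ := exists_pou U K hU hK hKU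
  rcases Nat.eq_zero_or_pos n with rfl | hn
  · have hKe : ∀ x, x ∉ K := fun x hx => by
      have := hsum x hx
      simp at this
    refine ⟨0, fun i => i.elim0, fun i => i.elim0, fun i => i.elim0, fun i => i.elim0,
      fun i => i.elim0, 0, fun i => i.elim0, fun i => i.elim0, fun i => i.elim0,
      fun i => i.elim0, fun i => i.elim0, fun i => i.elim0, fun p => ?_⟩
    rw [Fin.sum_univ_zero]
    exact h0 p.1 p.2 (hKe p.2)
  let i0 : Fin n := ⟨0, hn⟩
  -- the bumps
  have hβex : ∀ i, ∃ β : E3 → ℝ, ContDiff ℝ smo β ∧ (∀ x, x ∉ Icc (a' i) (b' i) → β x = 0) ∧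
      ∫ x, β x = 1 := by
    intro i
    have hmid : (fun j => (a' i j + b' i j) / 2) ∈ Box (a' i) (b' i) := fun j => by
      have := (hS i).2.1 j
      constructor <;> linarith
    obtain ⟨β, h1, -, -, h4, r, hr, h5, h6⟩ := exists_bump3 (Box (a' i) (b' i))
      (isOpen_Box _ _) _ hmid
    refine ⟨β, h1, fun x hx => h6 x fun hx' => hx ?_, h4⟩
    refine Box_subset_Icc _ _ (h5 ?_)
    refine ⟨fun j => ?_, fun j => ?_⟩
    · have := hx'.1 j
      simp only at this ⊢
      linarith
    · have := hx'.2 j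
      simp only at this ⊢
      linarith
  choose β hβ hβ0 hβ1 using hβex
  have hβE : ∀ i, ElF U (β i) := fun i => ⟨hβ i, a i, b i, a' i, b' i, hS i, hβ0 i⟩
  -- the coefficients
  let c : Fin n → ℝ → ℝ := fun i s => ∫ x, ρ i x * h (s, x)
  have hρh : ∀ i, ContDiff ℝ smo (fun p : ℝ × E3 => ρ i p.2 * h p) := fun i =>
    ((hρ i).comp contDiff_snd).mul hh
  have hρh0 : ∀ i s x, x ∉ K → ρ i x * h (s, x) = 0 := fun i s x hx => by
    rw [h0 s x hx, mul_zero]
  have hcs : ∀ i, ContDiff ℝ smo (c i) := fun i =>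
    smooth_int_cpt3 (fun p : ℝ × E3 => ρ i p.2 * h p) (hρh i) K hK (fun s x hx => hρh0 i s x hx)
  have hint : ∀ i s, Integrable (fun x : E3 => ρ i x * h (s, x)) := fun i s =>
    int_of (smooth_slice (hρh i) s) hK (hρh0 i s)
  have hC0 : 0 ≤ C := (abs_nonneg _).trans (hC (0, 0))
  have hcb : ∀ i s, |c i s| ≤ C * volume.real K := by
    intro i s
    have e : c i s = ∫ x in K, ρ i x * h (s, x) :=
      (setIntegral_eq_integral_of_forall_compl_eq_zero (hρh0 i s)).symm
    rw [e, ← Real.norm_eq_abs]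
    refine norm_setIntegral_le_of_norm_le_const hK.measure_lt_top fun x _ => ?_
    rw [Real.norm_eq_abs, abs_mul, abs_of_nonneg (hρ01 i x).1]
    exact (mul_le_of_le_one_left (abs_nonneg _) (hρ01 i x).2).trans (hC (s, x))
  have hcsum : ∀ s, ∑ i, c i s = 0 := by
    intro s
    rw [← integral_finsetSum _ fun i _ => hint i s, ← hi s]
    refine integral_congr_ae (Eventually.of_forall fun x => ?_)
    simp only
    rw [← Finset.sum_mul]
    by_cases hx : x ∈ K
    · rw [hsum x hx, one_mul]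
    · rw [h0 s x hx, mul_zero]
  have hc0 : ∀ i s, (∀ x, h (s, x) = 0) → c i s = 0 := by
    intro i s hs
    have : ∀ x : E3, ρ i x * h (s, x) = 0 := fun x => by rw [hs x, mul_zero]
    simp only [c, this, integral_zero]
  -- the chains
  have hch := fun i => chain U hU hc (β i) (β i0) (hβE i) (hβE i0) (hβ1 i) (hβ1 i0)
  choose m z hz hzs using hch
  have hzE := fun i j => (hz i j).1.2
  choose za zb za' zb' hzS hz0 using hzE
  -- the family
  let ι : Type := Fin n ⊕ (Σ i : Fin n, Fin (m i))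
  let G : ι → ℝ × E3 → ℝ := fun k => match k with
    | Sum.inl i => fun p => ρ i p.2 * h p - c i p.1 * β i p.2
    | Sum.inr ij => fun p => c ij.1 p.1 * z ij.1 ij.2 p.2
  let ga : ι → E3 := fun k => match k with
    | Sum.inl i => a i
    | Sum.inr ij => za ij.1 ij.2
  let gb : ι → E3 := fun k => match k with
    | Sum.inl i => b i
    | Sum.inr ij => zb ij.1 ij.2
  let ga' : ι → E3 := fun k => match k with
    | Sum.inl i => a' i
    | Sum.inr ij => za' ij.1 ij.2
  let gb' : ι → E3 := fun k => match k with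
    | Sum.inl i => b' i
    | Sum.inr ij => zb' ij.1 ij.2
  have G1 : ∀ k, SBox U (ga k) (gb k) (ga' k) (gb' k) := by
    rintro (i | ⟨i, j⟩)
    · exact hS i
    · exact hzS i j
  have G2 : ∀ k, ContDiff ℝ smo (G k) := by
    rintro (i | ⟨i, j⟩)
    · exact (hρh i).sub (((hcs i).comp contDiff_fst).mul ((hβ i).comp contDiff_snd))
    · exact ((hcs i).comp contDiff_fst).mul ((hz i j).1.1.comp contDiff_snd)
  have G3 : ∀ k, ∃ B : ℝ, ∀ p, |G k p| ≤ B := by
    rintro (i | ⟨i, j⟩)
    · obtain ⟨B, hB⟩ := bdd_of (hβ i) isCompact_Icc (hβ0 i)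
      refine ⟨C + C * volume.real K * B, fun p => ?_⟩
      refine (abs_sub _ _).trans (add_le_add ?_ ?_)
      · rw [abs_mul, abs_of_nonneg (hρ01 i p.2).1]
        exact (mul_le_of_le_one_left (abs_nonneg _) (hρ01 i p.2).2).trans (hC p)
      · rw [abs_mul]
        exact mul_le_mul (hcb i p.1) (hB p.2) (abs_nonneg _)
          (mul_nonneg hC0 measureReal_nonneg)
    · obtain ⟨B, hB⟩ := bdd_of (hz i j).1.1 isCompact_Icc (hz0 i j)
      refine ⟨C * volume.real K * B, fun p => ?_⟩
      change |c i p.1 * z i j p.2| ≤ _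
      rw [abs_mul]
      exact mul_le_mul (hcb i p.1) (hB p.2) (abs_nonneg _)
        (mul_nonneg hC0 measureReal_nonneg)
  have G4 : ∀ k s x, x ∉ Icc (ga' k) (gb' k) → G k (s, x) = 0 := by
    rintro (i | ⟨i, j⟩) s x hx
    · change ρ i x * h (s, x) - c i s * β i x = 0
      rw [hρ0 i x hx, hβ0 i x hx, zero_mul, mul_zero, sub_zero]
    · change c i s * z i j x = 0
      rw [hz0 i j x hx, mul_zero]
  have G5 : ∀ k s, ∫ x, G k (s, x) = 0 := by
    rintro (i | ⟨i, j⟩) s
    · change ∫ x, (ρ i x * h (s, x) - c i s * β i x) = 0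
      rw [integral_sub (hint i s) ((int_of (hβ i) isCompact_Icc (hβ0 i)).const_mul _),
        integral_const_mul, hβ1 i, mul_one]
      exact sub_self _
    · change ∫ x, c i s * z i j x = 0
      rw [integral_const_mul, (hz i j).2, mul_zero]
  have G6 : ∀ k s, (∀ x, h (s, x) = 0) → ∀ x, G k (s, x) = 0 := by
    rintro (i | ⟨i, j⟩) s hs x
    · change ρ i x * h (s, x) - c i s * β i x = 0
      rw [hs x, hc0 i s hs, zero_mul, mul_zero, sub_zero]
    · change c i s * z i j x = 0
      rw [hc0 i s hs, zero_mul]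
  have G7 : ∀ p, h p = ∑ k, G k p := by
    rintro ⟨s, x⟩
    rw [Fintype.sum_sum_type]
    change h (s, x) = ∑ i, (ρ i x * h (s, x) - c i s * β i x) +
      ∑ ij : (Σ i : Fin n, Fin (m i)), c ij.1 s * z ij.1 ij.2 x
    have e1 : ∑ ij : (Σ i : Fin n, Fin (m i)), c ij.1 s * z ij.1 ij.2 x =
        ∑ i, c i s * (β i x - β i0 x) := by
      rw [Fintype.sum_sigma]
      refine Finset.sum_congr rfl fun i _ => ?_
      rw [hzs i x, Finset.mul_sum]
    have e2 : ∑ i, ρ i x * h (s, x) = h (s, x) := by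
      rw [← Finset.sum_mul]
      by_cases hx : x ∈ K
      · rw [hsum x hx, one_mul]
      · rw [h0 s x hx, mul_zero]
    have e3 : ∑ i, c i s * β i0 x = 0 := by
      rw [← Finset.sum_mul, hcsum s, zero_mul]
    rw [e1, Finset.sum_sub_distrib, e2]
    simp only [mul_sub, Finset.sum_sub_distrib, e3]
    ring
  choose B hB using G3
  let e : Fin (Fintype.card ι) ≃ ι := (Fintype.equivFin ι).symm
  refine ⟨Fintype.card ι, fun i => G (e i), fun i => ga (e i), fun i => gb (e i),
    fun i => ga' (e i), fun i => gb' (e i), ∑ k, |B k|, fun i => G1 _, fun i => G2 _,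
    fun i p => ?_, fun i => G4 _, fun i => G5 _, fun i => G6 _, fun p => ?_⟩
  · refine (hB (e i) p).trans ((le_abs_self _).trans ?_)
    exact Finset.single_le_sum (f := fun k => |B k|) (fun k _ => abs_nonneg _)
      (Finset.mem_univ (e i))
  · rw [G7 p]
    exact (Equiv.sum_comp e (fun k => G k p)).symm

end Pool.Agent.QM59
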