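import Mathlib
import Pool.Agent.Lib.MP_decea1_gt_A.A31
import Pool.Agent.Lib.MP_decea1_gt_A.A23

/-!
# MP_decea1_gt, block A, module A3: the Moser lemma (A3.2, A3.3)
-/

set_option autoImplicit false

open MeasureTheory Set Filter Topology

namespace Pool.Agent.QM59

private noncomputable def A3_J (J J' : ℝ × E3 → ℝ) (N : ℕ) (g : Fin N → ℝ × E3 → ℝ) (M k i : ℕ)
    (p : ℝ × E3) : ℝ :=
  J p + ((k : ℝ) / M) * (J' p - J p) +
    (1 / (M : ℝ)) * ∑ j ∈ Finset.univ.filter (fun j : Fin N => (j : ℕ) < i), g j p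

private lemma A3_J_smooth (J J' : ℝ × E3 → ℝ) (hJ : ContDiff ℝ smo J) (hJ' : ContDiff ℝ smo J')
    (N : ℕ) (g : Fin N → ℝ × E3 → ℝ) (hg : ∀ i, ContDiff ℝ smo (g i)) (M k i : ℕ) :
    ContDiff ℝ smo (A3_J J J' N g M k i) := by
  unfold A3_J
  refine (hJ.add (contDiff_const.mul (hJ'.sub hJ))).add (contDiff_const.mul ?_)
  exact ContDiff.sum fun j _ => hg j

private lemma A3_J_zero (J J' : ℝ × E3 → ℝ) (N : ℕ) (g : Fin N → ℝ × E3 → ℝ) (M : ℕ) :
    A3_J J J' N g M 0 0 = J := by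
  funext p
  simp [A3_J]

private lemma A3_J_next (J J' : ℝ × E3 → ℝ) (N : ℕ) (g : Fin N → ℝ × E3 → ℝ)
    (hsum : ∀ p, J' p - J p = ∑ i, g i p) (M : ℕ) (k : ℕ) :
    A3_J J J' N g M k N = A3_J J J' N g M (k + 1) 0 := by
  funext p
  have e1 : Finset.univ.filter (fun j : Fin N => (j : ℕ) < N) = Finset.univ := by
    apply Finset.filter_true_of_mem
    intro j _
    exact j.2
  simp only [A3_J, e1, ← hsum p]
  simp
  ring

private lemma A3_J_last (J J' : ℝ × E3 → ℝ) (N : ℕ) (g : Fin N → ℝ × E3 → ℝ) (M : ℕ)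
    (hM : 0 < M) : A3_J J J' N g M M 0 = J' := by
  funext p
  have h : (M : ℝ) ≠ 0 := by exact_mod_cast hM.ne'
  simp [A3_J, h]

private lemma A3_J_succ (J J' : ℝ × E3 → ℝ) (N : ℕ) (g : Fin N → ℝ × E3 → ℝ) (M k : ℕ)
    (i : Fin N) : A3_J J J' N g M k ((i : ℕ) + 1) =
      fun p => A3_J J J' N g M k i p + (1 / (M : ℝ)) * g i p := by
  funext p
  have e1 : Finset.univ.filter (fun j : Fin N => (j : ℕ) < (i : ℕ) + 1) =
      insert i (Finset.univ.filter (fun j : Fin N => (j : ℕ) < (i : ℕ))) := by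
    ext j
    simp only [Finset.mem_filter, Finset.mem_univ, true_and, Finset.mem_insert]
    rw [Nat.lt_succ_iff, le_iff_eq_or_lt, Fin.ext_iff]
  have e2 : i ∉ Finset.univ.filter (fun j : Fin N => (j : ℕ) < (i : ℕ)) := by simp
  simp only [A3_J, e1, Finset.sum_insert e2]
  ring

private lemma A3_J_lower (J J' : ℝ × E3 → ℝ) (N : ℕ) (g : Fin N → ℝ × E3 → ℝ) (M k i : ℕ)
    (hM : 0 < M) (hk : k < M) (ι : ℝ) (C : ℝ) (hC : 0 ≤ C)
    (hg : ∀ i p, |g i p| ≤ C) (hb : (N : ℝ) * C / M ≤ ι / 2)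
    (h1 : ∀ p, ι ≤ J p) (h2 : ∀ p, ι ≤ J' p) (p : ℝ × E3) :
    ι / 2 ≤ A3_J J J' N g M k i p := by
  have hM' : (0 : ℝ) < M := by exact_mod_cast hM
  have a0 : 0 ≤ (k : ℝ) / M := by positivity
  have a1 : (k : ℝ) / M ≤ 1 := by
    rw [div_le_one hM']
    exact_mod_cast hk.le
  have b1 : ι ≤ J p + ((k : ℝ) / M) * (J' p - J p) := by
    nlinarith [h1 p, h2 p]
  have b2 : |∑ j ∈ Finset.univ.filter (fun j : Fin N => (j : ℕ) < i), g j p| ≤ N * C := by
    calc |∑ j ∈ Finset.univ.filter (fun j : Fin N => (j : ℕ) < i), g j p|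
        ≤ ∑ j ∈ Finset.univ.filter (fun j : Fin N => (j : ℕ) < i), |g j p| :=
          Finset.abs_sum_le_sum_abs _ _
      _ ≤ ∑ j ∈ Finset.univ.filter (fun j : Fin N => (j : ℕ) < i), C :=
          Finset.sum_le_sum fun j _ => hg j p
      _ ≤ ∑ _j : Fin N, C :=
          Finset.sum_le_sum_of_subset_of_nonneg (Finset.filter_subset _ _) fun _ _ _ => hC
      _ = N * C := by simp
  have b3 : -(ι / 2) ≤ (1 / (M : ℝ)) *
      ∑ j ∈ Finset.univ.filter (fun j : Fin N => (j : ℕ) < i), g j p := by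
    have b4 := (abs_le.1 b2).1
    have b5 : (1 / (M : ℝ)) * (-(N * C)) ≤ (1 / (M : ℝ)) *
        ∑ j ∈ Finset.univ.filter (fun j : Fin N => (j : ℕ) < i), g j p :=
      mul_le_mul_of_nonneg_left b4 (by positivity)
    have b6 : (1 / (M : ℝ)) * (-(N * C)) = -(N * C / M) := by ring
    linarith
  unfold A3_J
  linarith

/-- A3.2 (Moser lemma with a parameter). `h = J' - J = ∑_{i<N} g i` (`A31`), `|g i| ≤ C'`; `c i > 0`
the constants of `A23` for the boxes. `M ≥ 1` so large that `N C' / M ≤ ι / 2` and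
`C' / M ≤ c i * (ι / 2)` for all `i`. For `k < M`, `i ≤ N` let
`J^{k,i} = J + (k/M) h + (1/M) ∑_{j<i} g j ≥ ι / 2` (`J + (k/M) h = (1 - k/M) J + (k/M) J' ≥ ι`).
`J^{k,i} → J^{k,i+1} = J^{k,i} + (1/M) g i` is `A23` (constant `ι/2`), monotone in the box
(`Stp.mono`, with `S = {s | ∀ x, h (s,x) = 0}`), and `J^{k,N} = J^{k+1,0}`, `J^{0,0} = J`,
`J^{M,0} = J'`. Compose by `Stp.trans` (induction on `i` and on `k`). -/
theorem A3stp (U : Set E3) (hU : IsOpen U) (hc : IsConnected U) (K : Set E3) (hK : IsCompact K)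
    (hKU : K ⊆ U) (J J' : ℝ × E3 → ℝ) (hJ : ContDiff ℝ smo J) (hJ' : ContDiff ℝ smo J')
    (ι : ℝ) (hι : 0 < ι) (h1 : ∀ p, ι ≤ J p) (h2 : ∀ p, ι ≤ J' p)
    (h3 : ∀ s x, x ∉ K → J (s, x) = J' (s, x)) (C : ℝ) (h4 : ∀ p, |J p - J' p| ≤ C)
    (h5 : ∀ s, ∫ x, (J (s, x) - J' (s, x)) = 0) :
    Stp U {s | ∀ x, J (s, x) = J' (s, x)} J J' := by
  have hd : ∀ p, |J' p - J p| ≤ C := fun p => by
    rw [abs_sub_comm]
    exact h4 p
  have hi0 : ∀ s, ∫ x, (J' (s, x) - J (s, x)) = 0 := by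
    intro s
    have e : (fun x => J' (s, x) - J (s, x)) = fun x => -(J (s, x) - J' (s, x)) := by
      funext x
      ring
    rw [e, integral_neg, h5 s, neg_zero]
  obtain ⟨N, g, a, b, a', b', C', hS, hgs, hgb, hg0, hgi, hgz, hsum⟩ :=
    A31 U hU hc K hK hKU (fun p => J' p - J p) (hJ'.sub hJ) C hd
      (fun s x hx => by simp only [h3 s x hx, sub_self]) hi0
  choose c hc0 hcs using fun i : Fin N =>
    A23 (a i) (b i) (a' i) (b' i) (hS i).1 (hS i).2.1 (hS i).2.2.1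
  set C2 : ℝ := |C'| with hC2
  have hC20 : 0 ≤ C2 := abs_nonneg _
  have hgb2 : ∀ i p, |g i p| ≤ C2 := fun i p => (hgb i p).trans (le_abs_self _)
  obtain ⟨M, hM⟩ : ∃ M : ℕ, 0 < M ∧ (N : ℝ) * C2 / M ≤ ι / 2 ∧
      ∀ i, C2 / M ≤ c i * (ι / 2) := by
    obtain ⟨M0, hM0⟩ := exists_nat_gt ((N : ℝ) * C2 / (ι / 2) + ∑ i, C2 / (c i * (ι / 2)))
    have hsn : ∀ i ∈ (Finset.univ : Finset (Fin N)), 0 ≤ C2 / (c i * (ι / 2)) := by
      intro i _
      have := hc0 i
      positivity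
    have hs0 : 0 ≤ ∑ i, C2 / (c i * (ι / 2)) := Finset.sum_nonneg hsn
    have hN0 : 0 ≤ (N : ℝ) * C2 / (ι / 2) := by positivity
    have hM1 : (0 : ℝ) < M0 := lt_of_le_of_lt (by positivity) hM0
    refine ⟨M0, by exact_mod_cast hM1, ?_, ?_⟩
    · rw [div_le_iff₀ hM1]
      have : (N : ℝ) * C2 / (ι / 2) ≤ M0 := by linarith
      rw [div_le_iff₀ (by positivity)] at this
      linarith
    · intro i
      have h6 : C2 / (c i * (ι / 2)) ≤ ∑ i, C2 / (c i * (ι / 2)) :=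
        Finset.single_le_sum hsn (Finset.mem_univ i)
      have : C2 / (c i * (ι / 2)) ≤ M0 := by linarith
      have hci := hc0 i
      rw [div_le_iff₀ (by positivity)] at this
      rw [div_le_iff₀ hM1]
      linarith
  obtain ⟨hM0, hMN, hMc⟩ := hM
  have hM' : (0 : ℝ) < M := by exact_mod_cast hM0
  have step : ∀ k, k < M → ∀ i : Fin N,
      Stp U {s | ∀ x, J (s, x) = J' (s, x)} (A3_J J J' N g M k i)
        (A3_J J J' N g M k ((i : ℕ) + 1)) := by
    intro k hk i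
    rw [A3_J_succ]
    have h7 := hcs i (A3_J J J' N g M k i) (fun p => (1 / (M : ℝ)) * g i p) (ι / 2)
      (A3_J_smooth J J' hJ hJ' N g hgs M k i) (contDiff_const.mul (hgs i)) (by positivity)
      (A3_J_lower J J' N g M k i hM0 hk ι C2 hC20 hgb2 hMN h1 h2)
      (fun s x hx => by simp only [hg0 i s x hx, mul_zero])
      (fun s => by rw [integral_const_mul, hgi i s, mul_zero])
      (fun p => by
        rw [abs_mul, abs_of_nonneg (by positivity : (0 : ℝ) ≤ 1 / (M : ℝ))]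
        calc 1 / (M : ℝ) * |g i p| ≤ 1 / (M : ℝ) * C2 :=
              mul_le_mul_of_nonneg_left (hgb2 i p) (by positivity)
          _ = C2 / M := by ring
          _ ≤ c i * (ι / 2) := hMc i)
    refine h7.mono (hS i).2.2.2 ?_
    intro s hs x
    have h8 : g i (s, x) = 0 := by
      refine hgz i s ?_ x
      intro y
      have := hs y
      simp only [this, sub_self]
    simp only [h8, mul_zero]
  have stepi : ∀ k, k < M → ∀ i, i ≤ N →
      Stp U {s | ∀ x, J (s, x) = J' (s, x)} (A3_J J J' N g M k 0) (A3_J J J' N g M k i) := by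
    intro k hk i
    induction i with
    | zero => intro _; exact Stp.refl _ _ _
    | succ i ih =>
      intro hi
      exact (ih (Nat.le_of_succ_le hi)).trans (step k hk ⟨i, hi⟩)
  have stepk : ∀ k, k ≤ M →
      Stp U {s | ∀ x, J (s, x) = J' (s, x)} J (A3_J J J' N g M k 0) := by
    intro k
    induction k with
    | zero =>
      intro _
      rw [A3_J_zero]
      exact Stp.refl _ _ _
    | succ k ih =>
      intro hk
      rw [← A3_J_next J J' N g hsum M k]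
      exact (ih (Nat.le_of_succ_le hk)).trans (stepi k hk N le_rfl)
  have := stepk M le_rfl
  rwa [A3_J_last J J' N g M hM0] at this

theorem A3 (U : Set E3) (hU : IsOpen U) (hc : IsConnected U) (K : Set E3) (hK : IsCompact K)
    (hKU : K ⊆ U) (J J' : ℝ × E3 → ℝ) (hJ : ContDiff ℝ smo J) (hJ' : ContDiff ℝ smo J')
    (ι : ℝ) (hι : 0 < ι) (h1 : ∀ p, ι ≤ J p) (h2 : ∀ p, ι ≤ J' p)
    (h3 : ∀ s x, x ∉ K → J (s, x) = J' (s, x)) (C : ℝ) (h4 : ∀ p, |J p - J' p| ≤ C)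
    (h5 : ∀ s, ∫ x, (J (s, x) - J' (s, x)) = 0) :
    ∃ m : ℝ → Equiv.Perm E3, Fam U m ∧
      (∀ s x, J (s, m s x) * jac (fun y => m s y) x = J' (s, x)) ∧
      ∀ s, (∀ x, J (s, x) = J' (s, x)) → m s = 1 :=
  A3stp U hU hc K hK hKU J J' hJ hJ' ι hι h1 h2 h3 C h4 h5

/-- A3.3. Apply `A3` with `J(s,x) = J(x)` and `J'(s,x) = J(x) + h(s) (J'(x) - J(x))`, `h` the smooth
step (`exists_step`; values in `[0,1]`, so `J'(s,x) ≥ ι`; the difference is bounded because
`J - J'` is continuous with compact support), giving `m`; the isotopy is `F s := m (h s)` (`m` need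
not be constant for `s ≥ 1`; `Fam.toInIso`), `F 1 = m 1`, `F 0 = m 0 = 1` because
`J'(0,·) = J(0,·)`. -/
theorem A3' (U : Set E3) (hU : IsOpen U) (hc : IsConnected U) (K : Set E3) (hK : IsCompact K)
    (hKU : K ⊆ U) (J J' : E3 → ℝ) (hJ : ContDiff ℝ smo J) (hJ' : ContDiff ℝ smo J')
    (ι : ℝ) (hι : 0 < ι) (h1 : ∀ p, ι ≤ J p) (h2 : ∀ p, ι ≤ J' p)
    (h3 : ∀ x, x ∉ K → J x = J' x) (h5 : ∫ x, (J x - J' x) = 0) :
    ∃ m : Equiv.Perm E3, InIso U m ∧ ∀ x, J (m x) * jac (fun y => m y) x = J' x := by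
  obtain ⟨η, hη, hη01, hη0, hη1⟩ := exists_step
  obtain ⟨C, hC⟩ : ∃ C, ∀ x, |J' x - J x| ≤ C := by
    obtain ⟨C, hC⟩ := hK.exists_bound_of_continuousOn
      (f := fun x => J' x - J x) (hJ'.continuous.sub hJ.continuous).continuousOn
    refine ⟨|C|, fun x => ?_⟩
    by_cases hx : x ∈ K
    · exact (hC x hx).trans (le_abs_self C)
    · rw [h3 x hx, sub_self, abs_zero]
      exact abs_nonneg C
  obtain ⟨m, hm, hmJ, hm1⟩ := A3 U hU hc K hK hKU (fun p => J p.2)
    (fun p => J p.2 + η p.1 * (J' p.2 - J p.2)) (hJ.comp contDiff_snd)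
    ((hJ.comp contDiff_snd).add ((hη.comp contDiff_fst).mul
      ((hJ'.comp contDiff_snd).sub (hJ.comp contDiff_snd)))) ι hι (fun p => h1 p.2)
    (fun p => by
      have a0 := (hη01 p.1).1
      have a1 := (hη01 p.1).2
      have b1 := h1 p.2
      have b2 := h2 p.2
      nlinarith)
    (fun s x hx => by simp only [h3 x hx, sub_self, mul_zero, add_zero]) C
    (fun p => by
      have e : J p.2 - (J p.2 + η p.1 * (J' p.2 - J p.2)) = -(η p.1 * (J' p.2 - J p.2)) := by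
        ring
      rw [e, abs_neg, abs_mul, abs_of_nonneg (hη01 p.1).1]
      calc η p.1 * |J' p.2 - J p.2| ≤ 1 * |J' p.2 - J p.2| :=
            mul_le_mul_of_nonneg_right (hη01 p.1).2 (abs_nonneg _)
        _ ≤ C := by
            rw [one_mul]
            exact hC p.2)
    (fun s => by
      have e : (fun x => J x - (J x + η s * (J' x - J x))) =
          fun x => η s * (J x - J' x) := by
        funext x
        ring
      simp only [e]
      rw [integral_const_mul, h5, mul_zero])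
  refine ⟨m 1, hm.toInIso (hm1 0 fun x => ?_), fun x => ?_⟩
  · simp only [hη0 0 le_rfl, zero_mul, add_zero]
  · have := hmJ 1 x
    simp only [hη1 1 le_rfl, one_mul] at this
    rw [this]
    ring

end Pool.Agent.QM59
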