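import Mathlib
import Pool.Agent.Lib.MP_decea1_gt_A.Iso1

/-!
# MP_decea1_gt, block A, module Meas: change of variables (A0.3)

Mathlib: `MeasureTheory.lintegral_abs_det_fderiv_eq_addHaar_image`,
`MeasureTheory.integral_image_eq_integral_abs_det_fderiv_smul`.
-/

set_option autoImplicit false

open MeasureTheory Set Filter Topology

namespace Pool.Agent.QM59

private theorem Meas_lin {f : Equiv.Perm E3} (hf : IsDif f) (A : Set E3) (hA : MeasurableSet A) :
    ∫⁻ x in A, ENNReal.ofReal |jac (fun y => f y) x| = volume (f '' A) :=
  lintegral_abs_det_fderiv_eq_addHaar_image volume hA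
    (fun x _ => (hf.differentiable x).hasFDerivAt.hasFDerivWithinAt) f.injective.injOn

theorem lintegral_jac {f : Equiv.Perm E3} (hf : IsDif f) (hp : ∀ x, 0 < jac (fun y => f y) x)
    (A : Set E3) (hA : MeasurableSet A) :
    volume (f '' A) = ∫⁻ x in A, ENNReal.ofReal (jac (fun y => f y) x) := by
  rw [← Meas_lin hf A hA]
  refine setLIntegral_congr_fun hA fun x _ => ?_
  rw [abs_of_pos (hp x)]

theorem integral_image {f : Equiv.Perm E3} (hf : IsDif f) (hp : ∀ x, 0 < jac (fun y => f y) x)
    (A : Set E3) (hA : MeasurableSet A) (g : E3 → ℝ) :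
    ∫ y in f '' A, g y = ∫ x in A, jac (fun y => f y) x * g (f x) := by
  have h := integral_image_eq_integral_abs_det_fderiv_smul volume hA
    (fun x _ => (hf.differentiable x).hasFDerivAt.hasFDerivWithinAt) f.injective.injOn g
  rw [h]
  refine setIntegral_congr_fun hA fun x _ => ?_
  simp only [smul_eq_mul]
  rw [show (fderiv ℝ (fun y => f y) x).det = jac (fun y => f y) x from rfl, abs_of_pos (hp x)]

/-- local version: `jac = 1` on the measurable set `A`. -/
theorem volume_image_of_jac {f : Equiv.Perm E3} (hf : IsDif f) (A : Set E3)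
    (hA : MeasurableSet A) (h : ∀ x ∈ A, jac (fun y => f y) x = 1) :
    volume (f '' A) = volume A := by
  rw [← Meas_lin hf A hA, setLIntegral_congr_fun (g := fun _ => 1) hA]
  · simp
  · intro x hx
    simp only
    rw [h x hx]
    simp

theorem Vol.measurePreserving {f : Equiv.Perm E3} (hf : IsDif f) (h : Vol f) :
    MeasurePreserving (fun y => f y) volume volume := by
  refine ⟨hf.1.continuous.measurable, ?_⟩
  ext A hA
  rw [Measure.map_apply hf.1.continuous.measurable hA]
  have h1 : MeasurableSet ((fun y => f y) ⁻¹' A) := hf.1.continuous.measurable hA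
  have h2 := volume_image_of_jac hf _ h1 fun x _ => h x
  rw [← h2]
  congr 1
  exact f.image_preimage A

theorem Vol.volume_image {f : Equiv.Perm E3} (hf : IsDif f) (h : Vol f) (A : Set E3) :
    volume (f '' A) = volume A := by
  obtain ⟨e, he, he'⟩ := hf.exists_homeo
  have h1 : MeasurePreserving e.toMeasurableEquiv volume volume := by
    have h2 := Vol.measurePreserving hf h
    have h3 : (fun y => f y) = e.toMeasurableEquiv := by
      funext y
      exact (he y).symm
    rwa [← h3]
  have h4 := h1.measure_preimage_equiv (f '' A)
  rw [← h4]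
  congr 1
  ext x
  constructor
  · rintro ⟨y, hy, hyx⟩
    have : f y = f x := by rw [hyx]; exact he x
    rwa [← f.injective this]
  · intro hx
    exact ⟨x, hx, (he x).symm⟩

/-- converse for maps with compact support: `jac > 0` everywhere (`IsDif.jac_pos`), and by
`lintegral_jac` the continuous function `jac - 1` has integral `0` over every small ball. -/
theorem vol_of_measurePreserving {f : Equiv.Perm E3} (hf : IsDif f) (K : Set E3)
    (hK : IsCompact K) (h : IdOff K f)
    (hm : MeasurePreserving (fun y => f y) volume volume) : Vol f := by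
  have hp := hf.jac_pos K hK h
  have hjc : Continuous (jac (fun y => f y)) := (contDiff_jac _ hf.1).continuous
  have him : ∀ A : Set E3, MeasurableSet A → volume (f '' A) = volume A := by
    intro A hA
    have h1 : MeasurableSet (f '' A) := by
      rw [show f '' A = (fun y => f.symm y) ⁻¹' A from f.image_eq_preimage_symm A]
      exact hf.2.continuous.measurable hA
    have h2 := hm.measure_preimage h1.nullMeasurableSet
    rw [← h2]
    congr 1
    exact (f.preimage_image A)
  have hae : (fun x => ENNReal.ofReal (jac (fun y => f y) x)) =ᵐ[volume] fun _ => 1 := by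
    refine ae_eq_of_forall_setLIntegral_eq_of_sigmaFinite₀ ?_ ?_ fun A hA _ => ?_
    · exact hjc.measurable.ennreal_ofReal.aemeasurable
    · exact aemeasurable_const
    · rw [← lintegral_jac hf hp A hA, him A hA]
      simp
  have hae2 : (jac (fun y => f y)) =ᵐ[volume] fun _ => (1 : ℝ) := by
    filter_upwards [hae] with x hx
    have := hp x
    have h3 := congrArg ENNReal.toReal hx
    rwa [ENNReal.toReal_ofReal this.le, ENNReal.toReal_one] at h3
  have h5 := (Continuous.ae_eq_iff_eq volume hjc continuous_const).mp hae2
  intro x
  exact congrFun h5 x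

/-- the same over a measurable set `V` of finite volume whose image has the same volume. -/
theorem setIntegral_jac_sub_one {f : Equiv.Perm E3} (hf : IsDif f)
    (hp : ∀ x, 0 < jac (fun y => f y) x) (V : Set E3) (hV : MeasurableSet V)
    (hfin : volume V ≠ ⊤) (hi : volume (f '' V) = volume V) :
    ∫ x in V, (jac (fun y => f y) x - 1) = 0 := by
  have hjc : Continuous (jac (fun y => f y)) := (contDiff_jac _ hf.1).continuous
  have h1 := lintegral_jac hf hp V hV
  rw [hi] at h1
  have hint : IntegrableOn (jac (fun y => f y)) V volume := by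
    refine ⟨hjc.aestronglyMeasurable, ?_⟩
    rw [hasFiniteIntegral_iff_ofReal (Eventually.of_forall fun x => (hp x).le), ← h1]
    exact hfin.lt_top
  have hc : IntegrableOn (fun _ : E3 => (1 : ℝ)) V volume := integrableOn_const hfin
  rw [integral_sub hint hc]
  rw [integral_eq_lintegral_of_nonneg_ae (Eventually.of_forall fun x => (hp x).le)
    hjc.aestronglyMeasurable, ← h1]
  simp [Measure.real]

/-- `f` maps every box (or ball) containing `K` onto itself; `lintegral_jac` or
`integral_image` with `g = 1`; off the closed set `K` the integrand is `0`. -/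
theorem integral_jac_sub_one {f : Equiv.Perm E3} (hf : IsDif f) (K : Set E3)
    (hK : IsCompact K) (h : IdOff K f) : ∫ x, (jac (fun y => f y) x - 1) = 0 := by
  have h1 := setIntegral_jac_sub_one hf (hf.jac_pos K hK h) K hK.measurableSet
    hK.measure_lt_top.ne (by rw [h.image_eq subset_rfl])
  rw [← h1, setIntegral_eq_integral_of_forall_compl_eq_zero]
  intro x hx
  rw [h.jac_eq_one hK.isClosed x hx, sub_self]

end Pool.Agent.QM59
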