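import Mathlib
import Pool.Agent.Lib.MP_decea1_gt_A.A3
import Pool.Agent.Lib.MP_decea1_gt_A.Meas

/-!
# MP_decea1_gt, block A, module A4 (MOS): making a map volume preserving off a compact set
-/

set_option autoImplicit false

open MeasureTheory Set Filter Topology

namespace Pool.Agent.QM59

/-- the union of the first `k` pieces -/
private def a4_S {r : ℕ} (V : Fin r → Set E3) (k : ℕ) : Set E3 :=
  {x | ∃ i : Fin r, i.1 < k ∧ x ∈ V i}

open Classical in
/-- the function `J`, replaced by `1` on the first `k` pieces -/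
private noncomputable def a4_J {r : ℕ} (V : Fin r → Set E3) (J : E3 → ℝ) (k : ℕ) (x : E3) : ℝ :=
  if x ∈ a4_S V k then 1 else J x

private theorem a4_open {r : ℕ} (V : Fin r → Set E3) (hV : ∀ i, IsOpen (V i)) (k : ℕ) :
    IsOpen (a4_S V k) := by
  have h1 : a4_S V k = ⋃ i : Fin r, ⋃ _ : i.1 < k, V i := by
    ext x
    simp only [a4_S, mem_ofPred_eq, mem_iUnion, exists_prop]
  rw [h1]
  exact isOpen_iUnion fun i => isOpen_iUnion fun _ => hV i

private theorem a4_pos {r : ℕ} {V : Fin r → Set E3} {J : E3 → ℝ} {k : ℕ} {x : E3}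
    (h : x ∈ a4_S V k) : a4_J V J k x = 1 := if_pos h

private theorem a4_neg {r : ℕ} {V : Fin r → Set E3} {J : E3 → ℝ} {k : ℕ} {x : E3}
    (h : x ∉ a4_S V k) : a4_J V J k x = J x := if_neg h

private theorem a4_eq {r : ℕ} (V : Fin r → Set E3) (J : E3 → ℝ) (k : ℕ) (x : E3)
    (h : J x = 1) : a4_J V J k x = 1 := by
  by_cases hx : x ∈ a4_S V k
  · exact a4_pos hx
  · rw [a4_neg hx, h]

private theorem a4_smooth {r : ℕ} (V : Fin r → Set E3) (hV : ∀ i, IsOpen (V i))
    (hd : Pairwise fun i j => Disjoint (V i) (V j)) (J : E3 → ℝ) (hJ : ContDiff ℝ smo J)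
    (T : Set E3) (hT : IsClosed T) (hJT : ∀ x, x ∉ T → J x = 1) (hTV : T ⊆ ⋃ i, V i) (k : ℕ) :
    ContDiff ℝ smo (a4_J V J k) := by
  rw [contDiff_iff_contDiffAt]
  intro x
  by_cases hx : x ∈ a4_S V k
  · refine (contDiffAt_const (c := (1 : ℝ))).congr_of_eventuallyEq ?_
    filter_upwards [(a4_open V hV k).mem_nhds hx] with y hy
    exact a4_pos hy
  · by_cases hxT : x ∈ T
    · obtain ⟨j, hj⟩ := mem_iUnion.1 (hTV hxT)
      refine hJ.contDiffAt.congr_of_eventuallyEq ?_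
      filter_upwards [(hV j).mem_nhds hj] with y hy
      refine a4_neg ?_
      rintro ⟨i, hi, hyi⟩
      by_cases hij : i = j
      · subst hij
        exact hx ⟨i, hi, hj⟩
      · exact Set.disjoint_left.1 (hd hij) hyi hy
    · refine (contDiffAt_const (c := (1 : ℝ))).congr_of_eventuallyEq ?_
      filter_upwards [hT.isOpen_compl.mem_nhds hxT] with y hy
      exact a4_eq V J k y (hJT y hy)

/-- a positive lower bound -/
private theorem a4_low (J : E3 → ℝ) (hJ : Continuous J) (hp : ∀ x, 0 < J x) (T : Set E3)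
    (hT : IsCompact T) (hJT : ∀ x, x ∉ T → J x = 1) :
    ∃ ι : ℝ, 0 < ι ∧ ι ≤ 1 ∧ ∀ x, ι ≤ J x := by
  rcases T.eq_empty_or_nonempty with h0 | h0
  · refine ⟨1, one_pos, le_rfl, fun x => (hJT x ?_).symm.le⟩
    rw [h0]
    exact notMem_empty x
  · obtain ⟨x0, _, hx0⟩ := hT.exists_isMinOn h0 hJ.continuousOn
    refine ⟨min 1 (J x0), lt_min one_pos (hp x0), min_le_left _ _, fun x => ?_⟩
    by_cases hx : x ∈ T
    · exact (min_le_right _ _).trans (hx0 hx)
    · rw [hJT x hx]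
      exact min_le_left _ _

/-- Strong form of A4: the correction `m` is supported in a compact subset of `U \ K`.
`J = jac F` is smooth and positive (`InIso.jac_pos`); `F` is the identity off a compact `KF ⊆ U`, so
`J = 1` off `T := KF \ W`, which is compact and contained in `U \ K = ⋃ V i`; so `J ≥ ι` for some
`ι > 0`, `ι ≤ 1`. For `k ≤ r` let `J^k x = 1` if `x ∈ V i` for some `i < k`, and `J^k x = J x`
otherwise. `J^k` is smooth (near a point of the open set `V i` it is `1` or `J`, near a point off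
the compact set `T` it is `1`, and `T ⊆ ⋃ V i`), `≥ ι`. `J^0 = J`, `J^r = 1` (off `⋃ V i` we have
`J = 1`). `J^k` and `J^{k+1}` differ only in `V k`, in fact in `T ∩ V k = T \ ⋃_{i≠k} V i`, which is
compact, and `∫ (J^k - J^{k+1}) = ∫_{V k} (J - 1) = 0`. `A3'` in the connected open set `V k` gives
`Stp0 (V k) J^k J^{k+1}`; `Stp0.mono`, `Stp0.trans` give `Stp0 (U \ K) J 1`, i.e. `m` with
`jac F (m x) * jac m x = 1`, which is `Vol (F * m)`. -/
theorem A4m (U : Set E3) (hU : IsOpen U) (K : Set E3) (hK : IsCompact K) (hKU : K ⊆ U) (r : ℕ)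
    (V : Fin r → Set E3) (hV : ∀ i, IsOpen (V i)) (hVc : ∀ i, IsConnected (V i))
    (hd : Pairwise fun i j => Disjoint (V i) (V j)) (hUV : U \ K = ⋃ i, V i)
    (F : Equiv.Perm E3) (hF : InIso U F) (W : Set E3) (hW : IsOpen W) (hKW : K ⊆ W)
    (h1 : ∀ x ∈ W, jac (fun y => F y) x = 1)
    (h0 : ∀ i, ∫ x in V i, (jac (fun y => F y) x - 1) = 0) :
    ∃ m : Equiv.Perm E3, InIso (U \ K) m ∧ Vol (F * m) := by
  obtain ⟨J, hJd⟩ : ∃ J : E3 → ℝ, J = jac (fun y => F y) := ⟨_, rfl⟩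
  have hJ : ContDiff ℝ smo J := by
    rw [hJd]
    exact contDiff_jac _ hF.isDif.1
  have hp : ∀ x, 0 < J x := fun x => by
    rw [hJd]
    exact hF.jac_pos x
  obtain ⟨KF, hKFU, hKF, hid⟩ := hF.supp
  have hT : IsCompact (KF \ W) := hKF.diff hW
  have hJT : ∀ x, x ∉ KF \ W → J x = 1 := fun x hx => by
    rw [hJd]
    by_cases hxW : x ∈ W
    · exact h1 x hxW
    · exact IdOff.jac_eq_one hKF.isClosed hid x fun hh => hx ⟨hh, hxW⟩
  have hTV : KF \ W ⊆ ⋃ i, V i := by
    rw [← hUV]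
    exact fun x hx => ⟨hKFU hx.1, fun hh => hx.2 (hKW hh)⟩
  obtain ⟨ι, hι, hι1, hιJ⟩ := a4_low J hJ.continuous hp _ hT hJT
  have hs := a4_smooth V hV hd J hJ _ hT.isClosed hJT hTV
  have hb : ∀ k x, ι ≤ a4_J V J k x := fun k x => by
    by_cases hx : x ∈ a4_S V k
    · rw [a4_pos hx]
      exact hι1
    · rw [a4_neg hx]
      exact hιJ x
  have key : ∀ k, k ≤ r → Stp0 (U \ K) (a4_J V J 0) (a4_J V J k) := by
    intro k
    induction k with
    | zero => intro _; exact Stp0.refl _ _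
    | succ k ih =>
      intro hk
      refine (ih (by omega)).trans ?_
      have hkr : k < r := hk
      have hVU : V ⟨k, hkr⟩ ⊆ U \ K := by
        rw [hUV]
        exact subset_iUnion V _
      have hS : ∀ x, x ∈ V ⟨k, hkr⟩ → x ∉ a4_S V k := fun x hx => by
        rintro ⟨i, hi, hxi⟩
        have hij : i ≠ ⟨k, hkr⟩ := fun hh => by
          rw [hh] at hi
          exact lt_irrefl _ hi
        exact Set.disjoint_left.1 (hd hij) hxi hx
      have hS1 : ∀ x, x ∈ V ⟨k, hkr⟩ → x ∈ a4_S V (k + 1) := fun x hx =>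
        ⟨⟨k, hkr⟩, Nat.lt_succ_self k, hx⟩
      have hS2 : ∀ x, x ∉ V ⟨k, hkr⟩ → a4_J V J k x = a4_J V J (k + 1) x := fun x hx => by
        by_cases hxS : x ∈ a4_S V k
        · obtain ⟨i, hi, hxi⟩ := hxS
          rw [a4_pos ⟨i, hi, hxi⟩, a4_pos ⟨i, hi.trans (Nat.lt_succ_self k), hxi⟩]
        · rw [a4_neg hxS, a4_neg]
          rintro ⟨i, hi, hxi⟩
          rcases Nat.lt_succ_iff_lt_or_eq.1 hi with h2 | h2
          · exact hxS ⟨i, h2, hxi⟩
          · have h3 : i = ⟨k, hkr⟩ := Fin.ext h2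
            rw [h3] at hxi
            exact hx hxi
      have hcp : IsCompact ((KF \ W) ∩ V ⟨k, hkr⟩) := by
        have h2 : (KF \ W) ∩ V ⟨k, hkr⟩ = (KF \ W) \ ⋃ i : Fin r, ⋃ _ : i ≠ ⟨k, hkr⟩, V i := by
          ext x
          constructor
          · rintro ⟨hx1, hx2⟩
            refine ⟨hx1, fun hh => ?_⟩
            simp only [mem_iUnion] at hh
            obtain ⟨i, hi, hxi⟩ := hh
            exact Set.disjoint_left.1 (hd hi) hxi hx2
          · rintro ⟨hx1, hx2⟩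
            refine ⟨hx1, ?_⟩
            obtain ⟨j, hj⟩ := mem_iUnion.1 (hTV hx1)
            by_cases hjk : j = ⟨k, hkr⟩
            · rwa [hjk] at hj
            · exact absurd (mem_iUnion.2 ⟨j, mem_iUnion.2 ⟨hjk, hj⟩⟩) hx2
        rw [h2]
        exact hT.diff (isOpen_iUnion fun i => isOpen_iUnion fun _ => hV i)
      refine Stp0.mono (U := V ⟨k, hkr⟩) ?_ hVU
      refine A3' (V ⟨k, hkr⟩) (hV _) (hVc _) ((KF \ W) ∩ V ⟨k, hkr⟩) hcp inter_subset_right
        _ _ (hs k) (hs (k + 1)) ι hι (hb k) (hb (k + 1)) (fun x hx => ?_) ?_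
      · by_cases hxV : x ∈ V ⟨k, hkr⟩
        · have h2 : J x = 1 := hJT x fun hh => hx ⟨hh, hxV⟩
          rw [a4_eq V J k x h2, a4_eq V J (k + 1) x h2]
        · exact hS2 x hxV
      · have h2 : ∫ x in V ⟨k, hkr⟩, (a4_J V J k x - a4_J V J (k + 1) x) =
            ∫ x, (a4_J V J k x - a4_J V J (k + 1) x) :=
          setIntegral_eq_integral_of_forall_compl_eq_zero fun x hx => by
            rw [hS2 x hx, sub_self]
        rw [← h2, ← h0 ⟨k, hkr⟩]
        refine setIntegral_congr_fun (hV _).measurableSet fun x hx => ?_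
        change a4_J V J k x - a4_J V J (k + 1) x = jac (fun y => F y) x - 1
        rw [a4_neg (hS x hx), a4_pos (hS1 x hx), hJd]
  obtain ⟨m, hm, hm2⟩ := key r le_rfl
  refine ⟨m, hm, fun x => ?_⟩
  have e1 : ∀ y, a4_J V J 0 y = J y := fun y => a4_neg (by
    rintro ⟨i, hi, _⟩
    exact Nat.not_lt_zero _ hi)
  have e2 : ∀ y, a4_J V J r y = 1 := fun y => by
    by_cases hy : y ∈ a4_S V r
    · exact a4_pos hy
    · refine a4_eq V J r y (hJT y fun hh => hy ?_)
      obtain ⟨j, hj⟩ := mem_iUnion.1 (hTV hh)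
      exact ⟨j, j.2, hj⟩
  have e3 := hm2 x
  rw [e1, e2, hJd] at e3
  rw [IsDif.jac_mul hF.isDif hm.isDif]
  exact e3

/-- A4: `g = F * m`; `W'` is the complement of a compact subset of `U \ K` off which `m` is the
identity. -/
theorem A4 (U : Set E3) (hU : IsOpen U) (K : Set E3) (hK : IsCompact K) (hKU : K ⊆ U) (r : ℕ)
    (V : Fin r → Set E3) (hV : ∀ i, IsOpen (V i)) (hVc : ∀ i, IsConnected (V i))
    (hd : Pairwise fun i j => Disjoint (V i) (V j)) (hUV : U \ K = ⋃ i, V i)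
    (F : Equiv.Perm E3) (hF : InIso U F) (W : Set E3) (hW : IsOpen W) (hKW : K ⊆ W)
    (h1 : ∀ x ∈ W, jac (fun y => F y) x = 1)
    (h0 : ∀ i, ∫ x in V i, (jac (fun y => F y) x - 1) = 0) :
    ∃ g : Equiv.Perm E3, InIso U g ∧ Vol g ∧ ∃ W' : Set E3, IsOpen W' ∧ K ⊆ W' ∧
      ∀ x ∈ W', g x = F x := by
  obtain ⟨m, hm, hv⟩ := A4m U hU K hK hKU r V hV hVc hd hUV F hF W hW hKW h1 h0
  obtain ⟨L, hLU, hL, hid⟩ := hm.supp
  refine ⟨F * m, hF.mul (hm.mono sdiff_subset), hv, Lᶜ, hL.isClosed.isOpen_compl,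
    fun x hx hxL => (hLU hxL).2 hx, fun x hx => ?_⟩
  change F (m x) = F x
  rw [hid x hx]

/-- The case of one complementary piece (`r = 1`): the integral condition is automatic
(`integral_jac_sub_one`; the integrand vanishes on `K` and off `U`). -/
theorem A4one (U : Set E3) (hU : IsOpen U) (K : Set E3) (hK : IsCompact K) (hKU : K ⊆ U)
    (hc : IsConnected (U \ K)) (F : Equiv.Perm E3) (hF : InIso U F) (W : Set E3)
    (hW : IsOpen W) (hKW : K ⊆ W) (h1 : ∀ x ∈ W, jac (fun y => F y) x = 1) :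
    ∃ m : Equiv.Perm E3, InIso (U \ K) m ∧ Vol (F * m) := by
  obtain ⟨KF, hKFU, hKF, hid⟩ := hF.supp
  refine A4m U hU K hK hKU 1 (fun _ => U \ K) (fun _ => hU.sdiff hK.isClosed) (fun _ => hc)
    (fun i j hij => absurd (Subsingleton.elim i j) hij) (iUnion_const _).symm F hF W hW hKW h1
    fun _ => ?_
  rw [← integral_jac_sub_one hF.isDif KF hKF hid]
  refine setIntegral_eq_integral_of_forall_compl_eq_zero fun x hx => ?_
  have h2 : jac (fun y => F y) x = 1 := by
    by_cases hxK : x ∈ K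
    · exact h1 x (hKW hxK)
    · exact IdOff.jac_eq_one hKF.isClosed hid x fun hh => hx ⟨hKFU hh, hxK⟩
  rw [h2, sub_self]

end Pool.Agent.QM59
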