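import Mathlib
import Pool.Agent.Lib.MP_decea1_gt_A.A3
import Pool.Agent.Lib.MP_decea1_gt_A.Meas

/-!
# MP_decea1_gt, block A, module A5 (ISO): volume preserving isotopies, conjugation
-/

set_option autoImplicit false

open MeasureTheory Set Filter Topology

namespace Pool.Agent.QM59

/-- bounds for the Jacobian of an isotopy with volume preserving end point -/
private theorem A5_bounds {U : Set E3} {F : ℝ → Equiv.Perm E3} (hF : IsIso U F)
    (h1 : Vol (F 1)) (K : Set E3) (hK : IsCompact K) (hoff : ∀ s, IdOff K (F s)) :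
    ∃ ι C : ℝ, 0 < ι ∧ (∀ p : ℝ × E3, ι ≤ jac (fun y => F p.1 y) p.2) ∧
      (∀ p : ℝ × E3, |jac (fun y => F p.1 y) p.2| ≤ C) ∧ ι ≤ 1 ∧
      (∀ s x, (s ≤ 0 ∨ 1 ≤ s ∨ x ∉ K) → jac (fun y => F s y) x = 1) := by
  set J : ℝ × E3 → ℝ := fun p => jac (fun y => F p.1 y) p.2 with hJdef
  have hJ : ContDiff ℝ smo J := hF.toFam.contDiff_jac
  have hpos : ∀ p, 0 < J p := fun p => hF.toFam.jac_pos p.1 p.2
  have hone : ∀ s x, (s ≤ 0 ∨ 1 ≤ s ∨ x ∉ K) → jac (fun y => F s y) x = 1 := by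
    rintro s x (hs | hs | hx)
    · rw [hF.left s hs]
      exact jac_id x
    · rw [hF.right s hs]
      exact h1 x
    · exact (hoff s).jac_eq_one hK.isClosed x hx
  have hcpt : IsCompact (Icc (0 : ℝ) 1 ×ˢ K) := isCompact_Icc.prod hK
  obtain ⟨C1, hC1⟩ := hcpt.exists_bound_of_continuousOn (f := J) hJ.continuous.continuousOn
  obtain ⟨C2, hC2⟩ := hcpt.exists_bound_of_continuousOn (f := fun p => (J p)⁻¹)
    (hJ.continuous.inv₀ fun p => (hpos p).ne').continuousOn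
  have hM : (0 : ℝ) < max C2 1 := lt_of_lt_of_le one_pos (le_max_right _ _)
  have key : ∀ p : ℝ × E3, p ∉ Icc (0 : ℝ) 1 ×ˢ K → J p = 1 := by
    rintro ⟨s, x⟩ hp
    refine hone s x ?_
    by_contra hcon
    push Not at hcon
    exact hp ⟨⟨hcon.1.le, hcon.2.1.le⟩, hcon.2.2⟩
  refine ⟨(max C2 1)⁻¹, max C1 1, inv_pos.2 hM, fun p => ?_, fun p => ?_, ?_, hone⟩
  · change (max C2 1)⁻¹ ≤ J p
    by_cases hp : p ∈ Icc (0 : ℝ) 1 ×ˢ K
    · have h3 := hC2 p hp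
      rw [Real.norm_eq_abs, abs_of_pos (inv_pos.2 (hpos p))] at h3
      exact inv_le_of_inv_le₀ (hpos p) (h3.trans (le_max_left _ _))
    · rw [key p hp]
      exact inv_le_one_of_one_le₀ (le_max_right _ _)
  · change |J p| ≤ max C1 1
    by_cases hp : p ∈ Icc (0 : ℝ) 1 ×ˢ K
    · exact (hC1 p hp).trans (le_max_left _ _)
    · rw [key p hp, abs_one]
      exact le_max_right _ _
  · exact inv_le_one_of_one_le₀ (le_max_right _ _)

/-- A5. `J(s,x) = jac (F s) x`: smooth (`Fam.contDiff_jac`), positive, `= 1` off `ℝ × K`, constant in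
`s` for `s ≤ 0` and for `s ≥ 1`; so it is bounded and has a positive minimum (compactness of
`[0,1] × K`). `∫ (J(s,·) - 1) = 0` (`integral_jac_sub_one`). `A3` with `J' = 1` in the connected
open set `U` gives `m` with `J(s, m s x) * jac (m s) x = 1`, and `m s = 1` for `s ≤ 0` and `s ≥ 1`,
since there `J(s,·) = 1`. `F' s = F s * m s`. -/
theorem A5gen (U : Set E3) (hU : IsOpen U) (hc : IsConnected U) (F : ℝ → Equiv.Perm E3)
    (hF : IsIso U F) (h1 : Vol (F 1)) :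
    ∃ F' : ℝ → Equiv.Perm E3, IsIso U F' ∧ F' 1 = F 1 ∧ ∀ s, Vol (F' s) := by
  obtain ⟨K, hKU, hK, hoff⟩ := hF.supp
  obtain ⟨ι, C, hι, hlow, hup, hι1, hone⟩ := A5_bounds hF h1 K hK hoff
  obtain ⟨m, hm, hmJ, hm1⟩ := A3 U hU hc K hK hKU
    (fun p : ℝ × E3 => jac (fun y => F p.1 y) p.2) (fun _ => 1) hF.toFam.contDiff_jac
    contDiff_const ι hι hlow (fun _ => hι1)
    (fun s x hx => hone s x (Or.inr (Or.inr hx))) (C + 1)
    (fun p => by
      have := hup p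
      calc |jac (fun y => F p.1 y) p.2 - 1| ≤ |jac (fun y => F p.1 y) p.2| + |(1 : ℝ)| :=
            abs_sub _ _
        _ ≤ C + 1 := by rw [abs_one]; linarith)
    (fun s => integral_jac_sub_one (hF.toFam.isDif s) K hK (hoff s))
  have hml : ∀ s : ℝ, s ≤ 0 → m s = 1 := fun s hs =>
    hm1 s fun x => hone s x (Or.inl hs)
  have hmr : ∀ s : ℝ, 1 ≤ s → m s = 1 := fun s hs =>
    hm1 s fun x => hone s x (Or.inr (Or.inl hs))
  refine ⟨fun s => F s * m s, ⟨hF.toFam.mul hm, fun s hs => ?_, fun s hs => ?_⟩, ?_, fun s x => ?_⟩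
  · rw [hF.left s hs, hml s hs, mul_one]
  · rw [hF.right s hs, hmr s hs, hmr 1 le_rfl]
  · change F 1 * m 1 = F 1
    rw [hmr 1 le_rfl, mul_one]
  · change jac (fun y => (F s * m s) y) x = 1
    rw [(hF.toFam.isDif s).jac_mul (hm.isDif s) x]
    exact hmJ s x

theorem A5 (F : ℝ → Equiv.Perm E3) (hF : IsIso Cube F) (h1 : Vol (F 1)) :
    ∃ F' : ℝ → Equiv.Perm E3, IsIso Cube F' ∧ F' 1 = F 1 ∧ ∀ s, Vol (F' s) :=
  A5gen Cube isOpen_Cube isConnected_Cube F hF h1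

/-- A5'. `m⁻¹ * x * m * x⁻¹` is in `InIso Cube` (`InIso.normal`) and `Vol`, so in `Γ` (`Good.iso`). -/
theorem A5' (Γ : Subgroup (Equiv.Perm E3)) (hΓ : Good Γ) (m x : Equiv.Perm E3)
    (hm : InIso Cube m) (hx : x ∈ Γ) (hv : Vol (m⁻¹ * x * m)) : m⁻¹ * x * m ∈ Γ := by
  obtain ⟨K, hKC, hK, hxK⟩ := hΓ.supp x hx
  have hxd : IsDif x := hΓ.dif x hx
  have hn : InIso Cube (m⁻¹ * x * m * x⁻¹) := hm.normal hxd K hK hKC hxK
  have hvn : Vol (m⁻¹ * x * m * x⁻¹) :=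
    Vol.mul ((hm.isDif.inv.mul hxd).mul hm.isDif) hxd.inv hv (Vol.inv hxd (hΓ.vol x hx))
  have h := Γ.mul_mem (hΓ.iso _ hn hvn) hx
  rwa [inv_mul_cancel_right] at h

/-- If `K` is closed, `x` is the identity off `K` and volume preserving, and `m⁻¹` has Jacobian one
on `K`, then `m⁻¹ * x * m` is volume preserving: at a point `z` with `m z ∉ K` the map is the
identity near `z`; if `m z ∈ K`, then `x (m z) ∈ K`, and the Jacobian is
`jac m⁻¹ (x (m z)) * 1 * jac m z = 1 * jac m z = 1`, because `jac m z = (jac m⁻¹ (m z))⁻¹ = 1`. -/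
theorem vol_conj (K : Set E3) (hK : IsClosed K) (m x : Equiv.Perm E3) (hm : IsDif m)
    (hx : IsDif x) (hxK : IdOff K x) (hv : Vol x)
    (h1 : ∀ z ∈ K, jac (fun y => m⁻¹ y) z = 1) : Vol (m⁻¹ * x * m) := by
  have _ := hK
  intro z
  rw [(hm.inv.mul hx).jac_mul hm z, hm.inv.jac_mul hx (m z), hv (m z), mul_one]
  have hprod : jac (fun y => m⁻¹ y) (m z) * jac (fun y => m y) z = 1 := by
    rw [← hm.inv.jac_mul hm z, inv_mul_cancel]
    exact jac_id z
  by_cases hz : m z ∈ K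
  · rw [h1 _ ((hxK.mem_iff (m z)).2 hz)]
    rwa [h1 _ hz] at hprod
  · rw [hxK _ hz]
    exact hprod

end Pool.Agent.QM59
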