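import Mathlib
import Pool.Agent.Lib.MP_decea1_gt_A.Bump

/-!
# MP_decea1_gt, block A, module Hole: removing closed boxes from connected open sets
-/

set_option autoImplicit false

open MeasureTheory Set Filter Topology

namespace Pool.Agent.QM59

/-- An open box minus a closed box inside it is connected. -/
theorem isConnected_Box_diff_Icc (a b a' b' : E3) (h1 : ∀ j, a j < a' j) (h2 : ∀ j, a' j ≤ b' j)
    (h3 : ∀ j, b' j < b j) : IsConnected (Box a b \ Icc a' b') := by
  classical
  set L : Fin 3 → Set E3 := fun j => {x | x ∈ Box a b ∧ x j < a' j} with hL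
  set R : Fin 3 → Set E3 := fun j => {x | x ∈ Box a b ∧ b' j < x j} with hR
  have hLc : ∀ j, Convex ℝ (L j) := fun j => by
    have : L j = Box a b ∩ {x : E3 | x j < a' j} := by
      ext x; simp [hL]
    rw [this]
    exact (convex_Box a b).inter
      (convex_halfSpace_lt (f := fun x : E3 => x j) (LinearMap.proj j).isLinear _)
  have hRc : ∀ j, Convex ℝ (R j) := fun j => by
    have : R j = Box a b ∩ {x : E3 | b' j < x j} := by
      ext x; simp [hR]
    rw [this]
    exact (convex_Box a b).inter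
      (convex_halfSpace_gt (f := fun x : E3 => x j) (LinearMap.proj j).isLinear _)
  have hpL : ∀ j, (fun i => (a i + a' i) / 2) ∈ L j := fun j => by
    refine ⟨fun i => ⟨?_, ?_⟩, ?_⟩
    · have := h1 i; simp only; linarith
    · have := h1 i; have := h2 i; have := h3 i; simp only; linarith
    · have := h1 j; simp only; linarith
  have hqR : ∀ j, (fun i => (b i + b' i) / 2) ∈ R j := fun j => by
    refine ⟨fun i => ⟨?_, ?_⟩, ?_⟩
    · have := h1 i; have := h2 i; have := h3 i; simp only; linarith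
    · have := h3 i; simp only; linarith
    · have := h3 j; simp only; linarith
  have hUL : IsPreconnected (⋃ j, L j) :=
    isPreconnected_iUnion ⟨_, Set.mem_iInter.mpr hpL⟩ fun j => (hLc j).isPreconnected
  have hUR : IsPreconnected (⋃ j, R j) :=
    isPreconnected_iUnion ⟨_, Set.mem_iInter.mpr hqR⟩ fun j => (hRc j).isPreconnected
  have hS : Box a b \ Icc a' b' = (⋃ j, L j) ∪ ⋃ j, R j := by
    ext x
    constructor
    · rintro ⟨hx, hx2⟩
      by_contra hcon
      apply hx2
      rw [Set.mem_union, not_or, Set.mem_iUnion, Set.mem_iUnion, not_exists, not_exists] at hcon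
      exact ⟨fun i => not_lt.mp fun h => hcon.1 i ⟨hx, h⟩,
        fun i => not_lt.mp fun h => hcon.2 i ⟨hx, h⟩⟩
    · rintro (hx | hx)
      · obtain ⟨j, hj⟩ := Set.mem_iUnion.mp hx
        exact ⟨hj.1, fun h => absurd (h.1 j) (not_le.mpr hj.2)⟩
      · obtain ⟨j, hj⟩ := Set.mem_iUnion.mp hx
        exact ⟨hj.1, fun h => absurd (h.2 j) (not_le.mpr hj.2)⟩
  set r : E3 := fun i => if i = 1 then (b i + b' i) / 2 else (a i + a' i) / 2 with hr
  have hrB : r ∈ Box a b := fun i => by
    have := h1 i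
    have := h2 i
    have := h3 i
    by_cases hi : i = 1
    · simp only [hr, hi, if_true]
      subst hi
      constructor <;> linarith
    · simp only [hr, hi, if_false]
      constructor <;> linarith
  have hrL : r ∈ ⋃ j, L j := Set.mem_iUnion.mpr ⟨0, hrB, by
    have := h1 0
    simp only [hr]
    rw [if_neg (by decide)]
    linarith⟩
  have hrR : r ∈ ⋃ j, R j := Set.mem_iUnion.mpr ⟨1, hrB, by
    have := h3 1
    simp only [hr, if_true]
    linarith⟩
  rw [hS]
  exact ⟨⟨r, Or.inl hrL⟩, IsPreconnected.union r hrL hrR hUL hUR⟩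

/-- every closed box inside an open set has a slightly larger open box inside the set -/
theorem exists_Box_between (U : Set E3) (hU : IsOpen U) (a' b' : E3)
    (h : Icc a' b' ⊆ U) (hne : ∀ j, a' j ≤ b' j) :
    ∃ r : ℝ, 0 < r ∧ Box (fun j => a' j - r) (fun j => b' j + r) ⊆ U := by
  obtain ⟨δ, hδ, hδU⟩ := (isCompact_Icc (a := a') (b := b')).exists_thickening_subset_open hU h
  refine ⟨δ, hδ, fun x hx => hδU ?_⟩
  rw [Metric.mem_thickening_iff]
  refine ⟨fun j => max (a' j) (min (x j) (b' j)), ⟨fun j => le_max_left _ _,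
    fun j => max_le (hne j) (min_le_right _ _)⟩, ?_⟩
  rw [dist_pi_lt_iff hδ]
  intro j
  have h1 := (hx j).1
  have h2 := (hx j).2
  have h3 := hne j
  simp only at h1 h2 ⊢
  rw [Real.dist_eq, abs_lt]
  rcases le_total (x j) (b' j) with h4 | h4
  · rw [min_eq_left h4]
    rcases le_total (a' j) (x j) with h5 | h5
    · rw [max_eq_right h5]
      constructor <;> linarith
    · rw [max_eq_left h5]
      constructor <;> linarith
  · rw [min_eq_right h4, max_eq_right h3]
    constructor <;> linarith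

/-- removing a closed box from a connected open set -/
theorem isConnected_diff_Icc (U : Set E3) (hU : IsOpen U) (hc : IsConnected U) (a' b' : E3)
    (h : Icc a' b' ⊆ U) (hne : ∀ j, a' j ≤ b' j) : IsConnected (U \ Icc a' b') := by
  obtain ⟨r, hr, hrU⟩ := exists_Box_between U hU a' b' h hne
  set B : Set E3 := Box (fun j => a' j - r) (fun j => b' j + r) with hB
  have hBc : IsConnected (B \ Icc a' b') :=
    isConnected_Box_diff_Icc _ _ a' b' (fun j => by linarith) hne
      (fun j => by linarith)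
  have hBS : B \ Icc a' b' ⊆ U \ Icc a' b' := fun x hx => ⟨hrU hx.1, hx.2⟩
  have hcB : Icc a' b' ⊆ B := Icc_subset_Box _ _ a' b' (fun j => by linarith)
    (fun j => by linarith)
  have hSo : IsOpen (U \ Icc a' b') := hU.sdiff isClosed_Icc
  have hBo : IsOpen B := isOpen_Box _ _
  have key : ∀ u v : Set E3, IsOpen u → IsOpen v → U \ Icc a' b' ⊆ u ∪ v →
      (U \ Icc a' b') ∩ (u ∩ v) = ∅ → B \ Icc a' b' ⊆ u → U \ Icc a' b' ⊆ u := by
    intro u v hu hv huv hd hBu
    have h1 : IsOpen (u ∩ (U \ Icc a' b') ∪ B) := (hu.inter hSo).union hBo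
    have h2 : IsOpen (v ∩ (U \ Icc a' b')) := hv.inter hSo
    have hcov : U ⊆ (u ∩ (U \ Icc a' b') ∪ B) ∪ (v ∩ (U \ Icc a' b')) := by
      intro x hx
      by_cases hxc : x ∈ Icc a' b'
      · exact Or.inl (Or.inr (hcB hxc))
      · rcases huv ⟨hx, hxc⟩ with h | h
        · exact Or.inl (Or.inl ⟨h, hx, hxc⟩)
        · exact Or.inr ⟨h, hx, hxc⟩
    have hdis : U ∩ ((u ∩ (U \ Icc a' b') ∪ B) ∩ (v ∩ (U \ Icc a' b'))) = ∅ := by
      rw [Set.eq_empty_iff_forall_notMem]
      rintro x ⟨_, hx1, hxv, hxS⟩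
      have hxu : x ∈ u := by
        rcases hx1 with h | h
        · exact h.1
        · exact hBu ⟨h, hxS.2⟩
      have : x ∈ (U \ Icc a' b') ∩ (u ∩ v) := ⟨hxS, hxu, hxv⟩
      rw [hd] at this
      exact this
    rcases (isPreconnected_iff_subset_of_disjoint.mp hc.isPreconnected) _ _ h1 h2 hcov hdis
      with h | h
    · intro x hx
      rcases h hx.1 with h' | h'
      · exact h'.1
      · exact hBu ⟨h', hx.2⟩
    · exfalso
      have ha : a' ∈ Icc a' b' := ⟨le_refl _, hne⟩
      have := (h (hrU (hcB ha))).2.2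
      exact this ha
  refine ⟨hBc.nonempty.mono hBS, ?_⟩
  rw [isPreconnected_iff_subset_of_disjoint]
  intro u v hu hv huv hd
  have hBd : (B \ Icc a' b') ∩ (u ∩ v) = ∅ := by
    rw [Set.eq_empty_iff_forall_notMem]
    rintro x ⟨hx, hx2⟩
    have : x ∈ (U \ Icc a' b') ∩ (u ∩ v) := ⟨hBS hx, hx2⟩
    rw [hd] at this
    exact this
  rcases (isPreconnected_iff_subset_of_disjoint.mp hBc.isPreconnected) u v hu hv
    (hBS.trans huv) hBd with h | h
  · exact Or.inl (key u v hu hv huv hd h)
  · refine Or.inr (key v u hv hu ?_ ?_ h)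
    · rwa [Set.union_comm]
    · rwa [Set.inter_comm v u]

private theorem hole_aux (U : Set E3) (hU : IsOpen U) (hc : IsConnected U) (n : ℕ)
    (a' b' : Fin n → E3) (h : ∀ i, Icc (a' i) (b' i) ⊆ U) (hne : ∀ i j, a' i j ≤ b' i j)
    (hd : Pairwise fun i j => Disjoint (Icc (a' i) (b' i)) (Icc (a' j) (b' j)))
    (s : Finset (Fin n)) :
    IsOpen (U \ ⋃ i ∈ s, Icc (a' i) (b' i)) ∧ IsConnected (U \ ⋃ i ∈ s, Icc (a' i) (b' i)) := by
  classical
  induction s using Finset.induction_on with
  | empty => simpa using ⟨hU, hc⟩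
  | insert k s hk ih =>
    have heq : U \ ⋃ i ∈ insert k s, Icc (a' i) (b' i) =
        (U \ ⋃ i ∈ s, Icc (a' i) (b' i)) \ Icc (a' k) (b' k) := by
      ext x
      simp only [Finset.mem_insert, Set.mem_sdiff, Set.mem_iUnion, not_exists]
      constructor
      · rintro ⟨h1, h2⟩
        exact ⟨⟨h1, fun i hi => h2 i (Or.inr hi)⟩, h2 k (Or.inl rfl)⟩
      · rintro ⟨⟨h1, h2⟩, h3⟩
        refine ⟨h1, fun i hi => ?_⟩
        rcases hi with rfl | hi
        · exact h3
        · exact h2 i hi
    have hsub : Icc (a' k) (b' k) ⊆ U \ ⋃ i ∈ s, Icc (a' i) (b' i) := by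
      intro x hx
      refine ⟨h k hx, ?_⟩
      simp only [Set.mem_iUnion, not_exists]
      intro i hi hxi
      have hik : i ≠ k := fun hh => hk (hh ▸ hi)
      exact (Set.disjoint_left.mp (hd hik)) hxi hx
    rw [heq]
    exact ⟨ih.1.sdiff isClosed_Icc, isConnected_diff_Icc _ ih.1 ih.2 _ _ hsub (hne k)⟩

/-- removing finitely many disjoint closed boxes from a connected open set -/
theorem isConnected_diff_iUnion_Icc (U : Set E3) (hU : IsOpen U) (hc : IsConnected U) (n : ℕ)
    (a' b' : Fin n → E3) (h : ∀ i, Icc (a' i) (b' i) ⊆ U) (hne : ∀ i j, a' i j ≤ b' i j)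
    (hd : Pairwise fun i j => Disjoint (Icc (a' i) (b' i)) (Icc (a' j) (b' j))) :
    IsConnected (U \ ⋃ i, Icc (a' i) (b' i)) := by
  have := (hole_aux U hU hc n a' b' h hne hd Finset.univ).2
  simpa using this

end Pool.Agent.QM59
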