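import Pool.Agent.Lib.MP_decea1_gt_A.A1
import Pool.Agent.Lib.MP_decea1_gt_A.A4
import Pool.Agent.Lib.MP_decea1_gt_A.A5
import Pool.Agent.Lib.MP_decea1_gt_A.Hole

/-!
# MP_decea1_gt, block A: everything
-/
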